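import Mathlib

set_option autoImplicit false

namespace Pool.Agent.Helper1.D6

open Finset

/-- sum over arithmetic progression mod r with coprime step is the sum over a full period -/
theorem sum_coprime_step (r T c : ℕ) (hr : 0 < r) (hco : Nat.Coprime r T) (f : ℕ → ℝ)
    (hf : ∀ x, f (x + r) = f x) :
    ∑ j ∈ range r, f (c + j * T) = ∑ x ∈ range r, f x := by
  have hper : ∀ x, f x = f (x % r) := by
    intro x
    have h1 : ∀ k y, f (y + k * r) = f y := by
      intro k
      induction k with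
      | zero => intro y; simp
      | succ k ih =>
        intro y
        rw [show y + (k + 1) * r = (y + k * r) + r by ring, hf, ih]
    conv_lhs => rw [← Nat.mod_add_div' x r]
    exact h1 _ _
  have hinj : Set.InjOn (fun j => (c + j * T) % r) (range r : Finset ℕ) := by
    intro i hi j hj hij
    have hi' : i < r := by simpa using hi
    have hj' : j < r := by simpa using hj
    have h1 : (c + i * T) ≡ (c + j * T) [MOD r] := hij
    have h2 : i * T ≡ j * T [MOD r] := Nat.ModEq.add_left_cancel' c h1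
    have h3 : i ≡ j [MOD r] := Nat.ModEq.cancel_right_of_coprime (by simpa using hco) h2
    exact Nat.ModEq.eq_of_lt_of_lt h3 hi' hj'
  have himg : (range r).image (fun j => (c + j * T) % r) = range r := by
    apply Finset.eq_of_subset_of_card_le
    · intro x hx
      simp only [mem_image, mem_range] at hx ⊢
      obtain ⟨j, _, rfl⟩ := hx
      exact Nat.mod_lt _ hr
    · rw [Finset.card_image_of_injOn hinj]
  calc ∑ j ∈ range r, f (c + j * T) = ∑ j ∈ range r, f ((c + j * T) % r) :=
        Finset.sum_congr rfl fun j _ => hper _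
    _ = ∑ x ∈ (range r).image (fun j => (c + j * T) % r), f x := by
        rw [Finset.sum_image hinj]
    _ = ∑ x ∈ range r, f x := by rw [himg]

theorem sum_range_mul' (r T : ℕ) (F : ℕ → ℝ) :
    ∑ x ∈ range (r * T), F x = ∑ j ∈ range r, ∑ c ∈ range T, F (c + j * T) := by
  induction r with
  | zero => simp
  | succ r ih =>
    rw [show (r + 1) * T = r * T + T by ring, Finset.sum_range_add, ih, Finset.sum_range_succ]
    congr 1
    apply Finset.sum_congr rfl
    intro c _
    rw [add_comm]

theorem periodic_mul (T : ℕ) (H : ℕ → ℝ) (hH : ∀ x, H (x + T) = H x) (k x : ℕ) :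
    H (x + k * T) = H x := by
  induction k with
  | zero => simp
  | succ k ih => rw [show x + (k + 1) * T = (x + k * T) + T by ring, hH, ih]

theorem periodic_of_dvd {M N : ℕ} (h : M ∣ N) (H : ℕ → ℝ) (hH : ∀ x, H (x + M) = H x) :
    ∀ x, H (x + N) = H x := by
  obtain ⟨k, rfl⟩ := h
  intro x
  rw [mul_comm]
  exact periodic_mul M H hH k x

/-- CRT factorisation of the sum over a period. -/
theorem sum_crt (r T : ℕ) (hr : 0 < r) (hco : Nat.Coprime r T) (f H : ℕ → ℝ)
    (hf : ∀ x, f (x + r) = f x) (hH : ∀ x, H (x + T) = H x) :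
    ∑ x ∈ range (r * T), f x * H x = (∑ x ∈ range r, f x) * ∑ c ∈ range T, H c := by
  rw [sum_range_mul', Finset.sum_comm, Finset.mul_sum]
  apply Finset.sum_congr rfl
  intro c _
  calc ∑ j ∈ range r, f (c + j * T) * H (c + j * T) = ∑ j ∈ range r, f (c + j * T) * H c := by
        apply Finset.sum_congr rfl
        intro j _
        rw [periodic_mul T H hH]
    _ = (∑ j ∈ range r, f (c + j * T)) * H c := by rw [Finset.sum_mul]
    _ = _ := by rw [sum_coprime_step r T c hr hco f hf]

/-- partial sums of a periodic function with zero mean -/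
theorem abs_sum_periodic_le (M : ℕ) (hM : 0 < M) (F : ℕ → ℝ) (hF : ∀ x, F (x + M) = F x)
    (h0 : ∑ x ∈ range M, F x = 0) (B : ℝ) (hB : ∀ x, |F x| ≤ B) (y N : ℕ) :
    |∑ t ∈ range N, F (y + t)| ≤ M * B := by
  have hfull : ∀ z, ∑ t ∈ range M, F (z + t) = 0 := by
    intro z
    have := sum_coprime_step M 1 z hM (Nat.coprime_one_right M) F hF
    simpa [h0] using this
  have hB0 : 0 ≤ B := le_trans (abs_nonneg _) (hB 0)
  have hdecomp : ∀ q s, ∑ t ∈ range (q * M + s), F (y + t) = ∑ t ∈ range s, F (y + q * M + t) := by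
    intro q s
    rw [Finset.sum_range_add]
    have h1 : ∑ x ∈ range (q * M), F (y + x) = 0 := by
      rw [sum_range_mul']
      apply Finset.sum_eq_zero
      intro j _
      have := hfull (y + j * M)
      rw [← this]
      apply Finset.sum_congr rfl
      intro c _
      congr 1
      ring
    rw [h1, zero_add]
    apply Finset.sum_congr rfl
    intro t _
    congr 1
    ring
  have hN : N = (N / M) * M + N % M := by
    rw [mul_comm]; exact (Nat.div_add_mod N M).symm
  rw [hN, hdecomp]
  calc |∑ t ∈ range (N % M), F (y + N / M * M + t)| ≤ ∑ t ∈ range (N % M), |F (y + N / M * M + t)| :=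
        Finset.abs_sum_le_sum_abs _ _
    _ ≤ ∑ t ∈ range (N % M), B := Finset.sum_le_sum fun t _ => hB _
    _ = (N % M : ℕ) * B := by simp
    _ ≤ M * B := by
        apply mul_le_mul_of_nonneg_right _ hB0
        exact_mod_cast (Nat.mod_lt N hM).le

/-- partial sums of a nonnegative periodic function -/
theorem sum_periodic_le (M : ℕ) (hM : 0 < M) (F : ℕ → ℝ) (hF : ∀ x, F (x + M) = F x)
    (h0 : ∀ x, 0 ≤ F x) (y N : ℕ) :
    ∑ t ∈ range N, F (y + t) ≤ ((N : ℝ) / M + 1) * ∑ x ∈ range M, F x := by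
  have hfull : ∀ z, ∑ t ∈ range M, F (z + t) = ∑ x ∈ range M, F x := by
    intro z
    have := sum_coprime_step M 1 z hM (Nat.coprime_one_right M) F hF
    simpa using this
  have hS0 : 0 ≤ ∑ x ∈ range M, F x := Finset.sum_nonneg fun x _ => h0 x
  have h1 : ∑ t ∈ range N, F (y + t) ≤ ∑ t ∈ range ((N / M + 1) * M), F (y + t) := by
    apply Finset.sum_le_sum_of_subset_of_nonneg
    · intro t ht
      simp only [mem_range] at ht ⊢
      calc t < N := ht
        _ ≤ _ := by
          have := Nat.lt_div_mul_add (a := N) hM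
          rw [add_mul, one_mul]
          exact this.le
    · intro t _ _
      exact h0 _
  have h2 : ∑ t ∈ range ((N / M + 1) * M), F (y + t) = ((N / M + 1 : ℕ) : ℝ) * ∑ x ∈ range M, F x := by
    rw [sum_range_mul']
    have : ∀ j ∈ range (N / M + 1), ∑ c ∈ range M, F (y + (c + j * M)) = ∑ x ∈ range M, F x := by
      intro j _
      rw [← hfull (y + j * M)]
      apply Finset.sum_congr rfl
      intro c _
      congr 1
      ring
    rw [Finset.sum_congr rfl this]
    simp
  rw [h2] at h1
  refine h1.trans ?_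
  apply mul_le_mul_of_nonneg_right _ hS0
  push_cast
  have : ((N / M : ℕ) : ℝ) ≤ (N : ℝ) / M := Nat.cast_div_le
  linarith


theorem prod_periodic (f : ℕ → ℕ → ℝ) (E : Finset ℕ) (hf : ∀ r ∈ E, ∀ x, f r (x + r) = f r x)
    (M : ℕ) (hM : ∀ r ∈ E, r ∣ M) (x : ℕ) : ∏ r ∈ E, f r (x + M) = ∏ r ∈ E, f r x :=
  Finset.prod_congr rfl fun r hr => periodic_of_dvd (hM r hr) (f r) (hf r hr) x

theorem coprime_prod_of_not_mem (E : Finset ℕ) (hE : ∀ r ∈ E, r.Prime) (q : ℕ) (hq : q.Prime)
    (hqE : q ∉ E) : Nat.Coprime q (∏ r ∈ E, r) := by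
  apply Nat.Coprime.prod_right
  intro r hr
  exact (Nat.coprime_primes hq (hE r hr)).2 (fun h => hqE (h ▸ hr))

theorem sum_prod_period (g : ℕ → ℕ → ℝ) (E : Finset ℕ) (hE : ∀ r ∈ E, r.Prime)
    (hg : ∀ r ∈ E, ∀ x, g r (x + r) = g r x) :
    ∑ x ∈ range (∏ r ∈ E, r), ∏ r ∈ E, g r x = ∏ r ∈ E, ∑ x ∈ range r, g r x := by
  induction E using Finset.induction_on with
  | empty => simp
  | insert q E hq ih =>
    rw [Finset.prod_insert hq, Finset.prod_insert hq]
    have h1 := sum_crt q (∏ r ∈ E, r) (hE q (mem_insert_self _ _)).pos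
      (coprime_prod_of_not_mem E (fun r hr => hE r (mem_insert_of_mem hr)) q
        (hE q (mem_insert_self _ _)) hq) (g q) (fun x => ∏ r ∈ E, g r x)
      (hg q (mem_insert_self _ _))
      (fun x => prod_periodic g E (fun r hr => hg r (mem_insert_of_mem hr)) _
        (fun r hr => Finset.dvd_prod_of_mem _ hr) x)
    rw [← ih (fun r hr => hE r (mem_insert_of_mem hr)) (fun r hr => hg r (mem_insert_of_mem hr)), ← h1]
    apply Finset.sum_congr rfl
    intro x _
    rw [Finset.prod_insert hq]

theorem sum_offdiag (f : ℕ → ℕ → ℝ) (E E' : Finset ℕ) (hE : ∀ r ∈ E, r.Prime)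
    (hE' : ∀ r ∈ E', r.Prime)
    (hf : ∀ r ∈ E, ∀ x, f r (x + r) = f r x) (hf' : ∀ r ∈ E', ∀ x, f r (x + r) = f r x)
    (hm : ∀ r ∈ E, ∑ x ∈ range r, f r x = 0)
    (q : ℕ) (hq : q ∈ E) (hq' : q ∉ E') :
    ∑ x ∈ range (∏ r ∈ E ∪ E', r), (∏ r ∈ E, f r x) * (∏ r ∈ E', f r x) = 0 := by
  have hqU : q ∈ E ∪ E' := mem_union_left _ hq
  have hcop : Nat.Coprime q (∏ r ∈ (E ∪ E').erase q, r) := by
    apply coprime_prod_of_not_mem
    · intro r hr
      rcases mem_union.1 (mem_of_mem_erase hr) with h | h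
      · exact hE r h
      · exact hE' r h
    · exact hE q hq
    · exact notMem_erase _ _
  have h1 := sum_crt q (∏ r ∈ (E ∪ E').erase q, r) (hE q hq).pos hcop (f q)
    (fun x => (∏ r ∈ E.erase q, f r x) * (∏ r ∈ E', f r x)) (hf q hq) (by
      intro x
      rw [prod_periodic f (E.erase q) (fun r hr => hf r (mem_of_mem_erase hr)) _ (fun r hr => ?_) x,
        prod_periodic f E' hf' _ (fun r hr => ?_) x]
      · apply Finset.dvd_prod_of_mem
        rw [mem_erase]
        exact ⟨fun h => hq' (h ▸ hr), mem_union_right _ hr⟩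
      · apply Finset.dvd_prod_of_mem
        rw [mem_erase]
        exact ⟨ne_of_mem_erase hr, mem_union_left _ (mem_of_mem_erase hr)⟩)
  rw [hm q hq, zero_mul, Finset.mul_prod_erase _ (fun r => r) hqU] at h1
  rw [← h1]
  apply Finset.sum_congr rfl
  intro x _
  rw [← Finset.mul_prod_erase E (fun r => f r x) hq]
  ring

theorem prod_union_le (E E' : Finset ℕ) (hE : ∀ r ∈ E, 0 < r) :
    ∏ r ∈ E ∪ E', r ≤ (∏ r ∈ E, r) * ∏ r ∈ E', r := by
  rw [← Finset.prod_union_inter]
  apply Nat.le_mul_of_pos_right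
  apply Finset.prod_pos
  intro r hr
  exact hE r (mem_inter.1 hr).1

/-- The general upper bound sieve (orthogonality form). -/
theorem sieve_bound (P : Finset ℕ) (hP : ∀ r ∈ P, r.Prime) (f : ℕ → ℕ → ℝ) (w : ℕ → ℝ)
    (hw : ∀ r ∈ P, 0 < w r)
    (hper : ∀ r ∈ P, ∀ x, f r (x + r) = f r x) (hmean : ∀ r ∈ P, ∑ x ∈ range r, f r x = 0)
    (hsq : ∀ r ∈ P, ∑ x ∈ range r, (f r x) ^ 2 ≤ r / w r)
    (hbd : ∀ r ∈ P, ∀ x, w r * |f r x| ≤ 1)
    (S : Finset (Finset ℕ)) (hS : ∀ E ∈ S, E ⊆ P) (D : ℕ) (hD : ∀ E ∈ S, ∏ r ∈ E, r ≤ D)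
    (y N : ℕ) (X : Finset ℕ) (hX : X ⊆ range N) (hX1 : ∀ t ∈ X, ∀ r ∈ P, f r (y + t) = 1) :
    (X.card : ℝ) * (∑ E ∈ S, ∏ r ∈ E, w r) ^ 2 ≤
      (N + D) * (∑ E ∈ S, ∏ r ∈ E, w r) + (S.card : ℝ) ^ 2 * (D : ℝ) ^ 2 := by
  classical
  set G := ∑ E ∈ S, ∏ r ∈ E, w r with hG
  set W : Finset ℕ → ℝ := fun E => ∏ r ∈ E, w r with hW
  set F : Finset ℕ → ℕ → ℝ := fun E x => ∏ r ∈ E, f r x with hF
  have hWpos : ∀ E ∈ S, 0 < W E := fun E hE => Finset.prod_pos fun r hr => hw r (hS E hE hr)
  have hWF : ∀ E ∈ S, ∀ x, |W E * F E x| ≤ 1 := by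
    intro E hE x
    rw [hW, hF]
    simp only
    rw [← Finset.prod_mul_distrib, Finset.abs_prod]
    apply Finset.prod_le_one
    · intro r _; exact abs_nonneg _
    · intro r hr
      rw [abs_mul, abs_of_pos (hw r (hS E hE hr))]
      exact hbd r (hS E hE hr) x
  have hMpos : ∀ E ∈ S, 0 < ∏ r ∈ E, r := fun E hE =>
    Finset.prod_pos fun r hr => (hP r (hS E hE hr)).pos
  -- lower bound
  have h1 : (X.card : ℝ) * G ^ 2 ≤ ∑ t ∈ range N, (∑ E ∈ S, W E * F E (y + t)) ^ 2 := by
    calc (X.card : ℝ) * G ^ 2 = ∑ t ∈ X, (∑ E ∈ S, W E * F E (y + t)) ^ 2 := by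
          rw [Finset.sum_congr rfl (g := fun _ => G ^ 2), Finset.sum_const, nsmul_eq_mul]
          intro t ht
          congr 1
          rw [hG]
          apply Finset.sum_congr rfl
          intro E hE
          have : F E (y + t) = 1 := by
            rw [hF]
            exact Finset.prod_eq_one fun r hr => hX1 t ht r (hS E hE hr)
          rw [this, mul_one]
      _ ≤ _ := Finset.sum_le_sum_of_subset_of_nonneg hX fun t _ _ => sq_nonneg _
  -- expand
  have h2 : ∑ t ∈ range N, (∑ E ∈ S, W E * F E (y + t)) ^ 2 =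
      ∑ E ∈ S, ∑ E' ∈ S, ∑ t ∈ range N, (W E * F E (y + t)) * (W E' * F E' (y + t)) := by
    calc _ = ∑ t ∈ range N, ∑ E ∈ S, ∑ E' ∈ S, (W E * F E (y + t)) * (W E' * F E' (y + t)) := by
          apply Finset.sum_congr rfl
          intro t _
          rw [sq, Finset.sum_mul_sum]
      _ = _ := by
          rw [Finset.sum_comm]
          apply Finset.sum_congr rfl
          intro E _
          rw [Finset.sum_comm]
  -- diagonal
  have hdiag : ∀ E ∈ S, ∑ t ∈ range N, (W E * F E (y + t)) * (W E * F E (y + t)) ≤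
      (N + D) * W E := by
    intro E hE
    have hM := hMpos E hE
    set M := ∏ r ∈ E, r with hMdef
    have hMr : (0 : ℝ) < M := by exact_mod_cast hM
    have hEP := hS E hE
    have a1 := sum_periodic_le M hM (fun x => ∏ r ∈ E, (f r x) ^ 2)
      (fun x => prod_periodic (fun r x => (f r x) ^ 2) E
        (fun r hr x => by simp only [hper r (hEP hr) x]) M (fun r hr => Finset.dvd_prod_of_mem _ hr) x)
      (fun x => Finset.prod_nonneg fun r _ => sq_nonneg _) y N
    have a2 : ∑ x ∈ range M, ∏ r ∈ E, (f r x) ^ 2 ≤ M / W E := by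
      rw [hMdef, sum_prod_period (fun r x => (f r x) ^ 2) E (fun r hr => hP r (hEP hr))
        (fun r hr x => by simp only [hper r (hEP hr) x])]
      calc ∏ r ∈ E, ∑ x ∈ range r, (f r x) ^ 2 ≤ ∏ r ∈ E, ((r : ℝ) / w r) :=
            Finset.prod_le_prod (fun r _ => Finset.sum_nonneg fun x _ => sq_nonneg _)
              (fun r hr => hsq r (hEP hr))
        _ = _ := by rw [Finset.prod_div_distrib]; push_cast; rfl
    calc ∑ t ∈ range N, (W E * F E (y + t)) * (W E * F E (y + t))
        = (W E) ^ 2 * ∑ t ∈ range N, ∏ r ∈ E, (f r (y + t)) ^ 2 := by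
          rw [Finset.mul_sum]
          apply Finset.sum_congr rfl
          intro t _
          rw [Finset.prod_pow]
          ring
      _ ≤ (W E) ^ 2 * (((N : ℝ) / M + 1) * (M / W E)) := by
          apply mul_le_mul_of_nonneg_left _ (sq_nonneg _)
          exact a1.trans (mul_le_mul_of_nonneg_left a2 (by positivity))
      _ = (N + M) * W E := by
          have := (hWpos E hE).ne'
          field_simp
      _ ≤ (N + D) * W E := by
          apply mul_le_mul_of_nonneg_right _ (hWpos E hE).le
          have : (M : ℝ) ≤ D := by exact_mod_cast hD E hE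
          linarith
  -- off-diagonal
  have hoff : ∀ E ∈ S, ∀ E' ∈ S, E ≠ E' →
      ∑ t ∈ range N, (W E * F E (y + t)) * (W E' * F E' (y + t)) ≤ (D : ℝ) ^ 2 := by
    intro E hE E' hE' hne
    have hEP := hS E hE
    have hEP' := hS E' hE'
    set M := ∏ r ∈ E ∪ E', r with hMdef
    have hMpos' : 0 < M := Finset.prod_pos fun r hr => by
      rcases mem_union.1 hr with h | h
      · exact (hP r (hEP h)).pos
      · exact (hP r (hEP' h)).pos
    have hMD : (M : ℝ) ≤ (D : ℝ) ^ 2 := by
      have b1 := prod_union_le E E' (fun r hr => (hP r (hEP hr)).pos)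
      have b2 : M ≤ D ^ 2 := by
        rw [sq]
        exact b1.trans (Nat.mul_le_mul (hD E hE) (hD E' hE'))
      exact_mod_cast b2
    have hzero : ∑ x ∈ range M, F E x * F E' x = 0 := by
      have hex : (∃ q ∈ E, q ∉ E') ∨ (∃ q ∈ E', q ∉ E) := by
        by_contra hcon
        push Not at hcon
        exact hne (Finset.Subset.antisymm hcon.1 hcon.2)
      rcases hex with ⟨q, hq, hq'⟩ | ⟨q, hq, hq'⟩
      · exact sum_offdiag f E E' (fun r hr => hP r (hEP hr)) (fun r hr => hP r (hEP' hr))
          (fun r hr => hper r (hEP hr)) (fun r hr => hper r (hEP' hr))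
          (fun r hr => hmean r (hEP hr)) q hq hq'
      · have := sum_offdiag f E' E (fun r hr => hP r (hEP' hr)) (fun r hr => hP r (hEP hr))
          (fun r hr => hper r (hEP' hr)) (fun r hr => hper r (hEP hr))
          (fun r hr => hmean r (hEP' hr)) q hq hq'
        rw [hMdef, Finset.union_comm, ← this]
        apply Finset.sum_congr rfl
        intro x _
        rw [hF]; ring
    have hb := abs_sum_periodic_le M hMpos' (fun x => (W E * F E x) * (W E' * F E' x))
      (by
        intro x
        have c1 : F E (x + M) = F E x := prod_periodic f E (fun r hr => hper r (hEP hr)) M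
          (fun r hr => Finset.dvd_prod_of_mem _ (mem_union_left _ hr)) x
        have c2 : F E' (x + M) = F E' x := prod_periodic f E' (fun r hr => hper r (hEP' hr)) M
          (fun r hr => Finset.dvd_prod_of_mem _ (mem_union_right _ hr)) x
        simp only [c1, c2])
      (by
        rw [show ∑ x ∈ range M, (W E * F E x) * (W E' * F E' x) =
          (W E * W E') * ∑ x ∈ range M, F E x * F E' x by
            rw [Finset.mul_sum]
            exact Finset.sum_congr rfl fun x _ => by ring]
        rw [hzero, mul_zero]) 1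
      (by
        intro x
        rw [abs_mul]
        calc |W E * F E x| * |W E' * F E' x| ≤ 1 * 1 :=
              mul_le_mul (hWF E hE x) (hWF E' hE' x) (abs_nonneg _) zero_le_one
          _ = 1 := by ring) y N
    rw [mul_one] at hb
    exact (le_abs_self _).trans (hb.trans hMD)
  calc (X.card : ℝ) * G ^ 2 ≤ _ := h1
    _ = _ := h2
    _ ≤ ∑ E ∈ S, ∑ E' ∈ S, ((if E = E' then (N + D) * W E else 0) + (D : ℝ) ^ 2) := by
        apply Finset.sum_le_sum
        intro E hE
        apply Finset.sum_le_sum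
        intro E' hE'
        by_cases h : E = E'
        · subst h
          simp only [if_true]
          have := hdiag E hE
          have h3 : (0 : ℝ) ≤ (D : ℝ) ^ 2 := by positivity
          linarith
        · rw [if_neg h, zero_add]
          exact hoff E hE E' hE' h
    _ = _ := by
        simp only [Finset.sum_add_distrib, Finset.sum_const, nsmul_eq_mul]
        have : ∀ E ∈ S, ∑ E' ∈ S, (if E = E' then ((N : ℝ) + D) * W E else 0) = (N + D) * W E := by
          intro E hE
          rw [Finset.sum_ite_eq, if_pos hE]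
        rw [Finset.sum_congr rfl this, ← Finset.mul_sum]
        ring

end Pool.Agent.Helper1.D6
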