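import Mathlib
import Pool.Agent.Helper1.D6.Sieve

set_option autoImplicit false

namespace Pool.Agent.Helper1.D6

open Finset

/-- the sieve function for primes -/
noncomputable def fBT (r x : ℕ) : ℝ := if r ∣ x then -((r : ℝ) - 1) else 1

noncomputable def wBT (r : ℕ) : ℝ := 1 / ((r : ℝ) - 1)

theorem fBT_periodic (r x : ℕ) : fBT r (x + r) = fBT r x := by
  unfold fBT; simp

theorem fBT_sum (r : ℕ) (hr : 2 ≤ r) (g : ℝ → ℝ) :
    ∑ x ∈ range r, g (fBT r x) = g (-((r : ℝ) - 1)) + ((r : ℝ) - 1) * g 1 := by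
  obtain ⟨k, rfl⟩ : ∃ k, r = k + 1 := ⟨r - 1, by omega⟩
  rw [Finset.sum_range_succ']
  have h : ∀ x ∈ range k, g (fBT (k + 1) (x + 1)) = g 1 := by
    intro x hx
    have hx' : x < k := by simpa using hx
    unfold fBT
    rw [if_neg]
    intro hd
    have := Nat.le_of_dvd (by omega) hd
    omega
  rw [Finset.sum_congr rfl h]
  simp [fBT]
  ring

theorem sum_inv_sq_le (D : ℕ) : ∑ s ∈ Icc 1 D, 1 / (s : ℝ) ^ 2 ≤ 2 := by
  have h : ∀ D : ℕ, 1 ≤ D → ∑ s ∈ Icc 1 D, 1 / (s : ℝ) ^ 2 ≤ 2 - 1 / (D : ℝ) := by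
    intro D hD
    induction D, hD using Nat.le_induction with
    | base => simp; norm_num
    | succ n hn ih =>
      rw [Finset.sum_Icc_succ_top (by omega)]
      have hn' : (0 : ℝ) < n := by exact_mod_cast hn
      have : 1 / ((n + 1 : ℕ) : ℝ) ^ 2 ≤ 1 / (n : ℝ) - 1 / ((n + 1 : ℕ) : ℝ) := by
        push_cast
        rw [div_sub_div _ _ (by positivity) (by positivity), div_le_div_iff₀ (by positivity) (by positivity)]
        nlinarith
      linarith
  rcases Nat.eq_zero_or_pos D with h0 | h0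
  · subst h0; simp
  · have := h D h0
    have h1 : (0 : ℝ) ≤ 1 / (D : ℝ) := by positivity
    linarith

/-- family of sets of primes with product at most D -/
noncomputable def famBT (D : ℕ) : Finset (Finset ℕ) :=
  (((Icc 1 D).filter Nat.Prime).powerset).filter (fun E => ∏ r ∈ E, r ≤ D)

theorem famBT_prime {D : ℕ} {E : Finset ℕ} (hE : E ∈ famBT D) : ∀ r ∈ E, r.Prime := by
  intro r hr
  have := (mem_filter.1 hE).1
  have h2 := (mem_powerset.1 this) hr
  exact (mem_filter.1 h2).2

theorem famBT_card (D : ℕ) : (famBT D).card ≤ D := by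
  have : (famBT D).card ≤ (Icc 1 D).card := by
    apply Finset.card_le_card_of_injOn (fun E => ∏ r ∈ E, r)
    · intro E hE
      have hE' : E ∈ famBT D := hE
      simp only [coe_Icc, Set.mem_Icc]
      refine ⟨Finset.prod_pos fun r hr => (famBT_prime hE' r hr).pos, (mem_filter.1 hE').2⟩
    · intro E hE E' hE' h
      have h1 := Nat.primeFactors_prod (s := E) (famBT_prime hE)
      have h2 := Nat.primeFactors_prod (s := E') (famBT_prime hE')
      rw [← h1, ← h2]
      simp only at h
      rw [h]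
  simpa using this

theorem famBT_sum (D : ℕ) : Real.log (D + 1) ≤ 2 * ∑ E ∈ famBT D, ∏ r ∈ E, (1 / (r : ℝ)) := by
  have h1 : Real.log (D + 1) ≤ ∑ k ∈ Icc 1 D, 1 / (k : ℝ) := by
    have := log_add_one_le_harmonic D
    rw [harmonic_eq_sum_Icc] at this
    push_cast at this
    simpa [one_div] using this
  choose d s hd using fun k : ℕ => Nat.sq_mul_squarefree k
  have h2 : ∑ k ∈ Icc 1 D, 1 / (k : ℝ) ≤
      ∑ x ∈ famBT D ×ˢ Icc 1 D, (∏ r ∈ x.1, (1 / (r : ℝ))) * (1 / (x.2 : ℝ) ^ 2) := by
    have hprod : ∀ k, ∏ r ∈ (d k).primeFactors, r = d k := fun k =>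
      Nat.prod_primeFactors_of_squarefree (hd k).2
    have hpos : ∀ k ∈ Icc 1 D, 1 ≤ s k ∧ 1 ≤ d k ∧ s k ≤ D ∧ d k ≤ D := by
      intro k hk
      have hk' := mem_Icc.1 hk
      have h := (hd k).1
      have hs : s k ≠ 0 := by
        intro h0; rw [h0] at h; simp at h; omega
      have hdk : d k ≠ 0 := by
        intro h0; rw [h0] at h; simp at h; omega
      refine ⟨by omega, by omega, ?_, ?_⟩
      · calc s k ≤ s k ^ 2 := Nat.le_self_pow (by norm_num) _
          _ ≤ s k ^ 2 * d k := Nat.le_mul_of_pos_right _ (by omega)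
          _ = k := h
          _ ≤ D := hk'.2
      · calc d k ≤ s k ^ 2 * d k := Nat.le_mul_of_pos_left _ (by positivity)
          _ = k := h
          _ ≤ D := hk'.2
    have hinj : Set.InjOn (fun k => ((d k).primeFactors, s k)) (Icc 1 D : Finset ℕ) := by
      intro k hk k' hk' h
      simp only [Prod.mk.injEq] at h
      rw [← (hd k).1, ← (hd k').1, h.2, ← hprod k, ← hprod k', h.1]
    calc ∑ k ∈ Icc 1 D, 1 / (k : ℝ)
        = ∑ k ∈ Icc 1 D, (∏ r ∈ (d k).primeFactors, (1 / (r : ℝ))) * (1 / (s k : ℝ) ^ 2) := by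
          apply Finset.sum_congr rfl
          intro k hk
          obtain ⟨p1, p2, _, _⟩ := hpos k hk
          have e1 : ∏ r ∈ (d k).primeFactors, (1 / (r : ℝ)) = 1 / (d k : ℝ) := by
            rw [Finset.prod_div_distrib]
            congr 1
            · simp
            · conv_rhs => rw [← hprod k]
              push_cast
              rfl
          rw [e1]
          have e2 : (k : ℝ) = (s k : ℝ) ^ 2 * d k := by
            have := (hd k).1
            exact_mod_cast this.symm
          rw [e2]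
          have : (0 : ℝ) < s k := by exact_mod_cast p1
          have : (0 : ℝ) < d k := by exact_mod_cast p2
          field_simp
      _ = ∑ x ∈ (Icc 1 D).image (fun k => ((d k).primeFactors, s k)),
            (∏ r ∈ x.1, (1 / (r : ℝ))) * (1 / (x.2 : ℝ) ^ 2) := by
          rw [Finset.sum_image hinj]
      _ ≤ _ := by
          apply Finset.sum_le_sum_of_subset_of_nonneg
          · intro x hx
            obtain ⟨k, hk, rfl⟩ := mem_image.1 hx
            obtain ⟨p1, p2, p3, p4⟩ := hpos k hk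
            rw [mem_product]
            refine ⟨?_, mem_Icc.2 ⟨p1, p3⟩⟩
            unfold famBT
            rw [mem_filter, mem_powerset]
            refine ⟨?_, ?_⟩
            · intro r hr
              rw [mem_filter, mem_Icc]
              have hr' := Nat.prime_of_mem_primeFactors hr
              refine ⟨⟨hr'.one_le, ?_⟩, hr'⟩
              exact (Nat.le_of_mem_primeFactors hr).trans p4
            · simp only; rw [hprod k]; exact p4
          · intro x _ _
            apply mul_nonneg (Finset.prod_nonneg fun r _ => by positivity) (by positivity)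
  rw [Finset.sum_product] at h2
  simp only at h2
  calc Real.log (D + 1) ≤ _ := h1
    _ ≤ _ := h2
    _ = (∑ E ∈ famBT D, ∏ r ∈ E, (1 / (r : ℝ))) * ∑ s ∈ Icc 1 D, 1 / (s : ℝ) ^ 2 := by
        rw [Finset.sum_mul]
        apply Finset.sum_congr rfl
        intro E _
        rw [Finset.mul_sum]
    _ ≤ (∑ E ∈ famBT D, ∏ r ∈ E, (1 / (r : ℝ))) * 2 := by
        apply mul_le_mul_of_nonneg_left (sum_inv_sq_le D)
        exact Finset.sum_nonneg fun E _ => Finset.prod_nonneg fun r _ => by positivity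
    _ = _ := by ring

/-- sieve for rough numbers in an interval -/
theorem rough_bound (D : ℕ) (hD : 1 ≤ D) (y N : ℕ) (X : Finset ℕ) (hX : X ⊆ range N)
    (hX1 : ∀ t ∈ X, ∀ r : ℕ, r.Prime → r ≤ D → ¬ r ∣ (y + t)) (G : ℝ) (hG0 : 0 < G)
    (hG : G ≤ Real.log (D + 1) / 2) :
    (X.card : ℝ) ≤ (N + D) / G + (D : ℝ) ^ 4 / G ^ 2 := by
  classical
  set P := (Icc 1 D).filter Nat.Prime with hP
  have hPp : ∀ r ∈ P, r.Prime := fun r hr => (mem_filter.1 hr).2
  have hPr : ∀ r ∈ P, (0 : ℝ) < (r : ℝ) - 1 := by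
    intro r hr
    have : (2 : ℝ) ≤ r := by exact_mod_cast (hPp r hr).two_le
    linarith
  have key := sieve_bound P hPp fBT wBT
    (fun r hr => by unfold wBT; have := hPr r hr; positivity)
    (fun r _ x => fBT_periodic r x)
    (fun r hr => by
      have := fBT_sum r (hPp r hr).two_le (fun z => z)
      rw [this]; ring)
    (fun r hr => by
      have := fBT_sum r (hPp r hr).two_le (fun z => z ^ 2)
      rw [this]
      unfold wBT
      have h := hPr r hr
      rw [div_div_eq_mul_div, div_one]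
      apply le_of_eq
      ring)
    (fun r hr x => by
      have h := hPr r hr
      unfold wBT fBT
      split_ifs
      · rw [abs_neg, abs_of_pos h]
        rw [one_div, inv_mul_cancel₀ h.ne']
      · rw [abs_one, mul_one]
        rw [div_le_one h]
        have : (2 : ℝ) ≤ r := by exact_mod_cast (hPp r hr).two_le
        linarith)
    (famBT D) (fun E hE => mem_powerset.1 (mem_filter.1 hE).1) D (fun E hE => (mem_filter.1 hE).2)
    y N X hX (fun t ht r hr => by
      unfold fBT
      rw [if_neg]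
      have := mem_filter.1 hr
      exact hX1 t ht r this.2 (mem_Icc.1 this.1).2)
  set G' := ∑ E ∈ famBT D, ∏ r ∈ E, wBT r with hG'
  have hGG' : G ≤ G' := by
    have h1 := famBT_sum D
    have h2 : ∑ E ∈ famBT D, ∏ r ∈ E, (1 / (r : ℝ)) ≤ G' := by
      apply Finset.sum_le_sum
      intro E hE
      apply Finset.prod_le_prod
      · intro r _; positivity
      · intro r hr
        unfold wBT
        have : r ∈ P := (mem_powerset.1 (mem_filter.1 hE).1) hr
        have := hPr r this
        exact one_div_le_one_div_of_le this (by linarith)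
    linarith
  have hG'0 : 0 < G' := lt_of_lt_of_le hG0 hGG'
  have hcard : ((famBT D).card : ℝ) ≤ D := by exact_mod_cast famBT_card D
  have h3 : (X.card : ℝ) * G' ^ 2 ≤ (N + D) * G' + (D : ℝ) ^ 4 := by
    refine key.trans ?_
    have : ((famBT D).card : ℝ) ^ 2 * (D : ℝ) ^ 2 ≤ (D : ℝ) ^ 2 * (D : ℝ) ^ 2 := by gcongr
    nlinarith
  calc (X.card : ℝ) = (X.card : ℝ) * G' ^ 2 / G' ^ 2 := by field_simp
    _ ≤ ((N + D) * G' + (D : ℝ) ^ 4) / G' ^ 2 := by gcongr
    _ = (N + D) / G' + (D : ℝ) ^ 4 / G' ^ 2 := by field_simp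
    _ ≤ _ := by gcongr

/-- **Brun–Titchmarsh** with an absolute constant. -/
theorem brun_titchmarsh (y N : ℕ) (hN : 2 ≤ N) :
    (((Ioc y (y + N)).filter Nat.Prime).card : ℝ) ≤ 200 * N / Real.log N := by
  classical
  set D := Nat.sqrt (Nat.sqrt N) with hDdef
  have hD1 : 1 ≤ D := by
    rw [hDdef, Nat.le_sqrt, Nat.le_sqrt]
    omega
  have hD4 : D ^ 4 ≤ N := by
    have h1 : D * D ≤ Nat.sqrt N := Nat.sqrt_le _
    have h2 : Nat.sqrt N * Nat.sqrt N ≤ N := Nat.sqrt_le _
    calc D ^ 4 = (D * D) * (D * D) := by ring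
      _ ≤ Nat.sqrt N * Nat.sqrt N := Nat.mul_le_mul h1 h1
      _ ≤ N := h2
  have hND : N < (D + 1) ^ 4 := by
    have h1 : Nat.sqrt N < (D + 1) * (D + 1) := Nat.lt_succ_sqrt (Nat.sqrt N)
    have h2 : N < (Nat.sqrt N + 1) * (Nat.sqrt N + 1) := Nat.lt_succ_sqrt N
    calc N < (Nat.sqrt N + 1) * (Nat.sqrt N + 1) := h2
      _ ≤ ((D + 1) * (D + 1)) * ((D + 1) * (D + 1)) := Nat.mul_le_mul h1 h1
      _ = _ := by ring
  -- real versions
  have hN0 : (0 : ℝ) < N := by exact_mod_cast (by omega : 0 < N)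
  have hlogN : 0 < Real.log N := Real.log_pos (by exact_mod_cast (by omega : 1 < N))
  have hD4' : (D : ℝ) ^ 4 ≤ N := by exact_mod_cast hD4
  have hD1' : (1 : ℝ) ≤ D := by exact_mod_cast hD1
  have hlogD : Real.log N ≤ 4 * Real.log (D + 1) := by
    have h1 : (N : ℝ) ≤ ((D : ℝ) + 1) ^ 4 := by exact_mod_cast hND.le
    calc Real.log N ≤ Real.log (((D : ℝ) + 1) ^ 4) := Real.log_le_log hN0 h1
      _ = 4 * Real.log (D + 1) := by rw [Real.log_pow]; norm_num
  -- sifted set
  set X := (range N).filter (fun t => ∀ r : ℕ, r.Prime → r ≤ D → ¬ r ∣ (y + 1 + t)) with hXdef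
  have hXb := rough_bound D hD1 (y + 1) N X (filter_subset _ _)
    (fun t ht => (mem_filter.1 ht).2) (Real.log N / 8) (by positivity) (by linarith)
  -- the primes
  have hcover : (Ioc y (y + N)).filter Nat.Prime ⊆ (Icc 1 D) ∪ X.image (fun t => y + 1 + t) := by
    intro q hq
    obtain ⟨hq1, hq2⟩ := mem_filter.1 hq
    rw [mem_Ioc] at hq1
    rw [mem_union]
    by_cases hqD : q ≤ D
    · left; rw [mem_Icc]; exact ⟨hq2.one_le, hqD⟩
    · right
      rw [mem_image]
      refine ⟨q - (y + 1), ?_, by omega⟩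
      rw [hXdef, mem_filter, mem_range]
      refine ⟨by omega, ?_⟩
      intro r hr hrD hdvd
      rw [show y + 1 + (q - (y + 1)) = q by omega] at hdvd
      have := (Nat.prime_dvd_prime_iff_eq hr hq2).1 hdvd
      omega
  have hcard : (((Ioc y (y + N)).filter Nat.Prime).card : ℝ) ≤ D + X.card := by
    have h1 := (card_le_card hcover).trans (card_union_le _ _)
    have h2 : (Icc 1 D).card = D := by simp
    have h3 : (X.image (fun t => y + 1 + t)).card ≤ X.card := card_image_le
    have : ((Ioc y (y + N)).filter Nat.Prime).card ≤ D + X.card := by omega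
    exact_mod_cast this
  -- D is small
  have hDN : (D : ℝ) ≤ N := by
    calc (D : ℝ) ≤ (D : ℝ) ^ 4 := le_self_pow₀ hD1' (by norm_num)
      _ ≤ N := hD4'
  have hDlog : (D : ℝ) * Real.log N ≤ 4 * N := by
    have h1 : Real.log (D + 1) ≤ D := by
      have := Real.log_le_sub_one_of_pos (show (0 : ℝ) < D + 1 by linarith)
      linarith
    have h2 : (D : ℝ) ^ 2 ≤ (D : ℝ) ^ 4 := pow_le_pow_right₀ hD1' (by norm_num)
    nlinarith
  have hlog2 : Real.log 2 ≤ Real.log N := Real.log_le_log (by norm_num) (by exact_mod_cast hN)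
  have hl2 : (0.69 : ℝ) ≤ Real.log N := by
    have := Real.log_two_gt_d9
    linarith
  rw [le_div_iff₀ hlogN]
  have hX2 : (X.card : ℝ) * Real.log N ≤ 180 * N := by
    have h1 : ((N : ℝ) + D) / (Real.log N / 8) * Real.log N = 8 * (N + D) := by
      field_simp
    have h2 : (D : ℝ) ^ 4 / (Real.log N / 8) ^ 2 * Real.log N ≤ 100 * N := by
      have e : (D : ℝ) ^ 4 / (Real.log N / 8) ^ 2 * Real.log N = 64 * (D : ℝ) ^ 4 / Real.log N := by
        field_simp
        norm_num
      rw [e, div_le_iff₀ hlogN]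
      nlinarith
    calc (X.card : ℝ) * Real.log N ≤
          ((N + D) / (Real.log N / 8) + (D : ℝ) ^ 4 / (Real.log N / 8) ^ 2) * Real.log N :=
          mul_le_mul_of_nonneg_right hXb hlogN.le
      _ = (N + D) / (Real.log N / 8) * Real.log N
          + (D : ℝ) ^ 4 / (Real.log N / 8) ^ 2 * Real.log N := by ring
      _ ≤ 8 * (N + D) + 100 * N := by rw [h1]; linarith
      _ ≤ 180 * N := by linarith
  calc (((Ioc y (y + N)).filter Nat.Prime).card : ℝ) * Real.log N ≤ (D + X.card) * Real.log N :=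
        mul_le_mul_of_nonneg_right hcard hlogN.le
    _ = D * Real.log N + X.card * Real.log N := by ring
    _ ≤ 200 * N := by linarith

end Pool.Agent.Helper1.D6
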