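import Mathlib
import Pool.Agent.Helper1.D6.BT

set_option autoImplicit false

namespace Pool.Agent.Helper1.D6

open Finset

/-- primes up to t -/
noncomputable def pr (t : ℕ) : Finset ℕ := (Icc 1 t).filter Nat.Prime

theorem mem_pr {t r : ℕ} : r ∈ pr t ↔ r.Prime ∧ r ≤ t := by
  unfold pr
  rw [mem_filter, mem_Icc]
  constructor
  · rintro ⟨⟨_, h⟩, h2⟩; exact ⟨h2, h⟩
  · rintro ⟨h2, h⟩; exact ⟨⟨h2.one_le, h⟩, h2⟩

theorem sum_log_pr_le (t : ℕ) : ∑ r ∈ pr t, Real.log r ≤ Real.log 4 * t := by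
  have := Chebyshev.theta_le_log4_mul_x (x := (t : ℝ)) (by positivity)
  rw [Chebyshev.theta_eq_sum_primesLE_log] at this
  refine le_trans (le_of_eq ?_) this
  apply Finset.sum_congr _ (fun _ _ => rfl)
  ext r
  rw [mem_pr, Nat.mem_primesLE]
  tauto

theorem sum_log_div_le (t : ℕ) (ht : 1 ≤ t) :
    ∑ r ∈ pr t, Real.log r / r ≤ Real.log t + Real.log 4 := by
  have ht0 : (0 : ℝ) < t := by exact_mod_cast ht
  have h1 : Real.log (t.factorial) = ∑ r ∈ pr t, ((t.factorial).factorization r : ℝ) * Real.log r := by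
    rw [Real.log_nat_eq_sum_factorization, Finsupp.sum]
    apply Finset.sum_subset
    · intro r hr
      rw [Nat.support_factorization] at hr
      rw [mem_pr]
      have hp := Nat.prime_of_mem_primeFactors hr
      exact ⟨hp, (Nat.Prime.dvd_factorial hp).1 (Nat.dvd_of_mem_primeFactors hr)⟩
    · intro r _ hr
      rw [Finsupp.notMem_support_iff] at hr
      rw [hr]; simp
  have h2 : ∑ r ∈ pr t, ((t : ℝ) / r - 1) * Real.log r ≤ Real.log (t.factorial) := by
    rw [h1]
    apply Finset.sum_le_sum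
    intro r hr
    have hp := (mem_pr.1 hr).1
    apply mul_le_mul_of_nonneg_right _ (Real.log_nonneg (by exact_mod_cast hp.one_le))
    have hle : t / r ≤ (t.factorial).factorization r := by
      rw [Nat.factorization_factorial hp (b := Nat.log r t + 2) (by omega)]
      calc t / r = t / r ^ 1 := by rw [pow_one]
        _ ≤ ∑ i ∈ Ico 1 (Nat.log r t + 2), t / r ^ i :=
            Finset.single_le_sum (f := fun i => t / r ^ i) (fun _ _ => Nat.zero_le _)
              (by rw [mem_Ico]; omega)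
    have h3 : (t : ℝ) / r - 1 ≤ ((t / r : ℕ) : ℝ) := by
      have := Nat.lt_div_mul_add (a := t) hp.pos
      have hr0 : (0 : ℝ) < r := by exact_mod_cast hp.pos
      rw [sub_le_iff_le_add, div_le_iff₀ hr0]
      have h5 : (t : ℝ) ≤ (t / r : ℕ) * r + r := by exact_mod_cast this.le
      linarith
    exact h3.trans (by exact_mod_cast hle)
  have h3 : Real.log (t.factorial) ≤ t * Real.log t := by
    have : (t.factorial : ℝ) ≤ (t : ℝ) ^ t := by exact_mod_cast Nat.factorial_le_pow t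
    calc Real.log (t.factorial) ≤ Real.log ((t : ℝ) ^ t) :=
          Real.log_le_log (by exact_mod_cast Nat.factorial_pos t) this
      _ = _ := by rw [Real.log_pow]
  have h4 := sum_log_pr_le t
  have h5 : ∑ r ∈ pr t, ((t : ℝ) / r - 1) * Real.log r =
      t * (∑ r ∈ pr t, Real.log r / r) - ∑ r ∈ pr t, Real.log r := by
    rw [Finset.mul_sum, ← Finset.sum_sub_distrib]
    apply Finset.sum_congr rfl
    intro r _
    ring
  rw [h5] at h2
  have h6 : t * (∑ r ∈ pr t, Real.log r / r) ≤ t * (Real.log t + Real.log 4) := by linarith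
  exact le_of_mul_le_mul_left h6 ht0

theorem exists_sum_log_sq : ∃ C : ℝ, 0 ≤ C ∧ ∀ t : ℕ, ∑ r ∈ pr t, Real.log r / (r : ℝ) ^ 2 ≤ C := by
  have hs : Summable (fun k : ℕ => 2 * (1 / (k : ℝ) ^ (3 / 2 : ℝ))) :=
    ((Real.summable_one_div_nat_rpow (p := 3 / 2)).2 (by norm_num)).mul_left 2
  refine ⟨∑' k : ℕ, 2 * (1 / (k : ℝ) ^ (3 / 2 : ℝ)), tsum_nonneg fun k => by positivity, ?_⟩
  intro t
  calc ∑ r ∈ pr t, Real.log r / (r : ℝ) ^ 2 ≤ ∑ r ∈ pr t, 2 * (1 / (r : ℝ) ^ (3 / 2 : ℝ)) := by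
        apply Finset.sum_le_sum
        intro r hr
        have hp := (mem_pr.1 hr).1
        have hr0 : (0 : ℝ) < r := by exact_mod_cast hp.pos
        have h1 : Real.log r ≤ 2 * (r : ℝ) ^ (1 / 2 : ℝ) := by
          have := Real.log_le_rpow_div hr0.le (show (0 : ℝ) < 1 / 2 by norm_num)
          linarith
        have h2 : (r : ℝ) ^ 2 = (r : ℝ) ^ (1 / 2 : ℝ) * (r : ℝ) ^ (3 / 2 : ℝ) := by
          rw [← Real.rpow_add hr0]
          norm_num
        rw [h2, div_le_iff₀ (by positivity)]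
        have h3 : (0 : ℝ) < (r : ℝ) ^ (3 / 2 : ℝ) := by positivity
        field_simp
        linarith
    _ ≤ _ := hs.sum_le_tsum _ (fun k _ => by positivity)

/-- Mertens-type upper bound. -/
theorem exists_mertens : ∃ C : ℝ, 0 ≤ C ∧ ∀ t : ℕ, 1 ≤ t →
    ∑ r ∈ pr t, Real.log r / ((r : ℝ) - 1) ≤ Real.log t + C := by
  obtain ⟨C, hC0, hC⟩ := exists_sum_log_sq
  refine ⟨Real.log 4 + 2 * C, by have := Real.log_nonneg (show (1 : ℝ) ≤ 4 by norm_num); linarith, ?_⟩
  intro t ht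
  have h1 : ∑ r ∈ pr t, Real.log r / ((r : ℝ) - 1) ≤
      ∑ r ∈ pr t, (Real.log r / r + 2 * (Real.log r / (r : ℝ) ^ 2)) := by
    apply Finset.sum_le_sum
    intro r hr
    have hp := (mem_pr.1 hr).1
    have hr2 : (2 : ℝ) ≤ r := by exact_mod_cast hp.two_le
    have hl : 0 ≤ Real.log r := Real.log_nonneg (by linarith)
    have e : 1 / ((r : ℝ) - 1) ≤ 1 / r + 2 / (r : ℝ) ^ 2 := by
      rw [div_add_div _ _ (by positivity) (by positivity), div_le_div_iff₀ (by linarith) (by positivity)]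
      nlinarith
    calc Real.log r / ((r : ℝ) - 1) = Real.log r * (1 / ((r : ℝ) - 1)) := by ring
      _ ≤ Real.log r * (1 / r + 2 / (r : ℝ) ^ 2) := mul_le_mul_of_nonneg_left e hl
      _ = _ := by ring
  rw [Finset.sum_add_distrib, ← Finset.mul_sum] at h1
  have := sum_log_div_le t ht
  have := hC t
  linarith

/-- Chebyshev upper bound from Brun–Titchmarsh -/
theorem card_pr_le (t : ℕ) (ht : 2 ≤ t) : ((pr t).card : ℝ) ≤ 200 * t / Real.log t := by
  have := brun_titchmarsh 0 t ht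
  rw [zero_add] at this
  exact this

/-- geometric sum bound -/
theorem geom_le (r J : ℕ) (hr : 2 ≤ r) : ∑ i ∈ Ico 1 J, 1 / (r : ℝ) ^ i ≤ 1 / ((r : ℝ) - 1) := by
  have hr' : (2 : ℝ) ≤ r := by exact_mod_cast hr
  have h1 : (0 : ℝ) < (r : ℝ) - 1 := by linarith
  have : ∀ J : ℕ, ∑ i ∈ Ico 1 (J + 1), 1 / (r : ℝ) ^ i = (1 - 1 / (r : ℝ) ^ J) / ((r : ℝ) - 1) := by
    intro J
    induction J with
    | zero => simp
    | succ J ih =>
      rw [Finset.sum_Ico_succ_top (by omega), ih]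
      field_simp
      ring
  rcases Nat.eq_zero_or_pos J with h0 | h0
  · subst h0; simp; linarith
  · obtain ⟨k, rfl⟩ : ∃ k, J = k + 1 := ⟨J - 1, by omega⟩
    rw [this k]
    apply div_le_div_of_nonneg_right _ h1.le
    have : (0 : ℝ) ≤ 1 / (r : ℝ) ^ k := by positivity
    linarith

end Pool.Agent.Helper1.D6
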