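import Mathlib
import Pool.Agent.Helper1.D6.Mertens

set_option autoImplicit false

namespace Pool.Agent.Helper1.D6

open Finset Nat

/-- Mertens lower bound -/
theorem exists_mertens_lower : ∃ C : ℝ, 0 ≤ C ∧ ∀ t : ℕ, 1 ≤ t →
    Real.log t - C ≤ ∑ r ∈ pr t, Real.log r / (r : ℝ) := by
  obtain ⟨C, hC0, hC⟩ := exists_sum_log_sq
  refine ⟨1 + 2 * C, by linarith, ?_⟩
  intro t ht
  have ht0 : (0 : ℝ) < t := by exact_mod_cast ht
  -- log t! ≥ t log t - t
  have h1 : t * Real.log t - t ≤ Real.log (t !) := by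
    have h2 := Real.pow_div_factorial_le_exp (t : ℝ) ht0.le t
    have h3 : Real.log ((t : ℝ) ^ t / (t ! : ℝ)) ≤ t := by
      have := Real.log_le_log (by positivity) h2
      rwa [Real.log_exp] at this
    rw [Real.log_div (by positivity) (by positivity), Real.log_pow] at h3
    linarith
  have h2 : Real.log (t !) ≤ t * ∑ r ∈ pr t, Real.log r / ((r : ℝ) - 1) := by
    rw [Real.log_nat_eq_sum_factorization, Finsupp.sum, Finset.mul_sum]
    calc ∑ r ∈ (t !).factorization.support, ((t !).factorization r : ℝ) * Real.log r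
        ≤ ∑ r ∈ pr t, ((t !).factorization r : ℝ) * Real.log r := by
          apply Finset.sum_le_sum_of_subset_of_nonneg
          · intro r hr
            rw [Nat.support_factorization] at hr
            rw [mem_pr]
            have hp := Nat.prime_of_mem_primeFactors hr
            exact ⟨hp, (Nat.Prime.dvd_factorial hp).1 (Nat.dvd_of_mem_primeFactors hr)⟩
          · intro r hr _
            exact mul_nonneg (by positivity) (Real.log_nonneg (by exact_mod_cast (mem_pr.1 hr).1.one_le))
      _ ≤ _ := by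
          apply Finset.sum_le_sum
          intro r hr
          have hp := (mem_pr.1 hr).1
          have hr2 : (2 : ℝ) ≤ r := by exact_mod_cast hp.two_le
          have hl : 0 ≤ Real.log r := Real.log_nonneg (by linarith)
          have h3 : ((t !).factorization r : ℝ) ≤ (t : ℝ) / ((r : ℝ) - 1) := by
            have e1 := Nat.factorization_factorial_le_div_pred hp t
            have e2 : ((t / (r - 1) : ℕ) : ℝ) ≤ (t : ℝ) / ((r - 1 : ℕ) : ℝ) := Nat.cast_div_le
            have e3 : ((r - 1 : ℕ) : ℝ) = (r : ℝ) - 1 := by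
              rw [Nat.cast_sub hp.one_le]; simp
            rw [e3] at e2
            have e4 : ((t !).factorization r : ℝ) ≤ ((t / (r - 1) : ℕ) : ℝ) := by exact_mod_cast e1
            linarith
          calc ((t !).factorization r : ℝ) * Real.log r ≤ (t : ℝ) / ((r : ℝ) - 1) * Real.log r :=
                mul_le_mul_of_nonneg_right h3 hl
            _ = _ := by ring
  have h3 : ∑ r ∈ pr t, Real.log r / ((r : ℝ) - 1) ≤
      ∑ r ∈ pr t, (Real.log r / r + 2 * (Real.log r / (r : ℝ) ^ 2)) := by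
    apply Finset.sum_le_sum
    intro r hr
    have hp := (mem_pr.1 hr).1
    have hr2 : (2 : ℝ) ≤ r := by exact_mod_cast hp.two_le
    have hl : 0 ≤ Real.log r := Real.log_nonneg (by linarith)
    have e : 1 / ((r : ℝ) - 1) ≤ 1 / r + 2 / (r : ℝ) ^ 2 := by
      rw [div_add_div _ _ (by positivity) (by positivity), div_le_div_iff₀ (by linarith) (by positivity)]
      nlinarith
    calc Real.log r / ((r : ℝ) - 1) = Real.log r * (1 / ((r : ℝ) - 1)) := by ring
      _ ≤ Real.log r * (1 / r + 2 / (r : ℝ) ^ 2) := mul_le_mul_of_nonneg_left e hl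
      _ = _ := by ring
  rw [Finset.sum_add_distrib, ← Finset.mul_sum] at h3
  have h4 := hC t
  have h5 : t * (Real.log t - 1) ≤ t * (∑ r ∈ pr t, Real.log r / (r : ℝ) + 2 * C) := by
    calc t * (Real.log t - 1) = t * Real.log t - t := by ring
      _ ≤ t * ∑ r ∈ pr t, Real.log r / ((r : ℝ) - 1) := h1.trans h2
      _ ≤ _ := by
        apply mul_le_mul_of_nonneg_left _ ht0.le
        linarith
  have := le_of_mul_le_mul_left h5 ht0
  linarith

open Classical in
/-- upper bound for the number of integers with a large prime factor in an interval -/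
theorem cheb_upper : ∃ C : ℝ, 0 ≤ C ∧ ∀ y h T : ℕ, 1 ≤ h → h ≤ T →
    (((Ioc y (y + h)).filter (fun z => ∃ r, r.Prime ∧ T < r ∧ r ∣ z)).card : ℝ) * Real.log T ≤
      h * (Real.log ((y + h : ℕ) : ℝ) - Real.log h + C) := by
  obtain ⟨C, hC0, hC⟩ := exists_mertens_lower
  refine ⟨C + Real.log 4, by have := Real.log_nonneg (show (1 : ℝ) ≤ 4 by norm_num); linarith, ?_⟩
  intro y h T hh hT
  have hh0 : (0 : ℝ) < h := by exact_mod_cast hh
  have hT0 : 0 ≤ Real.log T := Real.log_nonneg (by exact_mod_cast (by omega : 1 ≤ T))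
  have hpt : ∀ z ∈ Ioc y (y + h), ∑ r ∈ pr h, (if r ∣ z then Real.log r else 0) +
      (if (∃ r, r.Prime ∧ T < r ∧ r ∣ z) then Real.log T else 0) ≤ Real.log z := by
    intro z hz
    rw [mem_Ioc] at hz
    have hz0 : 0 < z := by omega
    have e1 : ∑ r ∈ pr h, (if r ∣ z then Real.log r else 0) =
        ∑ r ∈ (pr h).filter (fun r => r ∣ z), Real.log r := by
      rw [Finset.sum_filter]
    rw [e1]
    have e2 : ∀ S : Finset ℕ, (∀ r ∈ S, r.Prime ∧ r ∣ z) → ∑ r ∈ S, Real.log r ≤ Real.log z := by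
      intro S hS
      have h1 : ∏ r ∈ S, r ∣ z := Finset.prod_primes_dvd z (fun r hr => (hS r hr).1.prime) (fun r hr => (hS r hr).2)
      have h2 : ∏ r ∈ S, r ≤ z := Nat.le_of_dvd hz0 h1
      rw [← Real.log_prod (fun r hr => by exact_mod_cast (hS r hr).1.ne_zero)]
      apply Real.log_le_log
      · apply Finset.prod_pos
        intro r hr
        exact_mod_cast (hS r hr).1.pos
      · calc ∏ i ∈ S, (i : ℝ) = ((∏ r ∈ S, r : ℕ) : ℝ) := by push_cast; rfl
          _ ≤ z := by exact_mod_cast h2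
    by_cases hex : ∃ r, r.Prime ∧ T < r ∧ r ∣ z
    · rw [if_pos hex]
      obtain ⟨q, hq1, hq2, hq3⟩ := hex
      have hqn : q ∉ (pr h).filter (fun r => r ∣ z) := by
        intro hmem
        have := (mem_pr.1 (mem_filter.1 hmem).1).2
        omega
      have h3 := e2 (insert q ((pr h).filter (fun r => r ∣ z))) (by
        intro r hr
        rcases mem_insert.1 hr with h | h
        · subst h; exact ⟨hq1, hq3⟩
        · exact ⟨(mem_pr.1 (mem_filter.1 h).1).1, (mem_filter.1 h).2⟩)
      rw [Finset.sum_insert hqn] at h3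
      have h4 : Real.log T ≤ Real.log q := Real.log_le_log (by exact_mod_cast (by omega : 0 < T))
        (by exact_mod_cast hq2.le)
      linarith
    · rw [if_neg hex, add_zero]
      exact e2 _ (fun r hr => ⟨(mem_pr.1 (mem_filter.1 hr).1).1, (mem_filter.1 hr).2⟩)
  have h1 := Finset.sum_le_sum hpt
  rw [Finset.sum_add_distrib, Finset.sum_comm] at h1
  have h2 : ∑ z ∈ Ioc y (y + h), Real.log z ≤ h * Real.log ((y + h : ℕ) : ℝ) := by
    calc ∑ z ∈ Ioc y (y + h), Real.log z ≤ ∑ z ∈ Ioc y (y + h), Real.log ((y + h : ℕ) : ℝ) := by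
          apply Finset.sum_le_sum
          intro z hz
          rw [mem_Ioc] at hz
          exact Real.log_le_log (by exact_mod_cast (by omega : 0 < z)) (by exact_mod_cast hz.2)
      _ = _ := by rw [Finset.sum_const, Nat.card_Ioc, nsmul_eq_mul]; simp
  have h3 : ∑ z ∈ Ioc y (y + h), (if (∃ r, r.Prime ∧ T < r ∧ r ∣ z) then Real.log T else 0) =
      (((Ioc y (y + h)).filter (fun z => ∃ r, r.Prime ∧ T < r ∧ r ∣ z)).card : ℝ) * Real.log T := by
    rw [← Finset.sum_filter, Finset.sum_const, nsmul_eq_mul]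
  have h4 : ∀ r ∈ pr h, ((h : ℝ) / r - 1) * Real.log r ≤
      ∑ z ∈ Ioc y (y + h), (if r ∣ z then Real.log r else 0) := by
    intro r hr
    have hp := (mem_pr.1 hr).1
    have hr0 : (0 : ℝ) < r := by exact_mod_cast hp.pos
    rw [← Finset.sum_filter, Finset.sum_const, nsmul_eq_mul]
    apply mul_le_mul_of_nonneg_right _ (Real.log_nonneg (by exact_mod_cast hp.one_le))
    -- count of multiples
    have e1 : (h / r) ≤ ((Ioc y (y + h)).filter (fun z => r ∣ z)).card := by
      have hsplit : (Ioc 0 (y + h)).filter (fun z => r ∣ z) =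
          (Ioc 0 y).filter (fun z => r ∣ z) ∪ (Ioc y (y + h)).filter (fun z => r ∣ z) := by
        rw [← Finset.filter_union]
        congr 1
        exact (Finset.Ioc_union_Ioc_eq_Ioc (by omega) (by omega)).symm
      have hc := congrArg Finset.card hsplit
      rw [Nat.Ioc_filter_dvd_card_eq_div, Finset.card_union_of_disjoint, Nat.Ioc_filter_dvd_card_eq_div] at hc
      · have := Nat.div_add_div_le_add_div (x := y) (y := h) (z := r)
        omega
      · apply Finset.disjoint_filter_filter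
        rw [Finset.disjoint_left]
        intro z hz hz'
        rw [mem_Ioc] at hz hz'
        omega
    have e2 : (h : ℝ) / r - 1 ≤ ((h / r : ℕ) : ℝ) := by
      have := Nat.lt_div_mul_add (a := h) hp.pos
      rw [sub_le_iff_le_add, div_le_iff₀ hr0]
      have h5 : (h : ℝ) ≤ (h / r : ℕ) * r + r := by exact_mod_cast this.le
      linarith
    exact e2.trans (by exact_mod_cast e1)
  have h5 := Finset.sum_le_sum h4
  have h6 : ∑ r ∈ pr h, ((h : ℝ) / r - 1) * Real.log r =
      h * (∑ r ∈ pr h, Real.log r / (r : ℝ)) - ∑ r ∈ pr h, Real.log r := by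
    rw [Finset.mul_sum, ← Finset.sum_sub_distrib]
    apply Finset.sum_congr rfl
    intro r _
    ring
  have h7 := sum_log_pr_le h
  have h8 : (h : ℝ) * (Real.log h - C) ≤ h * (∑ r ∈ pr h, Real.log r / (r : ℝ)) :=
    mul_le_mul_of_nonneg_left (hC h hh) hh0.le
  rw [h3] at h1
  have e3 : (h : ℝ) * (Real.log ((y + h : ℕ) : ℝ) - Real.log h + (C + Real.log 4)) =
      h * Real.log ((y + h : ℕ) : ℝ) - h * (Real.log h - C) + Real.log 4 * h := by ring
  rw [e3]
  linarith

/-- harmonic sums over a range of integers -/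
theorem harm_Ioc (a b : ℕ) (ha : 1 ≤ a) (hab : a ≤ b) :
    ∑ w ∈ Ioc a b, 1 / (w : ℝ) ≤ Real.log b - Real.log a := by
  induction b, hab using Nat.le_induction with
  | base => simp
  | succ k hk ih =>
    rw [← Finset.insert_Ioc_right_eq_Ioc_add_one (by omega), Finset.sum_insert (by simp)]
    have hk0 : (0 : ℝ) < k := by exact_mod_cast (by omega : 0 < k)
    have h1 : Real.log ((k : ℝ) / (k + 1)) ≤ (k : ℝ) / (k + 1) - 1 :=
      Real.log_le_sub_one_of_pos (by positivity)
    rw [Real.log_div hk0.ne' (by positivity)] at h1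
    have h2 : (k : ℝ) / (k + 1) - 1 = -(1 / ((k : ℝ) + 1)) := by field_simp; ring
    push_cast
    rw [h2] at h1
    linarith

theorem harm_le (A A' : ℝ) (hA : 1 ≤ A) (hAA : A ≤ A') (B : Finset ℕ)
    (hB : ∀ w ∈ B, A ≤ (w : ℝ) ∧ (w : ℝ) ≤ A') :
    ∑ w ∈ B, 1 / (w : ℝ) ≤ 1 + Real.log A' - Real.log A := by
  have hA0 : 0 < A := by linarith
  have hlog : Real.log A ≤ Real.log A' := Real.log_le_log hA0 hAA
  rcases B.eq_empty_or_nonempty with h | hne
  · subst h; simp; linarith
  · set N0 := ⌈A⌉₊ with hN0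
    set N1 := ⌊A'⌋₊ with hN1
    have hN0A : A ≤ N0 := Nat.le_ceil A
    have hN1A : (N1 : ℝ) ≤ A' := Nat.floor_le (by linarith)
    have hN01 : 1 ≤ N0 := by
      have : (1 : ℝ) ≤ N0 := by linarith
      exact_mod_cast this
    have hsub : B ⊆ Icc N0 N1 := by
      intro w hw
      rw [mem_Icc]
      exact ⟨Nat.ceil_le.2 (hB w hw).1, Nat.le_floor (hB w hw).2⟩
    have hle : N0 ≤ N1 := by
      obtain ⟨w, hw⟩ := hne
      have := mem_Icc.1 (hsub hw)
      omega
    have h1 : ∑ w ∈ B, 1 / (w : ℝ) ≤ ∑ w ∈ Icc N0 N1, 1 / (w : ℝ) :=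
      Finset.sum_le_sum_of_subset_of_nonneg hsub fun w _ _ => by positivity
    have h2 : ∑ w ∈ Icc N0 N1, 1 / (w : ℝ) = 1 / (N0 : ℝ) + ∑ w ∈ Ioc N0 N1, 1 / (w : ℝ) := by
      rw [← Finset.Ioc_insert_left hle, Finset.sum_insert (by simp)]
    have h3 := harm_Ioc N0 N1 hN01 hle
    have h4 : 1 / (N0 : ℝ) ≤ 1 := by
      rw [div_le_one (by exact_mod_cast hN01)]
      exact_mod_cast hN01
    have h5 : Real.log N1 ≤ Real.log A' := Real.log_le_log (by exact_mod_cast (by omega : 0 < N1)) hN1A
    have h6 : Real.log A ≤ Real.log N0 := Real.log_le_log hA0 hN0A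
    linarith

end Pool.Agent.Helper1.D6
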