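import Mathlib
import Pool.Agent.Helper1.D6.Upper

set_option autoImplicit false

namespace Pool.Agent.Helper1.D6

open Finset Nat

theorem harm_Icc (N : ℕ) (hN : 1 ≤ N) : ∑ w ∈ Icc 1 N, 1 / (w : ℝ) ≤ 1 + Real.log N := by
  have := harm_le 1 N le_rfl (by exact_mod_cast hN) (Icc 1 N) (by
    intro w hw
    rw [mem_Icc] at hw
    exact ⟨by exact_mod_cast hw.1, by exact_mod_cast hw.2⟩)
  simpa using this

/-- one-sided residue class count -/
theorem ap_sum_one (d D : ℕ) (hd : 1 ≤ d) (hdD : d ≤ D) (v1 : ℤ) (hco : IsCoprime v1 (d : ℤ))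
    (ε : ℤ) (κ : ℝ) (hκ : 0 ≤ κ) (hκD : κ * D ≤ 1) (B : Finset ℕ)
    (hB : ∀ w ∈ B, 1 ≤ w ∧ w ≤ D ∧ ∃ v : ℤ, ∃ k : ℕ, 1 ≤ k ∧ ε * k = v * d - v1 * w ∧
      (k : ℝ) ≤ κ * d * w) :
    ∑ w ∈ B, 1 / (w : ℝ) ≤ 2 * κ * D * (1 + Real.log D) := by
  classical
  have hD1 : 1 ≤ D := by omega
  have hDr : (1 : ℝ) ≤ D := by exact_mod_cast hD1
  have hdr : (1 : ℝ) ≤ d := by exact_mod_cast hd
  have hdDr : (d : ℝ) ≤ D := by exact_mod_cast hdD
  have hlogD : 0 ≤ Real.log D := Real.log_nonneg hDr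
  have hB1 : ∀ w ∈ B, 1 ≤ w := fun w hw => (hB w hw).1
  have hB2 : ∀ w ∈ B, w ≤ D := fun w hw => (hB w hw).2.1
  have hch : ∀ w ∈ B, ∃ k : ℕ, ∃ v : ℤ, 1 ≤ k ∧ ε * k = v * d - v1 * w ∧ (k : ℝ) ≤ κ * d * w := by
    intro w hw
    obtain ⟨v, k, h⟩ := (hB w hw).2.2
    exact ⟨k, v, h⟩
  choose! k v hk1 hk2 hk3 using hch
  set N := ⌊κ * d * D⌋₊ with hN
  have hNle : (N : ℝ) ≤ κ * d * D := Nat.floor_le (by positivity)
  have hkN : ∀ w ∈ B, k w ≤ N := by
    intro w hw
    apply Nat.le_floor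
    have h1 := hk3 w hw
    have h2 : (w : ℝ) ≤ D := by exact_mod_cast hB2 w hw
    have : κ * d * w ≤ κ * d * D := by gcongr
    linarith
  set F : ℕ × ℕ → ℝ := fun p => if p.2 = 0 then κ * d / p.1 else 1 / ((p.2 : ℝ) * d) with hF
  have hFnn : ∀ p, 0 ≤ F p := by
    intro p
    rw [hF]
    simp only
    split_ifs <;> positivity
  have hinj : Set.InjOn (fun w => (k w, w / d)) (B : Set ℕ) := by
    intro w hw w' hw' h
    have hw1 : w ∈ B := hw
    have hw2 : w' ∈ B := hw'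
    simp only [Prod.mk.injEq] at h
    have e1 := hk2 w hw1
    have e2 := hk2 w' hw2
    rw [← h.1] at e2
    have e3 : v1 * ((w : ℤ) - w') = (v w - v w') * d := by
      have : v w * d - v1 * w = v w' * d - v1 * w' := by rw [← e1, ← e2]
      linear_combination -this
    have e4 : (d : ℤ) ∣ v1 * ((w : ℤ) - w') := ⟨v w - v w', by rw [e3]; ring⟩
    have e5 : (d : ℤ) ∣ ((w : ℤ) - w') := hco.symm.dvd_of_dvd_mul_left e4
    have h2 := h.2
    have a1 := Nat.div_add_mod w d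
    have a2 := Nat.div_add_mod w' d
    have e6 : w ≡ w' [MOD d] := by
      rw [Nat.modEq_iff_dvd]
      have := e5.neg_right
      simpa using this
    have e7 : w % d = w' % d := e6
    rw [← a1, ← a2, h2, e7]
  have h1 : ∑ w ∈ B, 1 / (w : ℝ) ≤ ∑ w ∈ B, F (k w, w / d) := by
    apply Finset.sum_le_sum
    intro w hw
    have hw0 : (0 : ℝ) < w := by exact_mod_cast hB1 w hw
    have hk0 : (0 : ℝ) < k w := by exact_mod_cast hk1 w hw
    rw [hF]
    simp only
    split_ifs with h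
    · rw [div_le_div_iff₀ hw0 hk0, one_mul]
      exact hk3 w hw
    · have h0 : 0 < w / d := Nat.pos_of_ne_zero h
      have h0r : (0 : ℝ) < ((w / d : ℕ) : ℝ) := by exact_mod_cast h0
      apply one_div_le_one_div_of_le (by positivity)
      exact_mod_cast Nat.div_mul_le_self w d
  have h2 : ∑ w ∈ B, F (k w, w / d) ≤ ∑ p ∈ Icc 1 N ×ˢ Icc 0 (D / d), F p := by
    rw [← Finset.sum_image (f := F) (g := fun w => (k w, w / d)) hinj]
    apply Finset.sum_le_sum_of_subset_of_nonneg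
    · intro p hp
      obtain ⟨w, hw, rfl⟩ := mem_image.1 hp
      rw [mem_product, mem_Icc, mem_Icc]
      exact ⟨⟨hk1 w hw, hkN w hw⟩, Nat.zero_le _, Nat.div_le_div_right (hB2 w hw)⟩
    · intro p _ _; exact hFnn p
  rcases Nat.eq_zero_or_pos N with hN0 | hNpos
  · -- no solutions
    have : B = ∅ := by
      rw [Finset.eq_empty_iff_forall_notMem]
      intro w hw
      have := hkN w hw
      have := hk1 w hw
      omega
    rw [this]
    simp
    positivity
  · have h3 : ∑ p ∈ Icc 1 N ×ˢ Icc 0 (D / d), F p ≤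
        κ * d * (1 + Real.log N) + N * (1 / d * (1 + Real.log D)) := by
      rw [Finset.sum_product]
      have h4 : ∀ s ∈ Icc 1 N, ∑ j ∈ Icc 0 (D / d), F (s, j) ≤
          κ * d * (1 / (s : ℝ)) + 1 / d * (1 + Real.log D) := by
        intro s hs
        rw [← Finset.Ioc_insert_left (Nat.zero_le _), Finset.sum_insert (by simp)]
        have e1 : F (s, 0) = κ * d * (1 / (s : ℝ)) := by rw [hF]; simp; ring
        have e2 : ∑ j ∈ Ioc 0 (D / d), F (s, j) = 1 / d * ∑ j ∈ Icc 1 (D / d), 1 / (j : ℝ) := by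
          rw [Finset.mul_sum]
          apply Finset.sum_congr rfl
          intro j hj
          have hj' := mem_Icc.1 hj
          rw [hF]
          simp only
          rw [if_neg (by omega)]
          field_simp
        have hDd : 1 ≤ D / d := (Nat.one_le_div_iff (by omega)).2 hdD
        have e3 := harm_Icc (D / d) hDd
        have e4 : Real.log ((D / d : ℕ) : ℝ) ≤ Real.log D := by
          apply Real.log_le_log (by exact_mod_cast hDd)
          exact_mod_cast Nat.div_le_self D d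
        rw [e1, e2]
        have e5 : 1 / (d : ℝ) * ∑ j ∈ Icc 1 (D / d), 1 / (j : ℝ) ≤ 1 / d * (1 + Real.log D) := by
          apply mul_le_mul_of_nonneg_left _ (by positivity)
          linarith
        linarith
      calc ∑ s ∈ Icc 1 N, ∑ j ∈ Icc 0 (D / d), F (s, j)
          ≤ ∑ s ∈ Icc 1 N, (κ * d * (1 / (s : ℝ)) + 1 / d * (1 + Real.log D)) := Finset.sum_le_sum h4
        _ = κ * d * (∑ s ∈ Icc 1 N, 1 / (s : ℝ)) + N * (1 / d * (1 + Real.log D)) := by
            rw [Finset.sum_add_distrib, ← Finset.mul_sum]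
            simp
        _ ≤ _ := by
            have := harm_Icc N hNpos
            gcongr
    have h5 : (N : ℝ) ≤ D := by
      calc (N : ℝ) ≤ κ * d * D := hNle
        _ = (κ * D) * d := by ring
        _ ≤ 1 * d := by gcongr
        _ ≤ D := by linarith
    have h6 : Real.log N ≤ Real.log D := Real.log_le_log (by exact_mod_cast hNpos) h5
    have h7 : κ * d * (1 + Real.log N) ≤ κ * D * (1 + Real.log D) := by
      have : 0 ≤ Real.log N := Real.log_nonneg (by exact_mod_cast hNpos)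
      gcongr
    have h8 : (N : ℝ) * (1 / d * (1 + Real.log D)) ≤ κ * D * (1 + Real.log D) := by
      calc (N : ℝ) * (1 / d * (1 + Real.log D)) ≤ (κ * d * D) * (1 / d * (1 + Real.log D)) := by gcongr
        _ = _ := by field_simp
    linarith

/-- two-sided version -/
theorem ap_sum (d D : ℕ) (hd : 1 ≤ d) (hdD : d ≤ D) (v1 : ℤ) (hco : IsCoprime v1 (d : ℤ))
    (κ : ℝ) (hκ : 0 ≤ κ) (hκD : κ * D ≤ 1) (B : Finset ℕ)
    (hB : ∀ w ∈ B, 1 ≤ w ∧ w ≤ D ∧ ¬ d ∣ w ∧ ∃ v : ℤ, |((v * d - v1 * w : ℤ) : ℝ)| ≤ κ * d * w) :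
    ∑ w ∈ B, 1 / (w : ℝ) ≤ 4 * κ * D * (1 + Real.log D) := by
  classical
  set P : ℕ → Prop := fun w => ∃ v : ℤ, ∃ k : ℕ, 1 ≤ k ∧ (1 : ℤ) * k = v * d - v1 * w ∧
      (k : ℝ) ≤ κ * d * w with hP
  have h1 := ap_sum_one d D hd hdD v1 hco 1 κ hκ hκD (B.filter P) (by
    intro w hw
    obtain ⟨hw1, hw2⟩ := mem_filter.1 hw
    exact ⟨(hB w hw1).1, (hB w hw1).2.1, hw2⟩)
  have h2 := ap_sum_one d D hd hdD v1 hco (-1) κ hκ hκD (B.filter (fun w => ¬ P w)) (by
    intro w hw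
    obtain ⟨hw1, hw2⟩ := mem_filter.1 hw
    obtain ⟨a1, a2, a3, v, hv⟩ := hB w hw1
    refine ⟨a1, a2, v, (v * d - v1 * w).natAbs, ?_⟩
    have hne : v * d - v1 * w ≠ 0 := by
      intro h0
      apply a3
      have e4 : (d : ℤ) ∣ v1 * w := ⟨v, by linear_combination -h0⟩
      have e5 : (d : ℤ) ∣ (w : ℤ) := hco.symm.dvd_of_dvd_mul_left e4
      exact_mod_cast e5
    have habs : (((v * d - v1 * w).natAbs : ℕ) : ℝ) = |((v * d - v1 * w : ℤ) : ℝ)| := by
      rw [← Int.cast_abs, ← Int.natCast_natAbs]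
      simp
    rcases lt_or_gt_of_ne hne with hneg | hpos
    · refine ⟨by omega, by omega, ?_⟩
      rw [habs]; exact hv
    · exfalso
      apply hw2
      refine ⟨v, (v * d - v1 * w).natAbs, by omega, by omega, ?_⟩
      rw [habs]; exact hv)
  have h3 := Finset.sum_filter_add_sum_filter_not B P (fun w => 1 / (w : ℝ))
  rw [← h3]
  linarith

end Pool.Agent.Helper1.D6
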