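import Mathlib

set_option autoImplicit false

namespace Pool.Agent.Helper1.D6

open Filter

theorem ev_log (C : ℝ) : ∀ᶠ n : ℕ in atTop, C ≤ Real.log n :=
  (Real.tendsto_log_atTop.comp tendsto_natCast_atTop_atTop).eventually_ge_atTop C

theorem ev_pow (C : ℝ) (k : ℕ) (ε : ℝ) (hε : 0 < ε) :
    ∀ᶠ n : ℕ in atTop, C * (Real.log n) ^ k ≤ (n : ℝ) ^ ε := by
  have h1 : (fun x : ℝ => C * Real.log x ^ (k : ℝ)) =o[atTop] fun x : ℝ => x ^ ε :=
    (isLittleO_log_rpow_rpow_atTop (k : ℝ) hε).const_mul_left C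
  have h2 := (h1.bound (show (0 : ℝ) < 1 by norm_num))
  have h3 := tendsto_natCast_atTop_atTop.eventually h2
  filter_upwards [h3, eventually_ge_atTop 1] with n hn hn1
  have hn0 : (0 : ℝ) ≤ (n : ℝ) ^ ε := by positivity
  rw [one_mul, Real.norm_of_nonneg hn0, Real.rpow_natCast] at hn
  exact (le_abs_self _).trans hn

theorem ev_const (C : ℝ) (ε : ℝ) (hε : 0 < ε) : ∀ᶠ n : ℕ in atTop, C ≤ (n : ℝ) ^ ε := by
  have := ev_pow C 0 ε hε
  simpa using this

end Pool.Agent.Helper1.D6
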