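import Mathlib
import Pool.Prelude.Def_F_1b46b985

set_option autoImplicit false

namespace Pool.Agent.Helper1.D6

open Finset Nat

/-- A configuration: `m! l! x! b! a!` is a square, `a ≤ b ≤ x ≤ l < m` (zeros allowed for missing
terms). -/
def Cfg (m l x b a : ℕ) : Prop :=
  a ≤ b ∧ b ≤ x ∧ x ≤ l ∧ l < m ∧ IsSquare (m ! * l ! * x ! * b ! * a !)

/-- extract the maximum of a set -/
theorem extract (t : Finset ℕ) (M : ℕ) (k : ℕ) (hk : t.card ≤ k + 1) (hM : ∀ i ∈ t, i < M) (hM1 : 0 < M)
    (hp : ∀ i ∈ t, 0 < i) :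
    ∃ l < M, ∃ t' : Finset ℕ, t'.card ≤ k ∧ (∀ i ∈ t', i < l) ∧ (∀ i ∈ t', 0 < i) ∧
      ∏ i ∈ t, i ! = l ! * ∏ i ∈ t', i ! := by
  classical
  rcases t.eq_empty_or_nonempty with h | h
  · subst h
    exact ⟨0, hM1, ∅, by simp, by simp, by simp, by simp⟩
  · refine ⟨t.max' h, hM _ (max'_mem _ _), t.erase (t.max' h), ?_, ?_, ?_, ?_⟩
    · rw [card_erase_of_mem (max'_mem _ _)]; omega
    · intro i hi
      exact lt_of_le_of_ne (le_max' _ _ (mem_of_mem_erase hi)) (ne_of_mem_erase hi)
    · intro i hi; exact hp i (mem_of_mem_erase hi)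
    · rw [Finset.mul_prod_erase t (fun i => i !) (max'_mem _ _)]

theorem extract0 (t : Finset ℕ) (M : ℕ) (k : ℕ) (hk : t.card ≤ k + 1) (hM : ∀ i ∈ t, i < M)
    (hp : ∀ i ∈ t, 0 < i) :
    ∃ l ≤ M, ∃ t' : Finset ℕ, t'.card ≤ k ∧ (∀ i ∈ t', i < l) ∧ (∀ i ∈ t', 0 < i) ∧
      ∏ i ∈ t, i ! = l ! * ∏ i ∈ t', i ! := by
  rcases Nat.eq_zero_or_pos M with h | h
  · have : t = ∅ := by
      rw [Finset.eq_empty_iff_forall_notMem]
      intro i hi
      have := hM i hi
      omega
    subst this
    exact ⟨0, by omega, ∅, by simp, by simp, by simp, by simp⟩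
  · obtain ⟨l, h1, h2⟩ := extract t M k hk hM h hp
    exact ⟨l, h1.le, h2⟩

theorem cfg_of_rep (m j : ℕ) (hj : j ≤ 5) (h : N140ae710.HasRepresentation m j) :
    ∃ l x b a, Cfg m l x b a := by
  classical
  obtain ⟨s, hs, hm, hsm, hsq⟩ := h
  have hm0 : 0 < m := (hsm m hm).1
  have e0 : ∏ i ∈ s, i ! = m ! * ∏ i ∈ s.erase m, i ! :=
    (Finset.mul_prod_erase s (fun i => i !) hm).symm
  have hc : (s.erase m).card ≤ 3 + 1 := by rw [card_erase_of_mem hm]; omega
  obtain ⟨l, hl, t1, c1, b1, p1, e1⟩ := extract (s.erase m) m 3 hc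
    (fun i hi => lt_of_le_of_ne (hsm i (mem_of_mem_erase hi)).2 (ne_of_mem_erase hi)) hm0
    (fun i hi => (hsm i (mem_of_mem_erase hi)).1)
  obtain ⟨x, hx, t2, c2, b2, p2, e2⟩ := extract0 t1 l 2 c1 b1 p1
  obtain ⟨b, hb, t3, c3, b3, p3, e3⟩ := extract0 t2 x 1 c2 b2 p2
  obtain ⟨a, ha, t4, c4, b4, p4, e4⟩ := extract0 t3 b 0 c3 b3 p3
  have ht4 : t4 = ∅ := by rw [← Finset.card_eq_zero]; omega
  refine ⟨l, x, b, a, ha, hb, hx, hl, ?_⟩
  have : ∏ i ∈ s, i ! = m ! * l ! * x ! * b ! * a ! := by
    rw [e0, e1, e2, e3, e4, ht4, prod_empty]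
    ring
  rw [← this]
  exact hsq

theorem factorial_eq_mul_prod (s t : ℕ) (h : s ≤ t) : t ! = s ! * ∏ z ∈ Ioc s t, z := by
  induction t, h using Nat.le_induction with
  | base => simp
  | succ t ht ih =>
    rw [Nat.factorial_succ, ih, ← Finset.insert_Ioc_right_eq_Ioc_add_one (by omega), Finset.prod_insert]
    · ring
    · simp

/-- total exponent of `r` in an interval -/
def V (r s t : ℕ) : ℕ := ∑ z ∈ Ioc s t, z.factorization r

theorem factorization_factorial_eq (r s t : ℕ) (h : s ≤ t) :
    (t !).factorization r = (s !).factorization r + V r s t := by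
  rw [factorial_eq_mul_prod s t h, Nat.factorization_mul (Nat.factorial_ne_zero _)]
  · rw [Finsupp.add_apply, Nat.factorization_prod_apply]
    · rfl
    · intro z hz
      have := (mem_Ioc.1 hz).1
      omega
  · rw [Finset.prod_ne_zero_iff]
    intro z hz
    have := (mem_Ioc.1 hz).1
    omega

theorem even_factorization_of_isSquare {n : ℕ} (h : IsSquare n) (r : ℕ) : Even (n.factorization r) := by
  obtain ⟨k, rfl⟩ := h
  rcases Nat.eq_zero_or_pos k with h | h
  · subst h; simp
  · rw [Nat.factorization_mul h.ne' h.ne', Finsupp.add_apply]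
    exact ⟨_, rfl⟩

theorem parity_fact {m l x b a : ℕ} (h : Cfg m l x b a) (r : ℕ) :
    Even ((m !).factorization r + (l !).factorization r + (x !).factorization r +
      (b !).factorization r + (a !).factorization r) := by
  obtain ⟨_, _, _, _, hsq⟩ := h
  have := even_factorization_of_isSquare hsq r
  rw [Nat.factorization_mul (by positivity) (by positivity),
    Nat.factorization_mul (by positivity) (by positivity),
    Nat.factorization_mul (by positivity) (by positivity),
    Nat.factorization_mul (by positivity) (by positivity)] at this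
  simpa using this

/-- Parity in interval form. -/
theorem parity_val {m l x b a : ℕ} (h : Cfg m l x b a) (r : ℕ) :
    Even (V r l m + V r b x + (a !).factorization r) := by
  have h1 := parity_fact h r
  obtain ⟨h2, h3, h4, h5, _⟩ := h
  rw [factorization_factorial_eq r l m h5.le, factorization_factorial_eq r b x h3] at h1
  rw [Nat.even_iff] at h1 ⊢
  omega

/-- The weak form of a configuration: only the parities. -/
def WCfg (m l x b a : ℕ) : Prop :=
  a ≤ b ∧ b ≤ x ∧ x ≤ l ∧ l < m ∧
    ∀ r : ℕ, r.Prime → Even (V r l m + V r b x + (a !).factorization r)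

theorem Cfg.weak {m l x b a : ℕ} (h : Cfg m l x b a) : WCfg m l x b a :=
  ⟨h.1, h.2.1, h.2.2.1, h.2.2.2.1, fun r _ => parity_val h r⟩

theorem prime_of_odd_factorization {r z : ℕ} (h : Odd (z.factorization r)) : r.Prime := by
  by_contra hr
  rw [Nat.factorization_eq_zero_of_not_prime _ hr] at h
  exact absurd h (by decide)

theorem fact_factorization_div (r N : ℕ) (hr : r.Prime) (hN : N < r ^ 2) :
    (N !).factorization r = N / r := by
  rw [Nat.factorization_factorial hr (b := 2) (Nat.log_lt_of_lt_pow' (by norm_num) hN)]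
  simp

/-- Parity in floor form, for large primes. -/
theorem parity_div {m l x b a : ℕ} (h : Cfg m l x b a) (r : ℕ) (hr : r.Prime) (hm : m < r ^ 2) :
    Even (m / r + l / r + x / r + b / r + a / r) := by
  have h1 := parity_fact h r
  obtain ⟨h2, h3, h4, h5, _⟩ := h
  rw [fact_factorization_div r m hr hm, fact_factorization_div r l hr (by omega),
    fact_factorization_div r x hr (by omega), fact_factorization_div r b hr (by omega),
    fact_factorization_div r a hr (by omega)] at h1
  exact h1

theorem V_eq_zero {r s t : ℕ} (h : ∀ z ∈ Ioc s t, ¬ r ∣ z) : V r s t = 0 := by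
  apply Finset.sum_eq_zero
  intro z hz
  exact Nat.factorization_eq_zero_of_not_dvd (h z hz)

theorem V_eq_single {r s t : ℕ} (z0 : ℕ) (hz0 : z0 ∈ Ioc s t) (h : ∀ z ∈ Ioc s t, r ∣ z → z = z0) :
    V r s t = z0.factorization r := by
  unfold V
  apply Finset.sum_eq_single_of_mem z0 hz0
  intro z hz hne
  apply Nat.factorization_eq_zero_of_not_dvd
  intro hd
  exact hne (h z hz hd)

theorem fact_factorization_zero {r a : ℕ} (h : a < r) : (a !).factorization r = 0 :=
  Nat.factorization_factorial_eq_zero_of_lt h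

/-- a prime `r > a` dividing exactly one element of the two intervals, to an odd power, is
impossible. -/
theorem unmatched {m l x b a : ℕ} (h : WCfg m l x b a) (r : ℕ) (ha : a < r)
    (z0 : ℕ) (hz0 : z0 ∈ Ioc l m ∨ z0 ∈ Ioc b x) (hodd : Odd (z0.factorization r))
    (h1 : ∀ z ∈ Ioc l m, r ∣ z → z = z0) (h2 : ∀ z ∈ Ioc b x, r ∣ z → z = z0) : False := by
  have hp := h.2.2.2.2 r (prime_of_odd_factorization hodd)
  rw [fact_factorization_zero ha, add_zero] at hp
  obtain ⟨h3, h4, h5, h6, _⟩ := h
  rcases hz0 with hz | hz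
  · rw [V_eq_single z0 hz h1, V_eq_zero (r := r) (s := b) (t := x)] at hp
    · rw [add_zero] at hp
      exact (Nat.not_even_iff_odd.2 hodd) hp
    · intro z hz' hd
      have := h2 z hz' hd
      rw [mem_Ioc] at hz hz'
      omega
  · rw [V_eq_single z0 hz h2, V_eq_zero (r := r) (s := l) (t := m)] at hp
    · rw [zero_add] at hp
      exact (Nat.not_even_iff_odd.2 hodd) hp
    · intro z hz' hd
      have := h1 z hz' hd
      rw [mem_Ioc] at hz hz'
      omega

/-- two multiples of `r` in an interval of length less than `r` are equal -/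
theorem mult_unique {r s t z z' : ℕ} (hst : t < s + r) (hz : z ∈ Ioc s t) (hz' : z' ∈ Ioc s t)
    (h : r ∣ z) (h' : r ∣ z') : z = z' := by
  rw [mem_Ioc] at hz hz'
  obtain ⟨k, rfl⟩ := h
  obtain ⟨k', rfl⟩ := h'
  rcases lt_trichotomy k k' with hk | hk | hk
  · have : r * k + r ≤ r * k' := by
      calc r * k + r = r * (k + 1) := by ring
        _ ≤ r * k' := Nat.mul_le_mul_left _ hk
    omega
  · rw [hk]
  · have : r * k' + r ≤ r * k := by
      calc r * k' + r = r * (k' + 1) := by ring
        _ ≤ r * k := Nat.mul_le_mul_left _ hk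
    omega

/-- If `r` is a prime larger than `a` and than the lengths of both intervals, dividing `y` in the
top interval exactly once, then `r` divides an element of the second interval. -/
theorem matched {m l x b a : ℕ} (h : WCfg m l x b a) (r : ℕ) (ha : a < r) (hL : m < l + r)
    (y : ℕ) (hy : y ∈ Ioc l m) (hodd : Odd (y.factorization r)) :
    ∃ z ∈ Ioc b x, r ∣ z := by
  by_contra hcon
  push Not at hcon
  have hry : r ∣ y := by
    apply Nat.dvd_of_factorization_pos
    intro h0
    rw [h0] at hodd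
    exact absurd hodd (by decide)
  exact unmatched h r ha y (Or.inl hy) hodd (fun z hz hd => mult_unique hL hz hy hd hry)
    (fun z hz hd => absurd hd (hcon z hz))

/-- symmetric version -/
theorem matched' {m l x b a : ℕ} (h : WCfg m l x b a) (r : ℕ) (ha : a < r) (hK : x < b + r)
    (y : ℕ) (hy : y ∈ Ioc b x) (hodd : Odd (y.factorization r)) :
    ∃ z ∈ Ioc l m, r ∣ z := by
  by_contra hcon
  push Not at hcon
  have hry : r ∣ y := by
    apply Nat.dvd_of_factorization_pos
    intro h0
    rw [h0] at hodd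
    exact absurd hodd (by decide)
  exact unmatched h r ha y (Or.inr hy) hodd (fun z hz hd => absurd hd (hcon z hz))
    (fun z hz hd => mult_unique hK hz hy hd hry)

/-- prime exactly dividing: exponent one if `r ^ 2` exceeds the number -/
theorem factorization_eq_one {r z : ℕ} (hr : r.Prime) (hz : 0 < z) (hd : r ∣ z) (h : z < r ^ 2) :
    z.factorization r = 1 := by
  have h1 : 1 ≤ z.factorization r := (hr.dvd_iff_one_le_factorization hz.ne').1 hd
  have h2 : z.factorization r < 2 := by
    by_contra hcon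
    push Not at hcon
    have : r ^ 2 ∣ z := (hr.pow_dvd_iff_le_factorization hz.ne').2 hcon
    have := Nat.le_of_dvd hz this
    omega
  omega

end Pool.Agent.Helper1.D6
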