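import Mathlib
import Pool.Agent.Helper1.D6.Cfg
import Pool.Agent.Helper1.D6.Mertens

set_option autoImplicit false

namespace Pool.Agent.Helper1.D6

open Finset Nat

/-- primes in `((1 - η) x, x]` (consequence of the prime number theorem, kept as a hypothesis) -/
def PL : Prop := ∀ η : ℝ, 0 < η → η ≤ 1 / 2 → ∃ X : ℕ, ∀ x : ℕ, X ≤ x →
  η / 2 * x / Real.log x ≤ (((pr x).filter (fun r : ℕ => (1 - η) * x < (r : ℝ))).card : ℝ)

/-- distinct large primes divide distinct numbers -/
theorem card_le_of_large_primes (n : ℕ) (R Z : Finset ℕ)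
    (hR : ∀ r ∈ R, r.Prime ∧ n < r ^ 2 ∧ ∃ z ∈ Z, r ∣ z) (hZ : ∀ z ∈ Z, 0 < z ∧ z ≤ n) :
    R.card ≤ Z.card := by
  classical
  have hch : ∀ r ∈ R, ∃ z ∈ Z, r ∣ z := fun r hr => (hR r hr).2.2
  choose! f hf1 hf2 using hch
  apply Finset.card_le_card_of_injOn f
  · intro r hr
    exact hf1 r hr
  · intro r hr r' hr' h
    by_contra hne
    have hr1 : r ∈ R := hr
    have hr1' : r' ∈ R := hr'
    have h1 := hR r hr1
    have h2 := hR r' hr1'
    have hd1 := hf2 r hr1
    have hd2 := hf2 r' hr1'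
    rw [← h] at hd2
    have hco : Nat.Coprime r r' := (Nat.coprime_primes h1.1 h2.1).2 hne
    have hd : r * r' ∣ f r := hco.mul_dvd_of_dvd_of_dvd hd1 hd2
    have hz := hZ (f r) (hf1 r hr1)
    have hle := Nat.le_of_dvd hz.1 hd
    have : n < r * r' := by
      by_contra hcon
      push Not at hcon
      have h3 : (r * r') * (r * r') ≤ n * n := Nat.mul_le_mul hcon hcon
      have h4 : n * n < r ^ 2 * r' ^ 2 := Nat.mul_lt_mul'' h1.2.1 h2.2.1
      nlinarith
    omega

theorem card_primes_dvd_le (z : ℕ) (hz : 0 < z) (T : Finset ℕ) (hT : ∀ r ∈ T, r.Prime ∧ r ∣ z)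
    (t : ℝ) (ht : 1 ≤ t) (hTt : ∀ r ∈ T, t ≤ (r : ℝ)) : (T.card : ℝ) * Real.log t ≤ Real.log z := by
  have h1 : ∏ r ∈ T, r ∣ z := Finset.prod_primes_dvd z (fun r hr => (hT r hr).1.prime) (fun r hr => (hT r hr).2)
  have h2 : ∏ r ∈ T, r ≤ z := Nat.le_of_dvd hz h1
  have h3 : t ^ T.card ≤ (z : ℝ) := by
    calc t ^ T.card = ∏ r ∈ T, t := by simp
      _ ≤ ∏ r ∈ T, (r : ℝ) := Finset.prod_le_prod (fun r _ => by linarith) hTt
      _ = ((∏ r ∈ T, r : ℕ) : ℝ) := by push_cast; rfl
      _ ≤ z := by exact_mod_cast h2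
  calc (T.card : ℝ) * Real.log t = Real.log (t ^ T.card) := by rw [Real.log_pow]
    _ ≤ Real.log z := Real.log_le_log (by positivity) h3

/-- exponent of a prime in `(a/2, a]` in `a!` -/
theorem fact_factorization_one {r a : ℕ} (hr : r.Prime) (h1 : r ≤ a) (h2 : a < 2 * r) :
    (a !).factorization r = 1 := by
  rw [fact_factorization_div r a hr (by have := hr.two_le; nlinarith)]
  apply Nat.div_eq_of_lt_le <;> omega

/-- The first entry is small compared with the lengths of the intervals. -/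
theorem a_bound (hPL : PL) : ∃ C : ℝ, 1 ≤ C ∧ ∀ n : ℕ, 3 ≤ n → ∀ m l x b a : ℕ, WCfg m l x b a →
    m ≤ n → (a : ℝ) ≤ C * (((x - b : ℕ) : ℝ) + ((m - l : ℕ) : ℝ)) * Real.log n := by
  classical
  obtain ⟨X, hX⟩ := hPL (1 / 2) (by norm_num) (by norm_num)
  refine ⟨X + 16, by have : (0 : ℝ) ≤ X := by positivity
                     linarith, ?_⟩
  intro n hn m l x b a hc hmn
  have hlogn : 1 ≤ Real.log n := by
    have h3 : Real.exp 1 ≤ n := by
      have := Real.exp_one_lt_d9
      have : (3 : ℝ) ≤ n := by exact_mod_cast hn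
      linarith
    rw [Real.le_log_iff_exp_le (by linarith [Real.exp_pos 1])]
    exact h3
  obtain ⟨h1, h2, h3, h4, _⟩ := id hc
  have hL1 : (1 : ℝ) ≤ ((m - l : ℕ) : ℝ) := by exact_mod_cast (by omega : 1 ≤ m - l)
  have hK0 : (0 : ℝ) ≤ ((x - b : ℕ) : ℝ) := by positivity
  set KL := ((x - b : ℕ) : ℝ) + ((m - l : ℕ) : ℝ) with hKL
  have hKL1 : 1 ≤ KL := by linarith
  have hX0 : (0 : ℝ) ≤ X := by positivity
  by_cases hsmall : a ≤ X + 16
  · have : (a : ℝ) ≤ X + 16 := by exact_mod_cast hsmall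
    calc (a : ℝ) ≤ X + 16 := this
      _ = (X + 16) * 1 * 1 := by ring
      _ ≤ (X + 16) * KL * Real.log n := by gcongr
  · push Not at hsmall
    have ha : (16 : ℝ) ≤ a := by exact_mod_cast (by omega : 16 ≤ a)
    have hloga : 0 < Real.log a := Real.log_pos (by linarith)
    set R := (pr a).filter (fun r : ℕ => (1 - 1 / 2) * (a : ℝ) < (r : ℝ)) with hR
    have hRc := hX a (by omega)
    -- the union of prime divisors
    have hcov : R ⊆ (Ioc l m ∪ Ioc b x).biUnion (fun z => R.filter (fun r => r ∣ z)) := by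
      intro r hr
      obtain ⟨hr1, hr2⟩ := mem_filter.1 hr
      obtain ⟨hrp, hra⟩ := mem_pr.1 hr1
      have hr3 : a < 2 * r := by
        have : (a : ℝ) < 2 * r := by linarith
        exact_mod_cast this
      have hpar := hc.2.2.2.2 r hrp
      rw [fact_factorization_one hrp hra hr3] at hpar
      rw [mem_biUnion]
      by_contra hcon
      push Not at hcon
      have hz : ∀ z ∈ Ioc l m ∪ Ioc b x, ¬ r ∣ z := by
        intro z hz hd
        exact hcon z hz (mem_filter.2 ⟨hr, hd⟩)
      rw [V_eq_zero (fun z hz' => hz z (mem_union_left _ hz')),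
        V_eq_zero (fun z hz' => hz z (mem_union_right _ hz'))] at hpar
      exact absurd hpar (by decide)
    have hb1 : (R.card : ℝ) ≤ ∑ z ∈ Ioc l m ∪ Ioc b x, ((R.filter (fun r => r ∣ z)).card : ℝ) := by
      exact_mod_cast (card_le_card hcov).trans card_biUnion_le
    have hlog2 : Real.log a / 2 ≤ Real.log ((a : ℝ) / 2) := by
      have e1 : Real.log ((a : ℝ) / 2) = Real.log a - Real.log 2 := Real.log_div (by linarith) (by norm_num)
      have e2 : 2 * Real.log 2 ≤ Real.log a := by
        rw [← Real.log_rpow (by norm_num)]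
        apply Real.log_le_log (by positivity)
        norm_num
        linarith
      linarith
    have hb2 : ∀ z ∈ Ioc l m ∪ Ioc b x, ((R.filter (fun r => r ∣ z)).card : ℝ) ≤
        2 * Real.log n / Real.log a := by
      intro z hz
      have hz0 : 0 < z ∧ z ≤ n := by
        rcases mem_union.1 hz with h | h
        · rw [mem_Ioc] at h; omega
        · rw [mem_Ioc] at h; omega
      have := card_primes_dvd_le z hz0.1 (R.filter (fun r => r ∣ z))
        (fun r hr => by
          obtain ⟨hr1, hr2⟩ := mem_filter.1 hr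
          exact ⟨(mem_pr.1 (mem_filter.1 hr1).1).1, hr2⟩)
        ((a : ℝ) / 2) (by linarith)
        (fun r hr => by
          have := (mem_filter.1 (mem_filter.1 hr).1).2
          linarith)
      have hlz : Real.log z ≤ Real.log n := Real.log_le_log (by exact_mod_cast hz0.1)
        (by exact_mod_cast hz0.2)
      rw [le_div_iff₀ hloga]
      have h5 : ((R.filter (fun r => r ∣ z)).card : ℝ) * (Real.log a / 2) ≤
          ((R.filter (fun r => r ∣ z)).card : ℝ) * Real.log ((a : ℝ) / 2) :=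
        mul_le_mul_of_nonneg_left hlog2 (by positivity)
      linarith
    have hcardU : ((Ioc l m ∪ Ioc b x).card : ℝ) ≤ KL := by
      have : (Ioc l m ∪ Ioc b x).card ≤ (m - l) + (x - b) := by
        refine (card_union_le _ _).trans ?_
        simp
      have h6 : ((Ioc l m ∪ Ioc b x).card : ℝ) ≤ ((m - l : ℕ) : ℝ) + ((x - b : ℕ) : ℝ) := by
        exact_mod_cast this
      linarith
    have hb3 : (R.card : ℝ) ≤ KL * (2 * Real.log n / Real.log a) := by
      calc (R.card : ℝ) ≤ _ := hb1
        _ ≤ ∑ z ∈ Ioc l m ∪ Ioc b x, 2 * Real.log n / Real.log a := Finset.sum_le_sum hb2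
        _ = ((Ioc l m ∪ Ioc b x).card : ℝ) * (2 * Real.log n / Real.log a) := by simp
        _ ≤ _ := by
          apply mul_le_mul_of_nonneg_right hcardU
          positivity
    have h7 : (1 / 2 : ℝ) / 2 * a / Real.log a ≤ KL * (2 * Real.log n / Real.log a) := hRc.trans hb3
    have h8 : (1 / 2 : ℝ) / 2 * a ≤ KL * (2 * Real.log n) := by
      have e : KL * (2 * Real.log n / Real.log a) = KL * (2 * Real.log n) / Real.log a := by ring
      rw [e] at h7
      exact (div_le_div_iff_of_pos_right hloga).1 h7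
    have h9 : (a : ℝ) ≤ 8 * KL * Real.log n := by linarith
    calc (a : ℝ) ≤ 8 * KL * Real.log n := h9
      _ ≤ (X + 16) * KL * Real.log n := by
        have : 0 ≤ KL * Real.log n := by positivity
        nlinarith

end Pool.Agent.Helper1.D6
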