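import Mathlib
import Pool.Agent.Helper1.D6.Mertens

set_option autoImplicit false

namespace Pool.Agent.Helper1.D6

open Finset

/-- integers in an interval coprime to `Q` -/
theorem card_coprime_Ioc_le (Q y N : ℕ) (hQ : 0 < Q) :
    (((Ioc y (y + N)).filter (fun z => Nat.Coprime z Q)).card : ℝ) ≤
      (Q.totient : ℝ) / Q * N + Q.totient := by
  have h1 := Nat.Ico_filter_coprime_le (a := Q) (y + 1) N hQ.ne'
  have h2 : (Ioc y (y + N)).filter (fun z => Nat.Coprime z Q) =
      (Ico (y + 1) (y + 1 + N)).filter (fun z => Q.Coprime z) := by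
    ext z
    simp only [mem_filter, mem_Ioc, mem_Ico, Nat.coprime_comm]
    constructor
    · rintro ⟨h, h'⟩; exact ⟨by omega, h'⟩
    · rintro ⟨h, h'⟩; exact ⟨by omega, h'⟩
  rw [h2]
  have hQr : (0 : ℝ) < Q := by exact_mod_cast hQ
  calc (((Ico (y + 1) (y + 1 + N)).filter (fun z => Q.Coprime z)).card : ℝ)
      ≤ (Q.totient * (N / Q + 1) : ℕ) := by exact_mod_cast h1
    _ = Q.totient * ((N / Q : ℕ) + 1 : ℝ) := by push_cast; ring
    _ ≤ Q.totient * ((N : ℝ) / Q + 1) := by
        apply mul_le_mul_of_nonneg_left _ (by positivity)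
        have : ((N / Q : ℕ) : ℝ) ≤ (N : ℝ) / Q := Nat.cast_div_le
        linarith
    _ = _ := by ring

/-- lower bound for coprime integers -/
theorem card_coprime_Ioc_ge (Q y N : ℕ) (hQ : 0 < Q) :
    (Q.totient : ℝ) / Q * N - Q.totient ≤
      (((Ioc y (y + N)).filter (fun z => Nat.Coprime z Q)).card : ℝ) := by
  have hQr : (0 : ℝ) < Q := by exact_mod_cast hQ
  have h1 : ∀ k : ℕ, ((Ioc y (y + k * Q)).filter (fun z => Nat.Coprime z Q)).card = k * Q.totient := by
    intro k
    induction k with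
    | zero => simp
    | succ k ih =>
      have hsplit : (Ioc y (y + (k + 1) * Q)).filter (fun z => Nat.Coprime z Q) =
          (Ioc y (y + k * Q)).filter (fun z => Nat.Coprime z Q) ∪
          (Ico (y + k * Q + 1) (y + k * Q + 1 + Q)).filter (fun z => Q.Coprime z) := by
        ext z
        simp only [mem_union, mem_filter, mem_Ioc, mem_Ico, Nat.coprime_comm (n := z)]
        have : (k + 1) * Q = k * Q + Q := by ring
        rw [this]
        constructor
        · rintro ⟨h, h'⟩
          by_cases hz : z ≤ y + k * Q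
          · left; exact ⟨⟨h.1, hz⟩, h'⟩
          · right; exact ⟨by omega, h'⟩
        · rintro (⟨h, h'⟩ | ⟨h, h'⟩)
          · exact ⟨by omega, h'⟩
          · exact ⟨⟨by have := h.1; omega, by omega⟩, h'⟩
      rw [hsplit, Finset.card_union_of_disjoint, ih, Nat.filter_coprime_Ico_eq_totient]
      · ring
      · rw [Finset.disjoint_left]
        intro z hz hz'
        have := (mem_Ioc.1 (mem_filter.1 hz).1).2
        have := (mem_Ico.1 (mem_filter.1 hz').1).1
        omega
  have h2 : ((Ioc y (y + (N / Q) * Q)).filter (fun z => Nat.Coprime z Q)) ⊆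
      ((Ioc y (y + N)).filter (fun z => Nat.Coprime z Q)) := by
    apply Finset.filter_subset_filter
    apply Finset.Ioc_subset_Ioc_right
    have := Nat.div_mul_le_self N Q
    omega
  have h3 := Finset.card_le_card h2
  rw [h1] at h3
  have h4 : (N : ℝ) / Q - 1 ≤ ((N / Q : ℕ) : ℝ) := by
    have := Nat.lt_div_mul_add (a := N) hQ
    rw [sub_le_iff_le_add, div_le_iff₀ hQr]
    have h5 : (N : ℝ) ≤ (N / Q : ℕ) * Q + Q := by exact_mod_cast this.le
    linarith
  calc (Q.totient : ℝ) / Q * N - Q.totient = ((N : ℝ) / Q - 1) * Q.totient := by ring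
    _ ≤ ((N / Q : ℕ) : ℝ) * Q.totient := mul_le_mul_of_nonneg_right h4 (by positivity)
    _ ≤ _ := by exact_mod_cast h3

/-- multiples of `d` in an interval, coprime to `Q` -/
theorem card_mult_coprime_le (Q y h d : ℕ) (hQ : 0 < Q) (hd : 0 < d) :
    (((Ioc y (y + h)).filter (fun z => Nat.Coprime z Q ∧ d ∣ z)).card : ℝ) ≤
      (Q.totient : ℝ) / Q * ((h : ℝ) / d) + 2 * Q.totient := by
  have hQr : (0 : ℝ) < Q := by exact_mod_cast hQ
  have hdr : (0 : ℝ) < d := by exact_mod_cast hd
  set N := (y + h) / d - y / d with hN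
  have h1 : ((Ioc y (y + h)).filter (fun z => Nat.Coprime z Q ∧ d ∣ z)).card ≤
      ((Ioc (y / d) (y / d + N)).filter (fun z => Nat.Coprime z Q)).card := by
    apply Finset.card_le_card_of_injOn (fun z => z / d)
    · intro z hz
      have hz' := mem_filter.1 (mem_coe.1 hz)
      obtain ⟨hz1, hz2, k, rfl⟩ := hz'
      rw [mem_Ioc] at hz1
      simp only [coe_filter, mem_Ioc, Set.mem_ofPred_eq]
      rw [Nat.mul_div_cancel_left _ hd]
      refine ⟨⟨?_, ?_⟩, Nat.Coprime.coprime_mul_left hz2⟩
      · rw [Nat.div_lt_iff_lt_mul hd]; linarith [hz1.1]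
      · have : k ≤ (y + h) / d := by rw [Nat.le_div_iff_mul_le hd]; linarith [hz1.2]
        omega
    · intro z hz z' hz' hzz
      obtain ⟨_, _, k, rfl⟩ := mem_filter.1 (mem_coe.1 hz)
      obtain ⟨_, _, k', rfl⟩ := mem_filter.1 (mem_coe.1 hz')
      simp only [Nat.mul_div_cancel_left _ hd] at hzz
      rw [hzz]
  have h2 := card_coprime_Ioc_le Q (y / d) N hQ
  have h3 : (N : ℝ) ≤ (h : ℝ) / d + 1 := by
    have e1 : N ≤ h / d + 1 := by
      rw [hN]
      have hkey : (y + h) / d ≤ y / d + h / d + 1 := by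
        by_contra hcon
        push Not at hcon
        have a1 : (y / d + h / d + 2) * d ≤ y + h := (Nat.le_div_iff_mul_le hd).1 hcon
        have a2 := Nat.lt_div_mul_add (a := y) hd
        have a3 := Nat.lt_div_mul_add (a := h) hd
        nlinarith
      exact Nat.sub_le_iff_le_add.2 (by linarith)
    have e2 : ((h / d : ℕ) : ℝ) ≤ (h : ℝ) / d := Nat.cast_div_le
    have e3 : (N : ℝ) ≤ (h / d : ℕ) + 1 := by exact_mod_cast e1
    linarith
  have ht : (Q.totient : ℝ) ≤ Q := by exact_mod_cast Nat.totient_le Q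
  have ht0 : (0 : ℝ) ≤ (Q.totient : ℝ) / Q := by positivity
  have ht1 : (Q.totient : ℝ) / Q ≤ Q.totient := by
    rw [div_le_iff₀ hQr]
    have : (1 : ℝ) ≤ Q := by exact_mod_cast hQ
    have : (0 : ℝ) ≤ Q.totient := by positivity
    nlinarith
  calc (((Ioc y (y + h)).filter (fun z => Nat.Coprime z Q ∧ d ∣ z)).card : ℝ)
      ≤ (((Ioc (y / d) (y / d + N)).filter (fun z => Nat.Coprime z Q)).card : ℝ) := by
        exact_mod_cast h1
    _ ≤ (Q.totient : ℝ) / Q * N + Q.totient := h2
    _ ≤ (Q.totient : ℝ) / Q * ((h : ℝ) / d + 1) + Q.totient := by gcongr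
    _ ≤ _ := by
        rw [mul_add, mul_one]
        linarith

open Classical in
/-- the Chebyshev identity for intervals -/
theorem cheb_interval (C : ℝ) (hC : ∀ t : ℕ, 1 ≤ t →
    ∑ r ∈ pr t, Real.log r / ((r : ℝ) - 1) ≤ Real.log t + C)
    (n y h Q : ℕ) (hQ : 0 < Q) (hn : y + h ≤ n) (hh : 1 ≤ h) :
    ∑ z ∈ (Ioc y (y + h)).filter (fun z => Nat.Coprime z Q), Real.log z ≤
      (Q.totient : ℝ) / Q * h * (Real.log h + C) + 2 * Q.totient * (pr h).card * Real.log n +
      Real.log n * ((Ioc y (y + h)).filter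
        (fun z => Nat.Coprime z Q ∧ ∃ r, r.Prime ∧ h < r ∧ r ∣ z)).card := by
  set Z := (Ioc y (y + h)).filter (fun z => Nat.Coprime z Q) with hZ
  have hlogn : 0 ≤ Real.log n := Real.log_nonneg (by exact_mod_cast (by omega : 1 ≤ n))
  -- pointwise bound
  have hpt : ∀ z ∈ Z, Real.log z ≤ ∑ r ∈ pr h, (z.factorization r : ℝ) * Real.log r +
      (if (∃ r, r.Prime ∧ h < r ∧ r ∣ z) then Real.log n else 0) := by
    intro z hz
    have hz1 := mem_Ioc.1 (mem_filter.1 hz).1
    have hz0 : z ≠ 0 := by omega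
    have hnn : ∀ r ∈ pr h, 0 ≤ (z.factorization r : ℝ) * Real.log r := by
      intro r hr
      have := (mem_pr.1 hr).1.one_le
      exact mul_nonneg (by positivity) (Real.log_nonneg (by exact_mod_cast this))
    by_cases hex : ∃ r, r.Prime ∧ h < r ∧ r ∣ z
    · rw [if_pos hex]
      have : Real.log z ≤ Real.log n := Real.log_le_log (by exact_mod_cast (by omega : 0 < z))
        (by exact_mod_cast (by omega : z ≤ n))
      have := Finset.sum_nonneg hnn
      linarith
    · rw [if_neg hex, add_zero, Real.log_nat_eq_sum_factorization, Finsupp.sum]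
      apply Finset.sum_le_sum_of_subset_of_nonneg
      · intro r hr
        rw [Nat.support_factorization] at hr
        have hp := Nat.prime_of_mem_primeFactors hr
        have hd := Nat.dvd_of_mem_primeFactors hr
        rw [mem_pr]
        refine ⟨hp, ?_⟩
        by_contra hcon
        exact hex ⟨r, hp, by omega, hd⟩
      · intro r hr _
        exact hnn r hr
  -- sum over z
  have h1 : ∑ z ∈ Z, Real.log z ≤ ∑ r ∈ pr h, (∑ z ∈ Z, (z.factorization r : ℝ)) * Real.log r +
      Real.log n * ((Ioc y (y + h)).filter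
        (fun z => Nat.Coprime z Q ∧ ∃ r, r.Prime ∧ h < r ∧ r ∣ z)).card := by
    calc ∑ z ∈ Z, Real.log z ≤ ∑ z ∈ Z, (∑ r ∈ pr h, (z.factorization r : ℝ) * Real.log r +
          (if (∃ r, r.Prime ∧ h < r ∧ r ∣ z) then Real.log n else 0)) := Finset.sum_le_sum hpt
      _ = _ := by
        rw [Finset.sum_add_distrib, Finset.sum_comm]
        congr 1
        · apply Finset.sum_congr rfl
          intro r _
          rw [Finset.sum_mul]
        · rw [← Finset.sum_filter, Finset.sum_const, nsmul_eq_mul, mul_comm, hZ,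
            Finset.filter_filter]
  -- each prime
  have h2 : ∀ r ∈ pr h, (∑ z ∈ Z, (z.factorization r : ℝ)) * Real.log r ≤
      (Q.totient : ℝ) / Q * h * (Real.log r / ((r : ℝ) - 1)) + 2 * Q.totient * Real.log n := by
    intro r hr
    have hp := (mem_pr.1 hr).1
    have hr2 : (2 : ℝ) ≤ r := by exact_mod_cast hp.two_le
    have hlr : 0 ≤ Real.log r := Real.log_nonneg (by linarith)
    set J := Nat.log r n with hJ
    have e1 : ∑ z ∈ Z, (z.factorization r : ℝ) =
        ∑ j ∈ Ico 1 (J + 1), (((Ioc y (y + h)).filter (fun z => Nat.Coprime z Q ∧ r ^ j ∣ z)).card : ℝ) := by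
      calc ∑ z ∈ Z, (z.factorization r : ℝ) =
            ∑ z ∈ Z, ∑ j ∈ Ico 1 (J + 1), (if r ^ j ∣ z then (1 : ℝ) else 0) := by
            apply Finset.sum_congr rfl
            intro z hz
            have hz1 := mem_Ioc.1 (mem_filter.1 hz).1
            rw [Nat.factorization_eq_card_pow_dvd_of_lt hp (by omega) (b := J + 1)
              (lt_of_le_of_lt (by omega : z ≤ n) (Nat.lt_pow_succ_log_self hp.one_lt n))]
            rw [Finset.card_filter]
            push_cast
            rfl
        _ = ∑ j ∈ Ico 1 (J + 1), ∑ z ∈ Z, (if r ^ j ∣ z then (1 : ℝ) else 0) := Finset.sum_comm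
        _ = _ := by
            apply Finset.sum_congr rfl
            intro j _
            rw [hZ, Finset.sum_filter, Finset.card_filter]
            push_cast
            apply Finset.sum_congr rfl
            intro z _
            by_cases h1 : z.Coprime Q <;> by_cases h2 : r ^ j ∣ z <;> simp [h1, h2]
    have e2 : ∑ z ∈ Z, (z.factorization r : ℝ) ≤
        (Q.totient : ℝ) / Q * h * (1 / ((r : ℝ) - 1)) + 2 * Q.totient * J := by
      rw [e1]
      calc _ ≤ ∑ j ∈ Ico 1 (J + 1), ((Q.totient : ℝ) / Q * ((h : ℝ) / (r ^ j : ℕ)) + 2 * Q.totient) :=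
            Finset.sum_le_sum fun j _ => card_mult_coprime_le Q y h (r ^ j) hQ (by have := hp.pos; positivity)
        _ = (Q.totient : ℝ) / Q * h * (∑ j ∈ Ico 1 (J + 1), 1 / (r : ℝ) ^ j) + 2 * Q.totient * J := by
            rw [Finset.sum_add_distrib, Finset.mul_sum]
            congr 1
            · apply Finset.sum_congr rfl
              intro j _
              push_cast
              ring
            · simp; ring
        _ ≤ _ := by
            have := geom_le r (J + 1) hp.two_le
            gcongr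
    have e3 : (J : ℝ) * Real.log r ≤ Real.log n := by
      have h3 : r ^ J ≤ n := Nat.pow_log_le_self r (by omega)
      have h4 : ((r : ℝ) ^ J) ≤ n := by exact_mod_cast h3
      calc (J : ℝ) * Real.log r = Real.log ((r : ℝ) ^ J) := by rw [Real.log_pow]
        _ ≤ _ := Real.log_le_log (by positivity) h4
    calc (∑ z ∈ Z, (z.factorization r : ℝ)) * Real.log r ≤
          ((Q.totient : ℝ) / Q * h * (1 / ((r : ℝ) - 1)) + 2 * Q.totient * J) * Real.log r :=
          mul_le_mul_of_nonneg_right e2 hlr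
      _ = (Q.totient : ℝ) / Q * h * (Real.log r / ((r : ℝ) - 1)) + 2 * Q.totient * (J * Real.log r) := by
          ring
      _ ≤ _ := by gcongr
  have h3 : ∑ r ∈ pr h, (∑ z ∈ Z, (z.factorization r : ℝ)) * Real.log r ≤
      (Q.totient : ℝ) / Q * h * (Real.log h + C) + 2 * Q.totient * (pr h).card * Real.log n := by
    calc _ ≤ ∑ r ∈ pr h, ((Q.totient : ℝ) / Q * h * (Real.log r / ((r : ℝ) - 1)) +
            2 * Q.totient * Real.log n) := Finset.sum_le_sum h2
      _ = (Q.totient : ℝ) / Q * h * (∑ r ∈ pr h, Real.log r / ((r : ℝ) - 1)) +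
            2 * Q.totient * (pr h).card * Real.log n := by
          rw [Finset.sum_add_distrib, ← Finset.mul_sum, Finset.sum_const, nsmul_eq_mul]
          ring
      _ ≤ _ := by
          have := hC h hh
          gcongr
  linarith

theorem add_div_le' (y h d : ℕ) (hd : 0 < d) : (y + h) / d ≤ y / d + (h / d + 1) := by
  by_contra hcon
  push Not at hcon
  have a1 : (y / d + (h / d + 1) + 1) * d ≤ y + h := (Nat.le_div_iff_mul_le hd).1 hcon
  have a2 := Nat.lt_div_mul_add (a := y) hd
  have a3 := Nat.lt_div_mul_add (a := h) hd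
  nlinarith

open Classical in
/-- integers `r * w` with `r` prime and `w` in a given set, in an interval -/
theorem bt_set (y h : ℕ) (B : Finset ℕ) (M : ℝ) (hM : 2 ≤ M)
    (hB : ∀ w ∈ B, 1 ≤ w ∧ (w : ℝ) * M ≤ h) :
    (((Ioc y (y + h)).filter (fun z => ∃ w ∈ B, ∃ r, r.Prime ∧ z = r * w)).card : ℝ) ≤
      400 * h / Real.log M * ∑ w ∈ B, 1 / (w : ℝ) := by
  have hlogM : 0 < Real.log M := Real.log_pos (by linarith)
  have h1 : (Ioc y (y + h)).filter (fun z => ∃ w ∈ B, ∃ r, r.Prime ∧ z = r * w) ⊆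
      B.biUnion (fun w => ((Ioc (y / w) (y / w + (h / w + 1))).filter Nat.Prime).image (fun r => r * w)) := by
    intro z hz
    obtain ⟨hz1, w, hw, r, hr, rfl⟩ := mem_filter.1 hz
    rw [mem_Ioc] at hz1
    have hw1 : 0 < w := (hB w hw).1
    rw [mem_biUnion]
    refine ⟨w, hw, ?_⟩
    rw [mem_image]
    refine ⟨r, ?_, rfl⟩
    rw [mem_filter, mem_Ioc]
    refine ⟨⟨?_, ?_⟩, hr⟩
    · rw [Nat.div_lt_iff_lt_mul hw1]; exact hz1.1
    · have h2 : r ≤ (y + h) / w := by rw [Nat.le_div_iff_mul_le hw1]; exact hz1.2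
      exact h2.trans (add_div_le' y h w hw1)
  have h2 : ∀ w ∈ B, ((((Ioc (y / w) (y / w + (h / w + 1))).filter Nat.Prime).image
      (fun r => r * w)).card : ℝ) ≤ 400 * h / Real.log M * (1 / (w : ℝ)) := by
    intro w hw
    obtain ⟨hw1, hw2⟩ := hB w hw
    have hw0 : (0 : ℝ) < w := by exact_mod_cast hw1
    set N' := h / w + 1 with hN'
    have e1 : (h : ℝ) / w ≤ N' := by
      have := Nat.lt_div_mul_add (a := h) hw1
      rw [div_le_iff₀ hw0]
      have h5 : (h : ℝ) ≤ (h / w : ℕ) * w + w := by exact_mod_cast this.le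
      rw [hN']; push_cast
      linarith
    have e2 : M ≤ (h : ℝ) / w := by rw [le_div_iff₀ hw0]; linarith
    have e3 : (N' : ℝ) ≤ 2 * ((h : ℝ) / w) := by
      have : ((h / w : ℕ) : ℝ) ≤ (h : ℝ) / w := Nat.cast_div_le
      rw [hN']; push_cast
      linarith
    have hN2 : 2 ≤ N' := by
      have : (2 : ℝ) ≤ N' := by linarith
      exact_mod_cast this
    calc ((((Ioc (y / w) (y / w + N')).filter Nat.Prime).image (fun r => r * w)).card : ℝ)
        ≤ (((Ioc (y / w) (y / w + N')).filter Nat.Prime).card : ℝ) := by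
          exact_mod_cast card_image_le
      _ ≤ 200 * N' / Real.log N' := brun_titchmarsh _ _ hN2
      _ ≤ 200 * (2 * ((h : ℝ) / w)) / Real.log M := by
          apply div_le_div₀ (by positivity) (by linarith) hlogM
          exact Real.log_le_log (by linarith) (by linarith)
      _ = _ := by ring
  calc _ ≤ ((B.biUnion (fun w => ((Ioc (y / w) (y / w + (h / w + 1))).filter Nat.Prime).image
        (fun r => r * w))).card : ℝ) := by exact_mod_cast card_le_card h1
    _ ≤ ∑ w ∈ B, ((((Ioc (y / w) (y / w + (h / w + 1))).filter Nat.Prime).image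
      (fun r => r * w)).card : ℝ) := by exact_mod_cast card_biUnion_le
    _ ≤ ∑ w ∈ B, 400 * h / Real.log M * (1 / (w : ℝ)) := Finset.sum_le_sum h2
    _ = _ := by rw [Finset.mul_sum]

end Pool.Agent.Helper1.D6
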