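import Mathlib
import Pool.Agent.Helper1.D6.Basic
import Pool.Agent.Helper1.D6.Asym
import Pool.Agent.Helper1.D6.Cheb

set_option autoImplicit false

namespace Pool.Agent.Helper1.D6

open Finset Nat Filter

/-- exceptional primes: large primes in `(T, X]` dividing an element of the top interval -/
noncomputable def Exc (n l m T X : ℕ) : Finset ℕ := by
  classical
  exact (pr X).filter (fun r => T < r ∧ n < r ^ 2 ∧ ∃ z ∈ Ioc l m, r ∣ z)

theorem mem_Exc {n l m T X r : ℕ} : r ∈ Exc n l m T X ↔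
    (r.Prime ∧ r ≤ X) ∧ T < r ∧ n < r ^ 2 ∧ ∃ z ∈ Ioc l m, r ∣ z := by
  classical
  unfold Exc
  rw [mem_filter, mem_pr]

theorem card_Exc (n l m T X : ℕ) (hm : m ≤ n) : (Exc n l m T X).card ≤ m - l := by
  have := card_le_of_large_primes n (Exc n l m T X) (Ioc l m)
    (fun r hr => by
      obtain ⟨h1, _, h2, h3⟩ := mem_Exc.1 hr
      exact ⟨h1.1, h2, h3⟩)
    (fun z hz => by
      rw [mem_Ioc] at hz
      omega)
  simpa using this

theorem parity_nonexc {n m l x b a : ℕ} (h : WCfg m l x b a) (hm : m ≤ n) (T X r : ℕ) (hr : r.Prime)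
    (hrT : T < r) (hrX : r ≤ X) (hn : n < r ^ 2) (hx : r ∉ Exc n l m T X) : Even (V r b x + a / r) := by
  have hpar := h.2.2.2.2 r hr
  obtain ⟨h2, h3, h4, h5, _⟩ := h
  rw [fact_factorization_div r a hr (by omega)] at hpar
  rw [V_eq_zero (r := r) (s := l) (t := m)] at hpar
  · simpa using hpar
  · intro z hz hd
    exact hx (mem_Exc.2 ⟨⟨hr, hrX⟩, hrT, hn, z, hz, hd⟩)

open Classical in
/-- the primes larger than the length of the interval which divide an element of it -/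
theorem R0_lower (C : ℝ) (hC : ∀ t : ℕ, 1 ≤ t →
    ∑ r ∈ pr t, Real.log r / ((r : ℝ) - 1) ≤ Real.log t + C)
    {n b x : ℕ} (hbx : b < x) (hxn : x ≤ n) (hb : x ≤ 2 * b) :
    ((x - b : ℕ) : ℝ) * (Real.log x - Real.log 2 - Real.log ((x - b : ℕ) : ℝ) - C)
      - 2 * (pr (x - b)).card * Real.log n ≤
    Real.log n * ((pr n).filter (fun r => x - b < r ∧ ∃ z ∈ Ioc b x, r ∣ z)).card := by
  have hK : 1 ≤ x - b := by omega
  have hlogn : 0 ≤ Real.log n := Real.log_nonneg (by exact_mod_cast (by omega : 1 ≤ n))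
  have h1 := cheb_interval C hC n b (x - b) 1 (by norm_num) (by omega) hK
  have hx : b + (x - b) = x := by omega
  rw [hx] at h1
  have h2 : ((x - b : ℕ) : ℝ) * (Real.log x - Real.log 2) ≤
      ∑ z ∈ (Ioc b x).filter (fun z => Nat.Coprime z 1), Real.log z := by
    have e : (Ioc b x).filter (fun z => Nat.Coprime z 1) = Ioc b x := by
      apply Finset.filter_true_of_mem
      intro z _
      exact Nat.coprime_one_right z
    rw [e]
    calc ((x - b : ℕ) : ℝ) * (Real.log x - Real.log 2) = ∑ z ∈ Ioc b x, (Real.log x - Real.log 2) := by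
          rw [Finset.sum_const, Nat.card_Ioc, nsmul_eq_mul]
      _ ≤ _ := by
        apply Finset.sum_le_sum
        intro z hz
        rw [mem_Ioc] at hz
        rw [← Real.log_div (by exact_mod_cast (by omega : x ≠ 0)) (by norm_num)]
        apply Real.log_le_log
        · have : (0 : ℝ) < x := by exact_mod_cast (by omega : 0 < x)
          positivity
        · rw [div_le_iff₀ (by norm_num)]
          exact_mod_cast (by omega : x ≤ z * 2)
  have h3 : ((Ioc b x).filter (fun z => Nat.Coprime z 1 ∧ ∃ r, r.Prime ∧ x - b < r ∧ r ∣ z)).card ≤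
      ((pr n).filter (fun r => x - b < r ∧ ∃ z ∈ Ioc b x, r ∣ z)).card := by
    have hch : ∀ z ∈ (Ioc b x).filter (fun z => Nat.Coprime z 1 ∧ ∃ r, r.Prime ∧ x - b < r ∧ r ∣ z),
        ∃ r : ℕ, r.Prime ∧ x - b < r ∧ r ∣ z := fun z hz => (mem_filter.1 hz).2.2
    choose! f hf1 hf2 hf3 using hch
    apply Finset.card_le_card_of_injOn f
    · intro z hz
      have hz' : z ∈ (Ioc b x).filter (fun z => Nat.Coprime z 1 ∧ ∃ r, r.Prime ∧ x - b < r ∧ r ∣ z) := hz
      have hz1 := (mem_filter.1 hz').1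
      have hz2 := mem_Ioc.1 hz1
      have hle := Nat.le_of_dvd (by omega) (hf3 z hz')
      rw [mem_coe, mem_filter, mem_pr]
      exact ⟨⟨hf1 z hz', by omega⟩, hf2 z hz', z, hz1, hf3 z hz'⟩
    · intro z hz z' hz' hzz
      have hza : z ∈ (Ioc b x).filter (fun z => Nat.Coprime z 1 ∧ ∃ r, r.Prime ∧ x - b < r ∧ r ∣ z) := hz
      have hzb : z' ∈ (Ioc b x).filter (fun z => Nat.Coprime z 1 ∧ ∃ r, r.Prime ∧ x - b < r ∧ r ∣ z) := hz'
      have a1 := hf2 z hza
      exact mult_unique (r := f z) (by omega) (mem_filter.1 hza).1 (mem_filter.1 hzb).1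
        (hf3 z hza) (hzz ▸ hf3 z' hzb)
  have h4 : Real.log n * (((Ioc b x).filter
      (fun z => Nat.Coprime z 1 ∧ ∃ r, r.Prime ∧ x - b < r ∧ r ∣ z)).card : ℝ) ≤
      Real.log n * (((pr n).filter (fun r => x - b < r ∧ ∃ z ∈ Ioc b x, r ∣ z)).card : ℝ) := by
    apply mul_le_mul_of_nonneg_left _ hlogn
    exact_mod_cast h3
  have h5 : ((Nat.totient 1 : ℕ) : ℝ) / ((1 : ℕ) : ℝ) = 1 := by simp
  rw [h5, Nat.totient_one] at h1
  push_cast at h1
  have h6 := h2.trans h1
  linarith only [h2, h4, h1, h6, h4]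

/-- primes in `(a/2, a]` with a multiple in the interval `(b, x]` -/
theorem R0_upper {n b x a : ℕ} (hbx : b < x) (hxn : x ≤ n) (hb : x ≤ 2 * b) (ha : 0 < a) (hax : a ≤ x)
    (M : ℝ) (hM : 2 ≤ M) (hMK : 2 * (x : ℝ) / a * M ≤ ((x - b : ℕ) : ℝ))
    (R : Finset ℕ) (hR : ∀ r ∈ R, r.Prime ∧ n < r ^ 2 ∧ a < 2 * r ∧ r ≤ a ∧ ∃ z ∈ Ioc b x, r ∣ z) :
    (R.card : ℝ) ≤ 1600 * ((x - b : ℕ) : ℝ) / Real.log M := by
  classical
  have ha0 : (0 : ℝ) < a := by exact_mod_cast ha
  have hx0 : (0 : ℝ) < x := by exact_mod_cast (by omega : 0 < x)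
  set B := (Icc 1 (2 * x / a)).filter (fun w => x ≤ 2 * a * w) with hB
  set Z := (Ioc b x).filter (fun z => ∃ w ∈ B, ∃ r, r.Prime ∧ z = r * w) with hZ
  have h1 : R.card ≤ Z.card := by
    apply card_le_of_large_primes n R Z
    · intro r hr
      obtain ⟨h1, h2, h3, h4, z, hz, hd⟩ := hR r hr
      refine ⟨h1, h2, z, ?_, hd⟩
      rw [hZ, mem_filter]
      obtain ⟨w, rfl⟩ := hd
      refine ⟨hz, w, ?_, r, h1, rfl⟩
      rw [mem_Ioc] at hz
      rw [hB, mem_filter, mem_Icc]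
      refine ⟨⟨?_, ?_⟩, ?_⟩
      · rcases Nat.eq_zero_or_pos w with h | h
        · subst h; omega
        · exact h
      · rw [Nat.le_div_iff_mul_le ha]
        nlinarith only [hbx, hb, h3, hz, hz.2]
      · nlinarith only [h3, h4, hb, hz, hz.1]
    · intro z hz
      have := mem_Ioc.1 (mem_filter.1 hz).1
      omega
  have hBb : ∀ w ∈ B, 1 ≤ w ∧ (w : ℝ) * M ≤ ((x - b : ℕ) : ℝ) := by
    intro w hw
    obtain ⟨hw1, hw2⟩ := mem_filter.1 hw
    rw [mem_Icc] at hw1
    refine ⟨hw1.1, ?_⟩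
    have e1 : (w : ℝ) ≤ 2 * x / a := by
      have : ((2 * x / a : ℕ) : ℝ) ≤ ((2 * x : ℕ) : ℝ) / a := Nat.cast_div_le
      push_cast at this
      have e2 : (w : ℝ) ≤ ((2 * x / a : ℕ) : ℝ) := by exact_mod_cast hw1.2
      linarith only [this, e2]
    calc (w : ℝ) * M ≤ 2 * x / a * M := mul_le_mul_of_nonneg_right e1 (by linarith)
      _ ≤ _ := hMK
  have h2 := bt_set b (x - b) B M hM hBb
  have hx : b + (x - b) = x := by omega
  rw [hx] at h2
  have h3 : ∑ w ∈ B, 1 / (w : ℝ) ≤ 4 := by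
    have hcard : (B.card : ℝ) ≤ 2 * x / a := by
      have e1 : B.card ≤ 2 * x / a := by
        calc B.card ≤ (Icc 1 (2 * x / a)).card := card_filter_le _ _
          _ = _ := by simp
      have : ((2 * x / a : ℕ) : ℝ) ≤ ((2 * x : ℕ) : ℝ) / a := Nat.cast_div_le
      push_cast at this
      have e2 : (B.card : ℝ) ≤ ((2 * x / a : ℕ) : ℝ) := by exact_mod_cast e1
      linarith only [this, e2]
    calc ∑ w ∈ B, 1 / (w : ℝ) ≤ ∑ w ∈ B, (2 * a / x : ℝ) := by
          apply Finset.sum_le_sum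
          intro w hw
          obtain ⟨hw1, hw2⟩ := mem_filter.1 hw
          rw [mem_Icc] at hw1
          have hw0 : (0 : ℝ) < w := by exact_mod_cast hw1.1
          rw [div_le_div_iff₀ hw0 hx0, one_mul]
          exact_mod_cast hw2
      _ = B.card * (2 * a / x) := by rw [Finset.sum_const, nsmul_eq_mul]
      _ ≤ 2 * x / a * (2 * a / x) := by gcongr
      _ = 4 := by field_simp; norm_num
  have hlogM : 0 < Real.log M := Real.log_pos (by linarith only [hM])
  calc (R.card : ℝ) ≤ Z.card := by exact_mod_cast h1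
    _ ≤ 400 * ((x - b : ℕ) : ℝ) / Real.log M * ∑ w ∈ B, 1 / (w : ℝ) := by
        rw [hZ]; convert h2 using 3
    _ ≤ 400 * ((x - b : ℕ) : ℝ) / Real.log M * 4 := by gcongr
    _ = _ := by ring

theorem sq_gt_of_gt_half {n r : ℕ} (hn : 16 ≤ n) (h : (n : ℝ) ^ (0.9 : ℝ) / 2 < (r : ℝ))
    (h2 : (4 : ℝ) ≤ (n : ℝ) ^ (0.8 : ℝ)) : n < r ^ 2 := by
  have hn0 : (0 : ℝ) < n := by exact_mod_cast (by omega : 0 < n)
  have h3 : ((n : ℝ) ^ (0.9 : ℝ) / 2) ^ 2 < (r : ℝ) ^ 2 := by
    apply pow_lt_pow_left₀ h (by positivity) (by norm_num)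
  have h4 : ((n : ℝ) ^ (0.9 : ℝ)) ^ 2 = (n : ℝ) ^ (0.8 : ℝ) * n := by
    rw [← Real.rpow_natCast, ← Real.rpow_mul hn0.le]
    nth_rewrite 3 [← Real.rpow_one (n : ℝ)]
    rw [← Real.rpow_add hn0]
    norm_num
  have h5 : (n : ℝ) ≤ ((n : ℝ) ^ (0.9 : ℝ) / 2) ^ 2 := by
    rw [div_pow, h4]
    rw [le_div_iff₀ (by norm_num)]
    nlinarith only [h2]
  have : (n : ℝ) < ((r ^ 2 : ℕ) : ℝ) := by push_cast; linarith only [h3, h5]
  exact_mod_cast this

theorem log_half_le (x : ℕ) (hx : 2 ≤ x) : Real.log x - Real.log ((x / 2 : ℕ) : ℝ) ≤ 2 := by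
  have h1 : x ≤ 3 * (x / 2) := by omega
  have h2 : (0 : ℝ) < ((x / 2 : ℕ) : ℝ) := by exact_mod_cast (by omega : 0 < x / 2)
  have h3 : (x : ℝ) ≤ 3 * ((x / 2 : ℕ) : ℝ) := by exact_mod_cast h1
  have h4 : Real.log x ≤ Real.log 3 + Real.log ((x / 2 : ℕ) : ℝ) := by
    rw [← Real.log_mul (by norm_num) h2.ne']
    exact Real.log_le_log (by exact_mod_cast (by omega : 0 < x)) h3
  have h5 : Real.log 3 ≤ 2 := by
    have := Real.log_le_sub_one_of_pos (show (0 : ℝ) < 3 by norm_num)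
    linarith only [this]
  linarith only [h4, h5]

set_option maxHeartbeats 4000000 in
/-- **Regime 0**, general form: if the exceptional primes are few compared with the length of the
second interval then this interval cannot be long. -/
theorem R0gen (hPL : PL) : ∃ ε : ℝ, 0 < ε ∧ ∃ n0 : ℕ, ∀ n : ℕ, n0 ≤ n → ∀ m l x b a : ℕ,
    WCfg m l x b a → m ≤ n → (n : ℝ) ^ (0.98 : ℝ) ≤ ((x - b : ℕ) : ℝ) → ∀ E : ℝ, 0 ≤ E →
    (∀ T X : ℕ, (n : ℝ) ^ (0.9 : ℝ) / 3 ≤ T → T ≤ X → X ≤ x →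
      ((Exc n l m T X).card : ℝ) ≤ E * (2 + Real.log X - Real.log T)) →
    E * Real.log n ≤ ε * ((x - b : ℕ) : ℝ) → False := by
  classical
  obtain ⟨C, hC0, hC⟩ := exists_mertens
  set C1 := Real.log 2 + C + 409 with hC1
  have hC1pos : 0 < C1 := by
    have := Real.log_pos (show (1 : ℝ) < 2 by norm_num)
    linarith
  set Λ := 4 * C1 + 6000000 with hΛ
  set η := Real.exp (-Λ) with hη
  have hη0 : 0 < η := Real.exp_pos _
  have hη2 : η ≤ 1 / 2 := by
    rw [hη]
    have h1 : Real.exp (-Λ) ≤ Real.exp (-1) := Real.exp_le_exp.2 (by linarith)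
    have h2 : Real.exp (-1) ≤ 1 / 2 := by
      rw [Real.exp_neg, inv_le_comm₀ (Real.exp_pos 1) (by norm_num)]
      have := Real.exp_one_gt_d9
      norm_num
      linarith only [this]
    linarith only [h1, h2]
  obtain ⟨X1, hX1⟩ := hPL η hη0 hη2
  obtain ⟨X2, hX2⟩ := hPL (1 / 2) (by norm_num) le_rfl
  refine ⟨η / 10, by positivity, ?_⟩
  have hev : ∀ᶠ n : ℕ in atTop, 16 ≤ n ∧ 2 ≤ Real.log n ∧
      (X1 : ℝ) ≤ (n : ℝ) ^ (0.98 : ℝ) ∧ (X2 : ℝ) ≤ (n : ℝ) ^ (0.9 : ℝ) ∧
      (4 : ℝ) ≤ (n : ℝ) ^ (0.8 : ℝ) ∧ 1 * (Real.log n) ^ 1 ≤ (n : ℝ) ^ (0.08 : ℝ) ∧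
      (2 : ℝ) ≤ (n : ℝ) ^ (0.38 : ℝ) ∧ (2 : ℝ) ≤ (n : ℝ) ^ (0.5 : ℝ) := by
    filter_upwards [eventually_ge_atTop 16, ev_log 2,
      ev_const X1 0.98 (by norm_num), ev_const X2 0.9 (by norm_num), ev_const 4 0.8 (by norm_num),
      ev_pow 1 1 0.08 (by norm_num), ev_const 2 0.38 (by norm_num), ev_const 2 0.5 (by norm_num)]
      with n h1 h3 h4 h5 h6 h7 h8 h9
    exact ⟨h1, h3, h4, h5, h6, h7, h8, h9⟩
  obtain ⟨n0, hn0⟩ := eventually_atTop.1 hev
  refine ⟨n0, ?_⟩
  intro n hn m l x b a hc hmn hKbig E hE0 hExc hEK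
  obtain ⟨hn16, hl2, hX1n, hX2n, h4n, hln, h38, h5n⟩ := hn0 n hn
  obtain ⟨hab, hbx0, hxl, hlm, _⟩ := id hc
  set K := x - b with hKdef
  set ℓ := Real.log n with hℓ
  have hnr : (0 : ℝ) < n := by exact_mod_cast (by omega : 0 < n)
  have hn1 : (1 : ℝ) ≤ n := by exact_mod_cast (by omega : 1 ≤ n)
  have hℓ0 : 0 < ℓ := by linarith only [hη0, hη2, hl2]
  have hpow_split : ∀ s t : ℝ, (n : ℝ) ^ (s + t) = (n : ℝ) ^ s * (n : ℝ) ^ t := fun s t => Real.rpow_add hnr s t
  have hKpos : (0 : ℝ) < K := lt_of_lt_of_le (by positivity) hKbig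
  have hKn : 0 < K := by exact_mod_cast hKpos
  have hbx : b < x := by omega
  have hxn : x ≤ n := by omega
  have hηK : η * K ≤ K := by nlinarith only [hKpos, hη2]
  have h98_9 : (n : ℝ) ^ (0.9 : ℝ) * ℓ ≤ (n : ℝ) ^ (0.98 : ℝ) := by
    rw [show (0.98 : ℝ) = 0.9 + 0.08 by norm_num, hpow_split]
    apply mul_le_mul_of_nonneg_left _ (by positivity)
    simpa using hln
  have hp9 : (0 : ℝ) < (n : ℝ) ^ (0.9 : ℝ) := by positivity
  have h9_le : (n : ℝ) ^ (0.9 : ℝ) ≤ (n : ℝ) ^ (0.98 : ℝ) := by nlinarith only [hX1n, h98_9, hl2, hX2n]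
  have h98ge : (4 : ℝ) ≤ (n : ℝ) ^ (0.98 : ℝ) := by
    have : (n : ℝ) ^ (0.8 : ℝ) ≤ (n : ℝ) ^ (0.98 : ℝ) :=
      Real.rpow_le_rpow_of_exponent_le hn1 (by norm_num)
    linarith only [h4n, this]
  have hsq : ∀ r : ℕ, (n : ℝ) ^ (0.9 : ℝ) / 2 < (r : ℝ) → n < r ^ 2 := fun r hr =>
    sq_gt_of_gt_half hn16 hr h4n
  have hKx : (K : ℝ) ≤ x := by exact_mod_cast Nat.sub_le x b
  have hK2r : (4 : ℝ) ≤ K := by linarith only [hKbig, h98ge]
  have hx2 : 2 ≤ x := by
    have : (2 : ℝ) ≤ x := by linarith only [hη0, hη2, hKbig, h98ge, hKx]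
    exact_mod_cast this
  -- Step 1: K < η x
  have hstep1 : (K : ℝ) < η * x := by
    by_contra hK
    push Not at hK
    have hxX : X1 ≤ x := by
      have : (X1 : ℝ) ≤ x := by linarith only [hX1n, hKbig, hKx]
      exact_mod_cast this
    have hcount := hX1 x hxX
    have hsub : (pr x).filter (fun r : ℕ => (1 - η) * x < (r : ℝ)) ⊆ Exc n l m (x / 2) x := by
      intro r hr
      obtain ⟨hr1, hr2⟩ := mem_filter.1 hr
      obtain ⟨hrp, hrx⟩ := mem_pr.1 hr1
      by_contra hex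
      have hbr : b < r := by
        have e1 : (b : ℝ) = x - K := by
          have : b + K = x := by omega
          have : (b : ℝ) + K = x := by exact_mod_cast this
          linarith only [this]
        have : (b : ℝ) < r := by rw [e1]; linarith only [hK, hr2]
        exact_mod_cast this
      have h2r : x < 2 * r := by
        have hx0 : (0 : ℝ) ≤ x := by positivity
        have : (x : ℝ) < 2 * r := by nlinarith only [hr2, hη2]
        exact_mod_cast this
      have hnr2 : n < r ^ 2 := by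
        apply hsq
        have : (x : ℝ) < 2 * r := by exact_mod_cast h2r
        linarith only [hKbig, h9_le, hKx, this]
      have hpar := parity_nonexc hc hmn (x / 2) x r hrp (by omega) hrx hnr2 hex
      have hV : V r b x = 1 := by
        rw [V_eq_single r (by rw [mem_Ioc]; exact ⟨hbr, hrx⟩)]
        · exact hrp.factorization_self
        · intro z hz hd
          rw [mem_Ioc] at hz
          obtain ⟨k, rfl⟩ := hd
          have hk : k = 1 := by
            have hk1 : k < 2 := by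
              by_contra h
              push Not at h
              nlinarith only [h2r, h, hz]
            have hk0 : 0 < k := by
              rcases Nat.eq_zero_or_pos k with h | h
              · subst h; omega
              · exact h
            omega
          rw [hk, mul_one]
      have ha0 : a / r = 0 := Nat.div_eq_of_lt (by omega)
      rw [hV, ha0] at hpar
      exact absurd hpar (by decide)
    have hcard : (((pr x).filter (fun r : ℕ => (1 - η) * x < (r : ℝ))).card : ℝ) ≤ E * 4 := by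
      calc (((pr x).filter (fun r : ℕ => (1 - η) * x < (r : ℝ))).card : ℝ)
          ≤ ((Exc n l m (x / 2) x).card : ℝ) := by exact_mod_cast card_le_card hsub
        _ ≤ E * (2 + Real.log x - Real.log ((x / 2 : ℕ) : ℝ)) := by
            apply hExc _ _ _ (by omega) le_rfl
            have e1 : x ≤ 3 * (x / 2) := by omega
            have e2 : (x : ℝ) ≤ 3 * ((x / 2 : ℕ) : ℝ) := by exact_mod_cast e1
            linarith only [hKbig, h9_le, hKx, e2]
        _ ≤ E * 4 := by
            apply mul_le_mul_of_nonneg_left _ hE0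
            have := log_half_le x hx2
            linarith only [this]
    have hx1 : (1 : ℝ) < x := by linarith only [hη0, hη2, hKbig, h98ge, hKx]
    have hlx0 : 0 < Real.log x := Real.log_pos hx1
    have hlx : Real.log x ≤ ℓ := Real.log_le_log (by linarith only [hη0, hη2, hKbig, h98ge, hKx]) (by exact_mod_cast hxn)
    have h1 : η / 2 * x / ℓ ≤ E * 4 := by
      calc η / 2 * x / ℓ ≤ η / 2 * x / Real.log x := by gcongr
        _ ≤ _ := hcount.trans hcard
    rw [div_le_iff₀ hℓ0] at h1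
    have h2 : η / 2 * K ≤ η / 2 * x := by gcongr
    have h3 : 0 < η * K := by positivity
    linarith only [hEK, h1, h2, h3]
  -- consequences
  have hx0 : (0 : ℝ) < x := by linarith only [hη0, hη2, hKbig, h98ge, hKx]
  have hb2 : x ≤ 2 * b := by
    have e1 : (b : ℝ) = x - K := by
      have : b + K = x := by omega
      have : (b : ℝ) + K = x := by exact_mod_cast this
      linarith only [this]
    have : (x : ℝ) ≤ 2 * b := by rw [e1]; nlinarith only [hstep1, hη2]
    exact_mod_cast this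
  have hlogK : 0.98 * ℓ ≤ Real.log K := by
    rw [hℓ, ← Real.log_rpow hnr]
    exact Real.log_le_log (by positivity) hKbig
  have hlogK0 : 0 < Real.log K := by linarith only [hη0, hη2, hl2, hlogK]
  have hlogxK : Λ ≤ Real.log x - Real.log K := by
    have : Real.log K ≤ Real.log (η * x) := Real.log_le_log hKpos hstep1.le
    rw [Real.log_mul hη0.ne' hx0.ne', hη, Real.log_exp] at this
    linarith only [this]
  have hK2 : 2 ≤ K := by
    have : (2 : ℝ) ≤ K := by linarith only [hη0, hη2, hKbig, h98ge]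
    exact_mod_cast this
  -- Step 2
  have hlow := R0_lower C hC hbx hxn hb2
  rw [← hKdef, ← hℓ] at hlow
  have hpiK : 2 * ((pr K).card : ℝ) * ℓ ≤ 409 * K := by
    have := card_pr_le K hK2
    have h1 : ((pr K).card : ℝ) * Real.log K ≤ 200 * K := by
      rwa [le_div_iff₀ hlogK0] at this
    have h2 : ((pr K).card : ℝ) * (0.98 * ℓ) ≤ 200 * K :=
      (mul_le_mul_of_nonneg_left hlogK (by positivity)).trans h1
    linarith only [hη0, hη2, hKbig, h98ge, h2]
  set RG := (pr n).filter (fun r => K < r ∧ ∃ z ∈ Ioc b x, r ∣ z) with hRG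
  have hsubRG : RG ⊆ Exc n l m K x ∪ pr a := by
    intro r hr
    obtain ⟨hr1, hr2, z, hz, hd⟩ := mem_filter.1 hr
    obtain ⟨hrp, hrn⟩ := mem_pr.1 hr1
    have hz1 := mem_Ioc.1 hz
    have hrx : r ≤ x := (Nat.le_of_dvd (by omega) hd).trans hz1.2
    rw [mem_union]
    by_cases hex : r ∈ Exc n l m K x
    · left; exact hex
    · right
      have hKr : (K : ℝ) < r := by exact_mod_cast hr2
      have hnr2 : n < r ^ 2 := hsq r (by linarith only [hη0, hη2, hKbig, h9_le, h98ge, hKr])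
      have hpar := parity_nonexc hc hmn K x r hrp hr2 hrx hnr2 hex
      have hV : V r b x = 1 := by
        rw [V_eq_single z hz (fun z' hz' hd' => mult_unique (by omega) hz' hz hd' hd)]
        exact factorization_eq_one hrp (by omega) hd (by omega)
      rw [hV] at hpar
      rw [mem_pr]
      refine ⟨hrp, ?_⟩
      by_contra har
      push Not at har
      rw [Nat.div_eq_of_lt har] at hpar
      exact absurd hpar (by decide)
  set lam := Real.log x - Real.log K with hlam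
  have hcardRG : (RG.card : ℝ) ≤ E * (2 + lam) + (pr a).card := by
    have h1 := (card_le_card hsubRG).trans (card_union_le _ _)
    have h2 : ((Exc n l m K x).card : ℝ) ≤ E * (2 + lam) := by
      have := hExc K x (by linarith only [hη0, hη2, hKbig, h9_le, h98ge]) (by omega) le_rfl
      rw [hlam]
      refine this.trans (le_of_eq (by ring))
    have h3 : (RG.card : ℝ) ≤ (Exc n l m K x).card + (pr a).card := by exact_mod_cast h1
    linarith only [h2, h3]
  have hElam : ℓ * (E * (2 + lam)) ≤ K * ((2 + lam) / 20) := by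
    have h1 : E * ℓ ≤ K / 20 := by
      have : η / 10 * K ≤ K / 20 := by nlinarith only [hη2]
      linarith only [hEK, this]
    have h2 : 0 ≤ 2 + lam := by linarith only [hC1pos, hη0, hη2, hlogxK]
    calc ℓ * (E * (2 + lam)) = (E * ℓ) * (2 + lam) := by ring
      _ ≤ K / 20 * (2 + lam) := mul_le_mul_of_nonneg_right h1 h2
      _ = _ := by ring
  have hmain1 : (K : ℝ) * (lam / 2 + 1) ≤ ℓ * (pr a).card := by
    have h1 : (K : ℝ) * (lam - C1) ≤ ℓ * RG.card := by
      have : (K : ℝ) * (lam - C1) =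
          K * (Real.log x - Real.log 2 - Real.log K - C) - 409 * K := by rw [hC1, hlam]; ring
      linarith only [hpiK, hlow]
    have h2 : ℓ * (RG.card : ℝ) ≤ K * ((2 + lam) / 20) + ℓ * (pr a).card := by
      have : ℓ * (RG.card : ℝ) ≤ ℓ * (E * (2 + lam) + (pr a).card) :=
        mul_le_mul_of_nonneg_left hcardRG hℓ0.le
      linarith only [hElam, this]
    have h3 : (K : ℝ) * (lam / 2 + 1) ≤ K * (lam - C1 - (2 + lam) / 20) := by
      apply mul_le_mul_of_nonneg_left _ hKpos.le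
      rw [hΛ] at hlogxK
      linarith only [hC1pos, hη0, hη2, hlogxK]
    linarith only [hpiK, hlow, h2, h3]
  have hpa : ((pr a).card : ℝ) ≤ a := by
    have : (pr a).card ≤ a := by
      calc (pr a).card ≤ (Icc 1 a).card := card_filter_le _ _
        _ = a := by simp
    exact_mod_cast this
  have haK : (K : ℝ) ≤ ℓ * a := by
    have h1 : (K : ℝ) ≤ K * (lam / 2 + 1) := by
      have : 0 ≤ lam / 2 := by linarith only [hC1pos, hη0, hη2, hlogxK]
      nlinarith only [hη0, hη2, hKbig, h98ge, hC1pos, hlogxK]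
    have h2 : ℓ * ((pr a).card : ℝ) ≤ ℓ * a := mul_le_mul_of_nonneg_left hpa hℓ0.le
    linarith only [hmain1, h1, h2]
  have ha9 : (n : ℝ) ^ (0.9 : ℝ) ≤ a := by
    have h1 : (n : ℝ) ^ (0.9 : ℝ) * ℓ ≤ a * ℓ := by linarith only [hKbig, h98_9, haK]
    exact le_of_mul_le_mul_right h1 hℓ0
  have ha0 : (0 : ℝ) < a := by linarith only [hp9, ha9]
  have haN : 0 < a := by exact_mod_cast ha0
  have hax : a ≤ x := by omega
  have hloga : 0.9 * ℓ ≤ Real.log a := by
    rw [hℓ, ← Real.log_rpow hnr]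
    exact Real.log_le_log (by positivity) ha9
  have hloga0 : 0 < Real.log a := by linarith only [hη0, hη2, hl2, hloga]
  have ha2 : 2 ≤ a := by
    have : (2 : ℝ) ≤ a := by
      have : (n : ℝ) ^ (0.8 : ℝ) ≤ (n : ℝ) ^ (0.9 : ℝ) :=
          Real.rpow_le_rpow_of_exponent_le hn1 (by norm_num)
      linarith only [hη0, hη2, h4n, ha9, this]
    exact_mod_cast this
  have hmain2 : (K : ℝ) * (lam / 2 + 1) ≤ 223 * a := by
    have := card_pr_le a ha2
    have h1 : ((pr a).card : ℝ) * Real.log a ≤ 200 * a := by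
      rwa [le_div_iff₀ hloga0] at this
    have h2 : ((pr a).card : ℝ) * (0.9 * ℓ) ≤ 200 * a :=
      (mul_le_mul_of_nonneg_left hloga (by positivity)).trans h1
    have h3 : ℓ * ((pr a).card : ℝ) ≤ 223 * a := by linarith only [hX2n, ha9, h2]
    linarith only [hX2n, hmain1, ha9, h2]
  -- Step 3
  have haX : X2 ≤ a := by
    have : (X2 : ℝ) ≤ a := by linarith only [hX2n, ha9]
    exact_mod_cast this
  have hcount2 := hX2 a haX
  set RA := (pr a).filter (fun r : ℕ => (1 - 1 / 2) * (a : ℝ) < (r : ℝ)) with hRA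
  have hloga_le : Real.log a ≤ ℓ := Real.log_le_log ha0 (by exact_mod_cast (by omega : a ≤ n))
  have hRA_low : (a : ℝ) / (4 * ℓ) ≤ RA.card := by
    calc (a : ℝ) / (4 * ℓ) ≤ a / (4 * Real.log a) := by gcongr
      _ = 1 / 2 / 2 * a / Real.log a := by field_simp; norm_num
      _ ≤ _ := hcount2
  have hupper := R0_upper hbx hxn hb2 haN hax ((n : ℝ) ^ (0.5 : ℝ)) h5n (by
      have h1 : (x : ℝ) / a ≤ (n : ℝ) ^ (0.1 : ℝ) := by
        rw [div_le_iff₀ ha0]
        calc (x : ℝ) ≤ n := by exact_mod_cast hxn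
          _ = (n : ℝ) ^ (0.1 : ℝ) * (n : ℝ) ^ (0.9 : ℝ) := by
            rw [← hpow_split]; norm_num
          _ ≤ (n : ℝ) ^ (0.1 : ℝ) * a := by gcongr
      calc 2 * (x : ℝ) / a * (n : ℝ) ^ (0.5 : ℝ) = 2 * ((x : ℝ) / a) * (n : ℝ) ^ (0.5 : ℝ) := by ring
        _ ≤ (n : ℝ) ^ (0.38 : ℝ) * (n : ℝ) ^ (0.1 : ℝ) * (n : ℝ) ^ (0.5 : ℝ) := by gcongr
        _ = (n : ℝ) ^ (0.98 : ℝ) := by rw [← hpow_split, ← hpow_split]; norm_num
        _ ≤ _ := hKbig)
    (RA \ Exc n l m (a / 2) a) (by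
      intro r hr
      obtain ⟨hr1, hr2⟩ := mem_sdiff.1 hr
      obtain ⟨hr3, hr4⟩ := mem_filter.1 hr1
      obtain ⟨hrp, hra⟩ := mem_pr.1 hr3
      have h2r : (a : ℝ) < 2 * r := by linarith only [hr4]
      have h2r' : a < 2 * r := by exact_mod_cast h2r
      have hnr2 : n < r ^ 2 := hsq r (by linarith only [ha9, hr4])
      refine ⟨hrp, hnr2, h2r', hra, ?_⟩
      have hpar := parity_nonexc hc hmn (a / 2) a r hrp (by omega) hra hnr2 hr2
      have : a / r = 1 := by
        apply Nat.div_eq_of_lt_le <;> omega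
      rw [this] at hpar
      by_contra hno
      push Not at hno
      rw [V_eq_zero hno] at hpar
      exact absurd hpar (by decide))
  have hlog5 : Real.log ((n : ℝ) ^ (0.5 : ℝ)) = 0.5 * ℓ := by
    rw [Real.log_rpow hnr]
  rw [← hKdef, hlog5] at hupper
  have hExcA : ((Exc n l m (a / 2) a).card : ℝ) ≤ E * 4 := by
    calc ((Exc n l m (a / 2) a).card : ℝ) ≤ E * (2 + Real.log a - Real.log ((a / 2 : ℕ) : ℝ)) := by
          apply hExc _ _ _ (by omega) hax
          have e1 : a ≤ 3 * (a / 2) := by omega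
          have e2 : (a : ℝ) ≤ 3 * ((a / 2 : ℕ) : ℝ) := by exact_mod_cast e1
          linarith only [ha9, e2]
      _ ≤ E * 4 := by
          apply mul_le_mul_of_nonneg_left _ hE0
          have := log_half_le a ha2
          linarith only [this]
  have hcardRA : (RA.card : ℝ) ≤ (RA \ Exc n l m (a / 2) a).card + E * 4 := by
    have h1 : RA.card ≤ (RA \ Exc n l m (a / 2) a).card + (Exc n l m (a / 2) a).card :=
      Finset.card_le_card_sdiff_add_card (s := RA) (t := Exc n l m (a / 2) a)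
    have h2 : (RA.card : ℝ) ≤ (RA \ Exc n l m (a / 2) a).card + (Exc n l m (a / 2) a).card := by
      exact_mod_cast h1
    linarith only [hExcA, h2]
  have hmain3 : (a : ℝ) ≤ 12900 * K := by
    have h1 : (a : ℝ) / (4 * ℓ) ≤ 1600 * K / (0.5 * ℓ) + E * 4 := by linarith only [hRA_low, hupper, hcardRA]
    have h2 : 1600 * (K : ℝ) / (0.5 * ℓ) + E * 4 = (12800 * K + 16 * (E * ℓ)) / (4 * ℓ) := by
      field_simp
      ring
    rw [h2] at h1
    have h3 := (div_le_div_iff_of_pos_right (show (0 : ℝ) < 4 * ℓ by linarith only [hη0, hη2, hl2])).1 h1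
    linarith only [hη0, hη2, hKbig, hEK, hηK, h98ge, h3]
  -- conclusion
  have h1 : (K : ℝ) * (lam / 2 + 1) ≤ K * (223 * 12900) := by linarith only [hmain2, hmain3]
  have h2 := le_of_mul_le_mul_left h1 hKpos
  rw [hΛ] at hlogxK
  linarith only [hC1pos, hη0, hη2, hlogxK, h2]

/-- **Regime 0**: a long second interval forces a long top interval. -/
theorem R0 (hPL : PL) : ∃ n0 : ℕ, ∀ n : ℕ, n0 ≤ n → ∀ m l x b a : ℕ, WCfg m l x b a → m ≤ n →
    (n : ℝ) ^ (0.98 : ℝ) ≤ ((x - b : ℕ) : ℝ) →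
    ((x - b : ℕ) : ℝ) ≤ ((m - l : ℕ) : ℝ) * (Real.log n) ^ 2 := by
  obtain ⟨ε, hε, n1, h1⟩ := R0gen hPL
  have hev : ∀ᶠ n : ℕ in atTop, n1 ≤ n ∧ 1 / ε ≤ Real.log n ∧ 1 ≤ Real.log n := by
    filter_upwards [eventually_ge_atTop n1, ev_log (1 / ε), ev_log 1] with n h1 h2 h3
    exact ⟨h1, h2, h3⟩
  obtain ⟨n0, hn0⟩ := eventually_atTop.1 hev
  refine ⟨n0, ?_⟩
  intro n hn m l x b a hc hmn hK
  obtain ⟨e1, e2, e3⟩ := hn0 n hn
  by_contra hcon
  push Not at hcon
  have hL0 : (0 : ℝ) ≤ ((m - l : ℕ) : ℝ) := by positivity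
  apply h1 n e1 m l x b a hc hmn hK ((m - l : ℕ) : ℝ) hL0
  · intro T X hT hTX hXx
    have h2 : ((Exc n l m T X).card : ℝ) ≤ ((m - l : ℕ) : ℝ) := by
      exact_mod_cast card_Exc n l m T X hmn
    have hT0 : (0 : ℝ) < T := by
      have hn0' : (0 : ℝ) < n := by
        by_contra h
        push Not at h
        have : (n : ℝ) = 0 := le_antisymm h (by positivity)
        rw [this] at e3
        simp at e3
        linarith only [e3]
      have : (0 : ℝ) < (n : ℝ) ^ (0.9 : ℝ) := by positivity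
      linarith
    have h3 : Real.log T ≤ Real.log X := Real.log_le_log hT0 (by exact_mod_cast hTX)
    nlinarith only [h2, h3]
  · have h4 : 1 ≤ ε * Real.log n := by
      rw [div_le_iff₀ hε] at e2
      linarith only [e2]
    have hlog0 : 0 ≤ Real.log n := by linarith only [e3]
    calc ((m - l : ℕ) : ℝ) * Real.log n ≤ ((m - l : ℕ) : ℝ) * Real.log n * (ε * Real.log n) := by
          have : 0 ≤ ((m - l : ℕ) : ℝ) * Real.log n := by positivity
          nlinarith only [h4, this]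
      _ = ε * (((m - l : ℕ) : ℝ) * (Real.log n) ^ 2) := by ring
      _ ≤ _ := by
          apply mul_le_mul_of_nonneg_left hcon.le hε.le

end Pool.Agent.Helper1.D6
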