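import Mathlib
import Pool.Agent.Helper1.D6.R0
import Pool.Agent.Helper1.D6.Upper

set_option autoImplicit false

namespace Pool.Agent.Helper1.D6

open Finset Nat Filter

/-- few exceptional primes when the top interval is long -/
theorem exc_bound {n l m T X : ℕ} (hmn : m ≤ n) (hlm : l < m) (hl2 : m ≤ 2 * l) (hXl : X ≤ l)
    (hTX : T ≤ X) (hn1 : 1 < n)
    (hT : (n : ℝ) ^ (0.9 : ℝ) / 3 ≤ T) (hL : (n : ℝ) ^ (0.985 : ℝ) ≤ ((m - l : ℕ) : ℝ))
    (h5 : (2 : ℝ) ≤ (n : ℝ) ^ (0.5 : ℝ)) (h3 : (3 : ℝ) ≤ (n : ℝ) ^ (0.385 : ℝ)) :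
    ((Exc n l m T X).card : ℝ) ≤
      800 * ((m - l : ℕ) : ℝ) / Real.log n * (2 + Real.log X - Real.log T) := by
  classical
  have hnr : (0 : ℝ) < n := by exact_mod_cast (by omega : 0 < n)
  have hℓ0 : 0 < Real.log n := Real.log_pos (by exact_mod_cast hn1)
  have hTpos : (0 : ℝ) < T := lt_of_lt_of_le (by positivity) hT
  have hTn : 0 < T := by exact_mod_cast hTpos
  have hXn : 0 < X := by omega
  have hXr : (0 : ℝ) < X := by exact_mod_cast hXn
  have hln : 0 < l := by omega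
  have hlr : (0 : ℝ) < l := by exact_mod_cast hln
  have hmr : (0 : ℝ) < m := by exact_mod_cast (by omega : 0 < m)
  set B := (Icc 1 (m / T)).filter (fun w => l ≤ X * w) with hB
  set Z := (Ioc l m).filter (fun z => ∃ w ∈ B, ∃ r, r.Prime ∧ z = r * w) with hZ
  have h1 : (Exc n l m T X).card ≤ Z.card := by
    apply card_le_of_large_primes n _ Z
    · intro r hr
      obtain ⟨⟨hrp, hrX⟩, hTr, hnr2, z, hz, hd⟩ := mem_Exc.1 hr
      refine ⟨hrp, hnr2, z, ?_, hd⟩
      obtain ⟨w, rfl⟩ := hd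
      rw [hZ, mem_filter]
      refine ⟨hz, w, ?_, r, hrp, rfl⟩
      rw [mem_Ioc] at hz
      rw [hB, mem_filter, mem_Icc]
      refine ⟨⟨?_, ?_⟩, ?_⟩
      · rcases Nat.eq_zero_or_pos w with h | h
        · subst h; omega
        · exact h
      · rw [Nat.le_div_iff_mul_le hTn]
        nlinarith [hz.2]
      · nlinarith [hz.1]
    · intro z hz
      have := mem_Ioc.1 (mem_filter.1 hz).1
      omega
  have hwA : ∀ w ∈ B, (l : ℝ) / X ≤ w ∧ (w : ℝ) ≤ m / T := by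
    intro w hw
    obtain ⟨hw1, hw2⟩ := mem_filter.1 hw
    rw [mem_Icc] at hw1
    constructor
    · rw [div_le_iff₀ hXr]
      have : (l : ℝ) ≤ X * w := by exact_mod_cast hw2
      linarith
    · rw [le_div_iff₀ hTpos]
      have := (Nat.le_div_iff_mul_le hTn).1 hw1.2
      exact_mod_cast this
  have hBb : ∀ w ∈ B, 1 ≤ w ∧ (w : ℝ) * (n : ℝ) ^ (0.5 : ℝ) ≤ ((m - l : ℕ) : ℝ) := by
    intro w hw
    refine ⟨(mem_Icc.1 (mem_filter.1 hw).1).1, ?_⟩
    have e1 : (w : ℝ) ≤ 3 * (n : ℝ) ^ (0.1 : ℝ) := by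
      refine (hwA w hw).2.trans ?_
      rw [div_le_iff₀ hTpos]
      calc (m : ℝ) ≤ n := by exact_mod_cast hmn
        _ = (n : ℝ) ^ (0.1 : ℝ) * (n : ℝ) ^ (0.9 : ℝ) := by
            rw [← Real.rpow_add hnr]; norm_num
        _ = 3 * (n : ℝ) ^ (0.1 : ℝ) * ((n : ℝ) ^ (0.9 : ℝ) / 3) := by ring
        _ ≤ 3 * (n : ℝ) ^ (0.1 : ℝ) * T := by gcongr
    calc (w : ℝ) * (n : ℝ) ^ (0.5 : ℝ) ≤ 3 * (n : ℝ) ^ (0.1 : ℝ) * (n : ℝ) ^ (0.5 : ℝ) := by gcongr
      _ ≤ (n : ℝ) ^ (0.385 : ℝ) * (n : ℝ) ^ (0.1 : ℝ) * (n : ℝ) ^ (0.5 : ℝ) := by gcongr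
      _ = (n : ℝ) ^ (0.985 : ℝ) := by rw [← Real.rpow_add hnr, ← Real.rpow_add hnr]; norm_num
      _ ≤ _ := hL
  have h2 := bt_set l (m - l) B _ h5 hBb
  have hlm' : l + (m - l) = m := by omega
  rw [hlm', Real.log_rpow hnr] at h2
  have h4 : ∑ w ∈ B, 1 / (w : ℝ) ≤ 1 + Real.log (m / T) - Real.log (l / X) := by
    apply harm_le _ _ _ _ B hwA
    · rw [le_div_iff₀ hXr, one_mul]; exact_mod_cast hXl
    · have a1 : (l : ℝ) ≤ m := by exact_mod_cast hlm.le
      have a2 : (T : ℝ) ≤ X := by exact_mod_cast hTX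
      gcongr
  rw [Real.log_div hmr.ne' hTpos.ne', Real.log_div hlr.ne' hXr.ne'] at h4
  have h6 : Real.log m ≤ Real.log 2 + Real.log l := by
    rw [← Real.log_mul (by norm_num) hlr.ne']
    exact Real.log_le_log hmr (by exact_mod_cast hl2)
  have h7 : Real.log 2 ≤ 1 := by
    have := Real.log_le_sub_one_of_pos (show (0 : ℝ) < 2 by norm_num)
    linarith
  have h8 : ∑ w ∈ B, 1 / (w : ℝ) ≤ 2 + Real.log X - Real.log T := by linarith
  calc ((Exc n l m T X).card : ℝ) ≤ Z.card := by exact_mod_cast h1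
    _ ≤ 400 * ((m - l : ℕ) : ℝ) / (0.5 * Real.log n) * ∑ w ∈ B, 1 / (w : ℝ) := by
        rw [hZ]; convert h2 using 3
    _ ≤ 400 * ((m - l : ℕ) : ℝ) / (0.5 * Real.log n) * (2 + Real.log X - Real.log T) := by
        apply mul_le_mul_of_nonneg_left h8
        positivity
    _ = _ := by
        congr 1
        field_simp
        ring

/-- the top interval is short compared with its end point -/
theorem top_short (hPL : PL) (ρ : ℝ) (hρ0 : 0 < ρ) (hρ2 : ρ ≤ 1 / 2) : ∃ X : ℕ, ∀ m l x b a : ℕ, X ≤ m →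
    WCfg m l x b a → ((m - l : ℕ) : ℝ) < ρ * m := by
  obtain ⟨X, hX⟩ := hPL ρ hρ0 hρ2
  refine ⟨max X 3, ?_⟩
  intro m l x b a hm hc
  by_contra hcon
  push Not at hcon
  obtain ⟨h1, h2, h3, h4, _⟩ := id hc
  have hcount := hX m (le_trans (le_max_left _ _) hm)
  have hm3 : 3 ≤ m := le_trans (le_max_right _ _) hm
  have hm3r : (3 : ℝ) ≤ m := by exact_mod_cast hm3
  have hpos : (0 : ℝ) < (((pr m).filter (fun r : ℕ => (1 - ρ) * m < (r : ℝ))).card : ℝ) := by
    refine lt_of_lt_of_le ?_ hcount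
    have : 0 < Real.log m := Real.log_pos (by linarith)
    positivity
  have hne : ((pr m).filter (fun r : ℕ => (1 - ρ) * m < (r : ℝ))).Nonempty := by
    rw [← Finset.card_pos]; exact_mod_cast hpos
  obtain ⟨q, hq⟩ := hne
  obtain ⟨hq1, hq2⟩ := mem_filter.1 hq
  obtain ⟨hqp, hqm⟩ := mem_pr.1 hq1
  have e1 : ((m - l : ℕ) : ℝ) = m - l := by
    rw [Nat.cast_sub h4.le]
  have hlq : l < q := by
    have : (l : ℝ) < q := by rw [e1] at hcon; nlinarith
    exact_mod_cast this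
  have h2q : m < 2 * q := by
    have : (m : ℝ) < 2 * q := by nlinarith
    exact_mod_cast this
  apply unmatched hc q (by omega) q (Or.inl (by rw [mem_Ioc]; exact ⟨hlq, hqm⟩))
  · rw [hqp.factorization_self]; exact odd_one
  · intro z hz hd
    rw [mem_Ioc] at hz
    obtain ⟨k, rfl⟩ := hd
    have hk : k = 1 := by
      have hk1 : k < 2 := by
        by_contra h
        push Not at h
        nlinarith
      have hk0 : 0 < k := by
        rcases Nat.eq_zero_or_pos k with h | h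
        · subst h; omega
        · exact h
      omega
    rw [hk, mul_one]
  · intro z hz hd
    rw [mem_Ioc] at hz
    have := Nat.le_of_dvd (by omega) hd
    omega

/-- the rational approximation -/
theorem ratio_close {l m b x K L r w v r0 w0 v0 g d v1 : ℕ} (hlm : l + L = m) (hbx : b + K = x) (hxl : x ≤ l)
    (hy : l < r * w ∧ r * w ≤ m) (hz : b < r * v ∧ r * v ≤ x)
    (hy0 : l < r0 * w0 ∧ r0 * w0 ≤ m) (hz0 : b < r0 * v0 ∧ r0 * v0 ≤ x)
    (hw0 : w0 = g * d) (hv0 : v0 = g * v1) (hl2 : m ≤ 2 * l) :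
    |(((v : ℤ) * d - (v1 : ℤ) * w : ℤ) : ℝ)| ≤ 2 * ((K : ℝ) + L) / m * d * w := by
  have hm0 : 0 < m := by omega
  have hmr : (0 : ℝ) < m := by exact_mod_cast hm0
  have hr0 : 0 < r := by
    rcases Nat.eq_zero_or_pos r with h | h
    · subst h; simp at hy
    · exact h
  have hr00 : 0 < r0 := by
    rcases Nat.eq_zero_or_pos r0 with h | h
    · subst h; simp at hy0
    · exact h
  have hg0 : 0 < g := by
    rcases Nat.eq_zero_or_pos g with h | h
    · subst h; subst hw0; simp at hy0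
    · exact h
  have hrr : (0 : ℝ) < r := by exact_mod_cast hr0
  have hr0r : (0 : ℝ) < r0 := by exact_mod_cast hr00
  have hgr : (0 : ℝ) < g := by exact_mod_cast hg0
  have hL : (m : ℝ) = l + L := by exact_mod_cast hlm.symm
  have hK : (x : ℝ) = b + K := by exact_mod_cast hbx.symm
  have hy1 : (l : ℝ) < r * w := by exact_mod_cast hy.1
  have hy2 : (r : ℝ) * w ≤ m := by exact_mod_cast hy.2
  have hz1 : (b : ℝ) < r * v := by exact_mod_cast hz.1
  have hz2 : (r : ℝ) * v ≤ x := by exact_mod_cast hz.2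
  have hy01 : (l : ℝ) < r0 * (g * d) := by
    have := hy0.1; rw [hw0] at this; exact_mod_cast this
  have hy02 : (r0 : ℝ) * (g * d) ≤ m := by
    have := hy0.2; rw [hw0] at this; exact_mod_cast this
  have hz01 : (b : ℝ) < r0 * (g * v1) := by
    have := hz0.1; rw [hv0] at this; exact_mod_cast this
  have hz02 : (r0 : ℝ) * (g * v1) ≤ x := by
    have := hz0.2; rw [hv0] at this; exact_mod_cast this
  have hxl' : (x : ℝ) ≤ l := by exact_mod_cast hxl
  have hl2' : (m : ℝ) ≤ 2 * l := by exact_mod_cast hl2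
  have hK0 : (0 : ℝ) ≤ K := by positivity
  have hL0 : (0 : ℝ) ≤ L := by positivity
  push_cast
  -- multiply by r * r0 * g
  set Yy : ℝ := r * w with hYy
  set Zz : ℝ := r * v with hZz
  set Y0 : ℝ := r0 * (g * d) with hY0
  set Z0 : ℝ := r0 * (g * v1) with hZ0
  have hYpos : 0 < Yy := by linarith [show (0 : ℝ) ≤ l from by positivity]
  have hY0pos : 0 < Y0 := by linarith [show (0 : ℝ) ≤ l from by positivity]
  have key : |Zz * Y0 - Z0 * Yy| ≤ (K + L) * Y0 := by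
    have e1 : |Zz - Z0| ≤ K := by rw [abs_le]; constructor <;> linarith
    have e2 : |Y0 - Yy| ≤ L := by rw [abs_le]; constructor <;> linarith
    have e3 : Zz * Y0 - Z0 * Yy = (Zz - Z0) * Y0 + Z0 * (Y0 - Yy) := by ring
    have hZ0nn : 0 ≤ Z0 := by positivity
    have hZ0Y0 : Z0 ≤ Y0 := by linarith
    calc |Zz * Y0 - Z0 * Yy| = |(Zz - Z0) * Y0 + Z0 * (Y0 - Yy)| := by rw [e3]
      _ ≤ |(Zz - Z0) * Y0| + |Z0 * (Y0 - Yy)| := abs_add_le _ _
      _ = |Zz - Z0| * Y0 + Z0 * |Y0 - Yy| := by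
          rw [abs_mul (Zz - Z0) Y0, abs_mul Z0 (Y0 - Yy), abs_of_pos hY0pos, abs_of_nonneg hZ0nn]
      _ ≤ K * Y0 + Y0 * L := by gcongr
      _ = (K + L) * Y0 := by ring
  have e4 : Zz * Y0 - Z0 * Yy = (r * r0 * g) * ((v : ℝ) * d - v1 * w) := by
    rw [hZz, hY0, hZ0, hYy]; ring
  rw [e4, abs_mul, abs_of_pos (by positivity)] at key
  have hfin : |(v : ℝ) * d - v1 * w| * m ≤ 2 * ((K : ℝ) + L) * d * w := by
    have e5 : (r * r0 * g) * (|(v : ℝ) * d - v1 * w| * m) ≤ (r * r0 * g) * (2 * ((K : ℝ) + L) * d * w) := by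
      calc (r * r0 * g) * (|(v : ℝ) * d - v1 * w| * m) = ((r * r0 * g) * |(v : ℝ) * d - v1 * w|) * m := by ring
        _ ≤ ((K + L) * Y0) * m := by gcongr
        _ ≤ ((K + L) * Y0) * (2 * Yy) := by
            apply mul_le_mul_of_nonneg_left (by linarith)
            positivity
        _ = (r * r0 * g) * (2 * ((K : ℝ) + L) * d * w) := by rw [hY0, hYy]; ring
    exact le_of_mul_le_mul_left e5 (by positivity)
  rw [div_mul_eq_mul_div, div_mul_eq_mul_div, le_div_iff₀ hmr]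
  exact hfin

end Pool.Agent.Helper1.D6
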