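import Mathlib
import Pool.Agent.Helper1.D6.R7a

set_option autoImplicit false

namespace Pool.Agent.Helper1.D6

open Finset Nat Filter

set_option maxHeartbeats 4000000 in
/-- preliminary bounds in regime 7 -/
theorem R7_prelim (hPL : PL) : ∃ C1 : ℝ, 1 ≤ C1 ∧ ∃ C2 : ℝ, 1 ≤ C2 ∧ ∃ n0 : ℕ, ∀ n : ℕ, n0 ≤ n →
    ∀ m l x b a : ℕ, WCfg m l x b a → m ≤ n → n < 2 * m →
    (n : ℝ) ^ (0.99 : ℝ) < ((x - b : ℕ) : ℝ) + ((m - l : ℕ) : ℝ) →
    (n : ℝ) ^ (0.985 : ℝ) ≤ ((m - l : ℕ) : ℝ) ∧ m ≤ 2 * l ∧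
      ((x - b : ℕ) : ℝ) ≤ C1 * ((m - l : ℕ) : ℝ) ∧ (a : ℝ) ≤ C2 * ((m - l : ℕ) : ℝ) := by
  classical
  obtain ⟨ε, hε, n1, hgen⟩ := R0gen hPL
  obtain ⟨n2, hR0⟩ := R0 hPL
  obtain ⟨X1, hX1⟩ := top_short hPL (1 / 2) (by norm_num) le_rfl
  obtain ⟨X2, hX2⟩ := hPL (1 / 2) (by norm_num) le_rfl
  refine ⟨800 / ε + 1, by have : 0 < 800 / ε := by positivity
                          linarith, 12804 * (1 + (800 / ε + 1)), ?_, ?_⟩
  · have : 0 < 800 / ε := by positivity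
    linarith
  have hev : ∀ᶠ n : ℕ in atTop, 16 ≤ n ∧ n1 ≤ n ∧ n2 ≤ n ∧ 2 * X1 + 1 ≤ n ∧ 2 ≤ Real.log n ∧
      (X2 : ℝ) ≤ (n : ℝ) ^ (0.9 : ℝ) ∧ (4 : ℝ) ≤ (n : ℝ) ^ (0.8 : ℝ) ∧
      2 * (Real.log n) ^ 2 ≤ (n : ℝ) ^ (0.005 : ℝ) ∧ 1 * (Real.log n) ^ 1 ≤ (n : ℝ) ^ (0.005 : ℝ) ∧
      (2 : ℝ) ≤ (n : ℝ) ^ (0.38 : ℝ) ∧ (2 : ℝ) ≤ (n : ℝ) ^ (0.5 : ℝ) ∧
      (3 : ℝ) ≤ (n : ℝ) ^ (0.385 : ℝ) := by
    filter_upwards [eventually_ge_atTop 16, eventually_ge_atTop n1, eventually_ge_atTop n2,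
      eventually_ge_atTop (2 * X1 + 1), ev_log 2,
      ev_const X2 0.9 (by norm_num), ev_const 4 0.8 (by norm_num),
      ev_pow 2 2 0.005 (by norm_num), ev_pow 1 1 0.005 (by norm_num), ev_const 2 0.38 (by norm_num),
      ev_const 2 0.5 (by norm_num), ev_const 3 0.385 (by norm_num)]
      with n h1 h2 h3 h4 h5 h6 h7 h8 h9 h10 h11 h12
    exact ⟨h1, h2, h3, h4, h5, h6, h7, h8, h9, h10, h11, h12⟩
  obtain ⟨n0, hn0⟩ := eventually_atTop.1 hev
  refine ⟨n0, ?_⟩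
  intro n hn m l x b a hc hmn hnm hbig
  obtain ⟨hn16, hn1, hn2, hnX1, hl2, hX2n, h4n, hln2, hln1, h38, h5n, h385⟩ := hn0 n hn
  obtain ⟨hab, hbx0, hxl, hlm, _⟩ := id hc
  set K := x - b with hKdef
  set L := m - l with hLdef
  set ℓ := Real.log n with hℓ
  have hnr : (0 : ℝ) < n := by exact_mod_cast (by omega : 0 < n)
  have hn1r : (1 : ℝ) ≤ n := by exact_mod_cast (by omega : 1 ≤ n)
  have hℓ0 : 0 < ℓ := by linarith only [hl2]
  have hpow_split : ∀ s t : ℝ, (n : ℝ) ^ (s + t) = (n : ℝ) ^ s * (n : ℝ) ^ t := fun s t => Real.rpow_add hnr s t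
  have hL0 : (0 : ℝ) ≤ L := by positivity
  have hK0 : (0 : ℝ) ≤ K := by positivity
  have h985 : (0 : ℝ) < (n : ℝ) ^ (0.985 : ℝ) := by positivity
  have h98 : (0 : ℝ) < (n : ℝ) ^ (0.98 : ℝ) := by positivity
  have h98ℓ : (n : ℝ) ^ (0.98 : ℝ) * ℓ ≤ (n : ℝ) ^ (0.985 : ℝ) := by
    rw [show (0.985 : ℝ) = 0.98 + 0.005 by norm_num, hpow_split]
    apply mul_le_mul_of_nonneg_left _ (by positivity)
    simpa using hln1
  have h98_985 : (n : ℝ) ^ (0.98 : ℝ) ≤ (n : ℝ) ^ (0.985 : ℝ) := by nlinarith only [h985, h98ℓ, hl2, h98]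
  have h99 : (n : ℝ) ^ (0.985 : ℝ) * (2 * ℓ ^ 2) ≤ (n : ℝ) ^ (0.99 : ℝ) := by
    rw [show (0.99 : ℝ) = 0.985 + 0.005 by norm_num, hpow_split]
    apply mul_le_mul_of_nonneg_left hln2 (by positivity)
  have hℓ2 : 4 ≤ ℓ ^ 2 := by nlinarith only [hl2]
  -- L is large
  have hLbig : (n : ℝ) ^ (0.985 : ℝ) ≤ L := by
    by_cases hK : (n : ℝ) ^ (0.98 : ℝ) ≤ K
    · have h1 := hR0 n hn2 m l x b a hc hmn hK
      rw [← hKdef, ← hLdef, ← hℓ] at h1
      have h2 : (n : ℝ) ^ (0.985 : ℝ) * (2 * ℓ ^ 2) ≤ L * (2 * ℓ ^ 2) := by nlinarith only [hbig, h98, h99, hK, h1, hℓ2]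
      exact le_of_mul_le_mul_right h2 (by positivity)
    · push Not at hK
      have : (n : ℝ) ^ (0.985 : ℝ) * 8 ≤ (n : ℝ) ^ (0.985 : ℝ) * (2 * ℓ ^ 2) := by
        apply mul_le_mul_of_nonneg_left (by linarith only [hℓ2]) h985.le
      linarith only [hbig, h985, h98_985, h99, hK, this]
  have hL98 : (n : ℝ) ^ (0.98 : ℝ) ≤ L := h98_985.trans hLbig
  -- m ≤ 2 l
  have hm2l : m ≤ 2 * l := by
    have h1 := hX1 m l x b a (by omega) hc
    have h2 : ((m - l : ℕ) : ℝ) = m - l := Nat.cast_sub hlm.le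
    rw [h2] at h1
    have : (m : ℝ) < 2 * l := by linarith only [h1]
    exact_mod_cast this.le
  have hexc : ∀ T X : ℕ, (n : ℝ) ^ (0.9 : ℝ) / 3 ≤ T → T ≤ X → X ≤ x →
      ((Exc n l m T X).card : ℝ) ≤ 800 * (L : ℝ) / ℓ * (2 + Real.log X - Real.log T) := by
    intro T X hT hTX hXx
    exact exc_bound hmn hlm hm2l (by omega) hTX (by omega) hT hLbig h5n h385
  -- K ≤ C1 L
  set C1 := 800 / ε + 1 with hC1
  have hC1pos : 1 ≤ C1 := by
    have : 0 < 800 / ε := by positivity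
    linarith only [this]
  have hKL : (K : ℝ) ≤ C1 * L := by
    by_contra hcon
    push Not at hcon
    by_cases hK : (n : ℝ) ^ (0.98 : ℝ) ≤ K
    · apply hgen n hn1 m l x b a hc hmn hK (800 * (L : ℝ) / ℓ) (by positivity) hexc
      rw [div_mul_cancel₀ _ hℓ0.ne']
      have h1 : 800 / ε * L ≤ K := by linarith only [h985, hLbig, hcon]
      have h2 : ε * (800 / ε * L) ≤ ε * K := mul_le_mul_of_nonneg_left h1 hε.le
      have h3 : ε * (800 / ε * L) = 800 * L := by field_simp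
      linarith only [h2, h3]
    · push Not at hK
      nlinarith only [h98_985, hLbig, hcon, hK, hC1pos]
  refine ⟨hLbig, hm2l, hKL, ?_⟩
  -- a ≤ C2 L
  have hp9 : (0 : ℝ) < (n : ℝ) ^ (0.9 : ℝ) := by positivity
  by_cases ha9 : (a : ℝ) < (n : ℝ) ^ (0.9 : ℝ)
  · have h1 : (n : ℝ) ^ (0.9 : ℝ) ≤ (n : ℝ) ^ (0.985 : ℝ) :=
      Real.rpow_le_rpow_of_exponent_le hn1r (by norm_num)
    have h2 : (a : ℝ) ≤ L := by linarith only [hLbig, ha9, h1]
    linarith only [h985, hLbig, hKL, ha9, h1]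
  push Not at ha9
  have hsq : ∀ r : ℕ, (n : ℝ) ^ (0.9 : ℝ) / 2 < (r : ℝ) → n < r ^ 2 := fun r hr =>
    sq_gt_of_gt_half hn16 hr h4n
  have ha0 : (0 : ℝ) < a := by linarith only [hp9, ha9]
  have haN : 0 < a := by exact_mod_cast ha0
  have hax : a ≤ x := by omega
  have hxn : x ≤ n := by omega
  have ha2 : 2 ≤ a := by
    have : (2 : ℝ) ≤ a := by
      have : (n : ℝ) ^ (0.8 : ℝ) ≤ (n : ℝ) ^ (0.9 : ℝ) :=
          Real.rpow_le_rpow_of_exponent_le hn1r (by norm_num)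
      linarith only [h4n, ha9, this]
    exact_mod_cast this
  by_cases hb2 : x ≤ 2 * b
  swap
  · push Not at hb2
    have h1 : (x : ℝ) ≤ 2 * K := by
      have : x ≤ 2 * K := by omega
      exact_mod_cast this
    have h2 : (a : ℝ) ≤ x := by exact_mod_cast hax
    have h3 : (a : ℝ) ≤ 2 * (C1 * L) := by linarith only [hKL, h1, h2]
    linarith only [h985, hLbig, hKL, hp9, ha9, h1, h2]
  have haX : X2 ≤ a := by
    have : (X2 : ℝ) ≤ a := by linarith only [hX2n, ha9]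
    exact_mod_cast this
  have hcount2 := hX2 a haX
  set RA := (pr a).filter (fun r : ℕ => (1 - 1 / 2) * (a : ℝ) < (r : ℝ)) with hRA
  have hloga_le : Real.log a ≤ ℓ := Real.log_le_log ha0 (by exact_mod_cast (by omega : a ≤ n))
  have ha1 : (1 : ℝ) < a := by
    have : (2 : ℝ) ≤ a := by exact_mod_cast ha2
    linarith only [this]
  have hloga0 : 0 < Real.log a := Real.log_pos ha1
  have hRA_low : (a : ℝ) / (4 * ℓ) ≤ RA.card := by
    calc (a : ℝ) / (4 * ℓ) ≤ a / (4 * Real.log a) := by gcongr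
      _ = 1 / 2 / 2 * a / Real.log a := by field_simp; norm_num
      _ ≤ _ := hcount2
  have hRS : ∀ r ∈ RA \ Exc n l m (a / 2) a, r.Prime ∧ n < r ^ 2 ∧ a < 2 * r ∧ r ≤ a ∧
      ∃ z ∈ Ioc b x, r ∣ z := by
    intro r hr
    obtain ⟨hr1, hr2⟩ := mem_sdiff.1 hr
    obtain ⟨hr3, hr4⟩ := mem_filter.1 hr1
    obtain ⟨hrp, hra⟩ := mem_pr.1 hr3
    have h2r : (a : ℝ) < 2 * r := by linarith only [hr4]
    have h2r' : a < 2 * r := by exact_mod_cast h2r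
    have hnr2 : n < r ^ 2 := hsq r (by linarith only [ha9, hr4])
    refine ⟨hrp, hnr2, h2r', hra, ?_⟩
    have hpar := parity_nonexc hc hmn (a / 2) a r hrp (by omega) hra hnr2 hr2
    have : a / r = 1 := by
      apply Nat.div_eq_of_lt_le <;> omega
    rw [this] at hpar
    by_contra hno
    push Not at hno
    rw [V_eq_zero hno] at hpar
    exact absurd hpar (by decide)
  have hExcA : ((Exc n l m (a / 2) a).card : ℝ) ≤ 800 * (L : ℝ) / ℓ * 4 := by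
    calc ((Exc n l m (a / 2) a).card : ℝ) ≤
          800 * (L : ℝ) / ℓ * (2 + Real.log a - Real.log ((a / 2 : ℕ) : ℝ)) := by
          apply hexc _ _ _ (by omega) hax
          have e1 : a ≤ 3 * (a / 2) := by omega
          have e2 : (a : ℝ) ≤ 3 * ((a / 2 : ℕ) : ℝ) := by exact_mod_cast e1
          linarith only [ha9, e2]
      _ ≤ 800 * (L : ℝ) / ℓ * 4 := by
          apply mul_le_mul_of_nonneg_left _ (by positivity)
          have := log_half_le a ha2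
          linarith only [this]
  have hcardRA : (RA.card : ℝ) ≤ (RA \ Exc n l m (a / 2) a).card + 800 * (L : ℝ) / ℓ * 4 := by
    have h1 : RA.card ≤ (RA \ Exc n l m (a / 2) a).card + (Exc n l m (a / 2) a).card :=
      Finset.card_le_card_sdiff_add_card (s := RA) (t := Exc n l m (a / 2) a)
    have h2 : (RA.card : ℝ) ≤ (RA \ Exc n l m (a / 2) a).card + (Exc n l m (a / 2) a).card := by
      exact_mod_cast h1
    linarith only [hExcA, h2]
  have hfin : ((RA \ Exc n l m (a / 2) a).card : ℝ) ≤ (3200 * C1 + 1) * L / ℓ := by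
    by_cases hK : (n : ℝ) ^ (0.98 : ℝ) ≤ K
    · have hKpos : (0 : ℝ) < K := by linarith only [h98, hK]
      have hKn : 0 < K := by exact_mod_cast hKpos
      have hbx : b < x := by omega
      have hupper := R0_upper hbx hxn hb2 haN hax ((n : ℝ) ^ (0.5 : ℝ)) h5n (by
        have h1 : (x : ℝ) / a ≤ (n : ℝ) ^ (0.1 : ℝ) := by
          rw [div_le_iff₀ ha0]
          calc (x : ℝ) ≤ n := by exact_mod_cast hxn
            _ = (n : ℝ) ^ (0.1 : ℝ) * (n : ℝ) ^ (0.9 : ℝ) := by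
              rw [← hpow_split]; norm_num
            _ ≤ (n : ℝ) ^ (0.1 : ℝ) * a := by gcongr
        calc 2 * (x : ℝ) / a * (n : ℝ) ^ (0.5 : ℝ) = 2 * ((x : ℝ) / a) * (n : ℝ) ^ (0.5 : ℝ) := by ring
          _ ≤ (n : ℝ) ^ (0.38 : ℝ) * (n : ℝ) ^ (0.1 : ℝ) * (n : ℝ) ^ (0.5 : ℝ) := by gcongr
          _ = (n : ℝ) ^ (0.98 : ℝ) := by rw [← hpow_split, ← hpow_split]; norm_num
          _ ≤ _ := hK)
        (RA \ Exc n l m (a / 2) a) hRS
      rw [← hKdef, Real.log_rpow hnr, ← hℓ] at hupper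
      refine hupper.trans ?_
      rw [div_le_div_iff₀ (by positivity) hℓ0]
      linarith only [hKL, hℓ0, hL0, mul_le_mul_of_nonneg_right hKL hℓ0.le, mul_nonneg hL0 hℓ0.le]
    · push Not at hK
      have h1 : ((RA \ Exc n l m (a / 2) a).card : ℝ) ≤ K := by
        have := card_le_of_large_primes n (RA \ Exc n l m (a / 2) a) (Ioc b x)
          (fun r hr => ⟨(hRS r hr).1, (hRS r hr).2.1, (hRS r hr).2.2.2.2⟩)
          (fun z hz => by rw [mem_Ioc] at hz; omega)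
        rw [Nat.card_Ioc] at this
        exact_mod_cast this
      rw [le_div_iff₀ hℓ0]
      have h2 : (K : ℝ) * ℓ ≤ L := by nlinarith only [h98ℓ, hLbig, hK, hl2]
      nlinarith only [h98ℓ, hLbig, hK, h1, hC1pos, hl2, h98]
  have h1 : (a : ℝ) / (4 * ℓ) ≤ (3200 * C1 + 1) * L / ℓ + 800 * (L : ℝ) / ℓ * 4 := by linarith only [hRA_low, hcardRA, hfin]
  have h2 : (3200 * C1 + 1) * (L : ℝ) / ℓ + 800 * (L : ℝ) / ℓ * 4 =
      (12800 * C1 + 12804) * L / (4 * ℓ) := by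
    field_simp
    ring
  rw [h2] at h1
  have h3 := (div_le_div_iff_of_pos_right (show (0 : ℝ) < 4 * ℓ by linarith only [hl2])).1 h1
  linarith only [hKL, h3]

end Pool.Agent.Helper1.D6
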