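import Mathlib
import Pool.Agent.Helper1.D6.Cheb
import Pool.Agent.Helper1.D6.Upper

set_option autoImplicit false

namespace Pool.Agent.Helper1.D6

open Finset Nat Filter

open Classical in
/-- the set of elements of the top interval with a very large prime factor -/
noncomputable def YS (l m M0 : ℕ) : Finset ℕ :=
  (Ioc l m).filter (fun z => ∃ r, r.Prime ∧ M0 < r ∧ r ∣ z)

theorem mem_YS {l m M0 z : ℕ} : z ∈ YS l m M0 ↔ (l < z ∧ z ≤ m) ∧ ∃ r, r.Prime ∧ M0 < r ∧ r ∣ z := by
  classical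
  unfold YS
  rw [mem_filter, mem_Ioc]

/-- lower bound for the number of elements with a very large prime factor -/
theorem YS_lower (C : ℝ) (hC : ∀ t : ℕ, 1 ≤ t →
    ∑ r ∈ pr t, Real.log r / ((r : ℝ) - 1) ≤ Real.log t + C)
    {n l m L C3 : ℕ} (hmn : m ≤ n) (hlm : l + L = m) (hl2 : m ≤ 2 * l) (hC3 : 1 ≤ C3)
    (hM0 : C3 * L ≤ l) (hn1 : 1 < n) (hL2 : 2 ≤ L)
    (hL : (n : ℝ) ^ (0.985 : ℝ) ≤ (L : ℝ)) (h5 : (2 : ℝ) ≤ (n : ℝ) ^ (0.5 : ℝ)) :
    (L : ℝ) * (Real.log m - Real.log L - C - 410 - 800 * (2 + Real.log C3)) ≤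
      Real.log n * (YS l m (C3 * L)).card := by
  classical
  have hnr : (0 : ℝ) < n := by exact_mod_cast (by omega : 0 < n)
  have hn1r : (1 : ℝ) ≤ n := by exact_mod_cast (by omega : 1 ≤ n)
  have hℓ0 : 0 < Real.log n := Real.log_pos (by exact_mod_cast hn1)
  have hLr : (0 : ℝ) < L := by exact_mod_cast (by omega : 0 < L)
  have hl0 : 0 < l := by nlinarith
  have hlr : (0 : ℝ) < l := by exact_mod_cast hl0
  have hmr : (0 : ℝ) < m := by exact_mod_cast (by omega : 0 < m)
  have hC3r : (1 : ℝ) ≤ C3 := by exact_mod_cast hC3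
  have h1 := cheb_interval C hC m l L 1 (by norm_num) (by omega) (by omega)
  rw [hlm] at h1
  have hlogm2 : Real.log m ≤ Real.log 2 + Real.log l := by
    rw [← Real.log_mul (by norm_num) hlr.ne']
    exact Real.log_le_log hmr (by exact_mod_cast hl2)
  have hlog2 : Real.log 2 ≤ 1 := by
    have := Real.log_le_sub_one_of_pos (show (0 : ℝ) < 2 by norm_num)
    linarith
  have h2 : (L : ℝ) * (Real.log m - 1) ≤
      ∑ z ∈ (Ioc l m).filter (fun z => Nat.Coprime z 1), Real.log z := by
    have e : (Ioc l m).filter (fun z => Nat.Coprime z 1) = Ioc l m := by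
      apply Finset.filter_true_of_mem
      intro z _
      exact Nat.coprime_one_right z
    rw [e]
    calc (L : ℝ) * (Real.log m - 1) = ∑ z ∈ Ioc l m, (Real.log m - 1) := by
          rw [Finset.sum_const, Nat.card_Ioc, nsmul_eq_mul]
          congr 2
          omega
      _ ≤ _ := by
        apply Finset.sum_le_sum
        intro z hz
        rw [mem_Ioc] at hz
        have : Real.log l ≤ Real.log z := Real.log_le_log hlr (by exact_mod_cast hz.1.le)
        linarith
  have h5' : ((Nat.totient 1 : ℕ) : ℝ) / ((1 : ℕ) : ℝ) = 1 := by simp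
  rw [h5', Nat.totient_one] at h1
  -- the filter set
  set Y' := (Ioc l m).filter (fun z => ∃ r, r.Prime ∧ L < r ∧ r ∣ z) with hY'
  have e1 : (Ioc l m).filter (fun z => Nat.Coprime z 1 ∧ ∃ r, r.Prime ∧ L < r ∧ r ∣ z) = Y' := by
    apply Finset.filter_congr
    intro z _
    simp
  rw [e1] at h1
  push_cast at h1
  have hlogmn : Real.log m ≤ Real.log n := Real.log_le_log hmr (by exact_mod_cast hmn)
  have hlogL : 0.985 * Real.log n ≤ Real.log L := by
    rw [← Real.log_rpow hnr]
    exact Real.log_le_log (by positivity) hL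
  have hpiL : 2 * ((pr L).card : ℝ) * Real.log m ≤ 409 * L := by
    have := card_pr_le L hL2
    have h1 : ((pr L).card : ℝ) * Real.log L ≤ 200 * L := by
      rwa [le_div_iff₀ (by linarith)] at this
    have h2 : ((pr L).card : ℝ) * (0.985 * Real.log n) ≤ 200 * L :=
      (mul_le_mul_of_nonneg_left hlogL (by positivity)).trans h1
    have h3 : ((pr L).card : ℝ) * Real.log m ≤ ((pr L).card : ℝ) * Real.log n :=
      mul_le_mul_of_nonneg_left hlogmn (by positivity)
    nlinarith
  have h3 : (L : ℝ) * (Real.log m - Real.log L - C - 410) ≤ Real.log n * Y'.card := by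
    have : Real.log m * (Y'.card : ℝ) ≤ Real.log n * Y'.card :=
      mul_le_mul_of_nonneg_right hlogmn (by positivity)
    nlinarith [h2.trans h1]
  -- intermediate primes
  set B := (Icc 1 (m / L)).filter (fun w => l ≤ (C3 * L) * w) with hB
  set Z := (Ioc l m).filter (fun z => ∃ w ∈ B, ∃ r, r.Prime ∧ z = r * w) with hZ
  have hsub : Y' ⊆ YS l m (C3 * L) ∪ Z := by
    intro z hz
    obtain ⟨hz1, r, hrp, hLr', hd⟩ := mem_filter.1 hz
    rw [mem_union]
    by_cases hM : C3 * L < r
    · left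
      exact mem_YS.2 ⟨mem_Ioc.1 hz1, r, hrp, hM, hd⟩
    · right
      push Not at hM
      obtain ⟨w, rfl⟩ := hd
      rw [hZ, mem_filter]
      refine ⟨hz1, w, ?_, r, hrp, rfl⟩
      rw [mem_Ioc] at hz1
      rw [hB, mem_filter, mem_Icc]
      refine ⟨⟨?_, ?_⟩, ?_⟩
      · rcases Nat.eq_zero_or_pos w with h | h
        · subst h; omega
        · exact h
      · rw [Nat.le_div_iff_mul_le (by omega)]
        nlinarith [hz1.2]
      · nlinarith [hz1.1]
  have hM0r : (0 : ℝ) < ((C3 * L : ℕ) : ℝ) := by push_cast; positivity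
  have hwA : ∀ w ∈ B, (l : ℝ) / ((C3 * L : ℕ) : ℝ) ≤ w ∧ (w : ℝ) ≤ m / L := by
    intro w hw
    obtain ⟨hw1, hw2⟩ := mem_filter.1 hw
    rw [mem_Icc] at hw1
    constructor
    · rw [div_le_iff₀ hM0r]
      have : (l : ℝ) ≤ ((C3 * L : ℕ) : ℝ) * w := by exact_mod_cast hw2
      linarith
    · rw [le_div_iff₀ hLr]
      have := (Nat.le_div_iff_mul_le (by omega)).1 hw1.2
      exact_mod_cast this
  have hBb : ∀ w ∈ B, 1 ≤ w ∧ (w : ℝ) * (n : ℝ) ^ (0.5 : ℝ) ≤ (L : ℝ) := by
    intro w hw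
    refine ⟨(mem_Icc.1 (mem_filter.1 hw).1).1, ?_⟩
    have e1 : (w : ℝ) ≤ (n : ℝ) ^ (0.015 : ℝ) := by
      refine (hwA w hw).2.trans ?_
      rw [div_le_iff₀ hLr]
      calc (m : ℝ) ≤ n := by exact_mod_cast hmn
        _ = (n : ℝ) ^ (0.015 : ℝ) * (n : ℝ) ^ (0.985 : ℝ) := by
            rw [← Real.rpow_add hnr]; norm_num
        _ ≤ (n : ℝ) ^ (0.015 : ℝ) * L := by gcongr
    calc (w : ℝ) * (n : ℝ) ^ (0.5 : ℝ) ≤ (n : ℝ) ^ (0.015 : ℝ) * (n : ℝ) ^ (0.5 : ℝ) := by gcongr
      _ = (n : ℝ) ^ (0.515 : ℝ) := by rw [← Real.rpow_add hnr]; norm_num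
      _ ≤ (n : ℝ) ^ (0.985 : ℝ) := Real.rpow_le_rpow_of_exponent_le hn1r (by norm_num)
      _ ≤ _ := hL
  have h6 := bt_set l L B _ h5 hBb
  rw [hlm, Real.log_rpow hnr] at h6
  have h7 : ∑ w ∈ B, 1 / (w : ℝ) ≤ 1 + Real.log (m / L) - Real.log (l / ((C3 * L : ℕ) : ℝ)) := by
    apply harm_le _ _ _ _ B hwA
    · rw [le_div_iff₀ hM0r, one_mul]; exact_mod_cast hM0
    · have a1 : (l : ℝ) ≤ m := by exact_mod_cast (by omega : l ≤ m)
      have a2 : (L : ℝ) ≤ ((C3 * L : ℕ) : ℝ) := by exact_mod_cast Nat.le_mul_of_pos_left L (by omega)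
      gcongr
  rw [Real.log_div hmr.ne' hLr.ne', Real.log_div hlr.ne' hM0r.ne'] at h7
  push_cast at h7
  rw [Real.log_mul (by linarith) hLr.ne'] at h7
  have h8 : ∑ w ∈ B, 1 / (w : ℝ) ≤ 2 + Real.log C3 := by linarith
  have h9 : (Z.card : ℝ) ≤ 400 * (L : ℝ) / (0.5 * Real.log n) * (2 + Real.log C3) := by
    calc (Z.card : ℝ) ≤ 400 * (L : ℝ) / (0.5 * Real.log n) * ∑ w ∈ B, 1 / (w : ℝ) := by
          rw [hZ]; convert h6 using 3
      _ ≤ _ := by
        apply mul_le_mul_of_nonneg_left h8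
        positivity
  have h10 : Real.log n * (Z.card : ℝ) ≤ 800 * L * (2 + Real.log C3) := by
    calc Real.log n * (Z.card : ℝ) ≤
        Real.log n * (400 * (L : ℝ) / (0.5 * Real.log n) * (2 + Real.log C3)) :=
          mul_le_mul_of_nonneg_left h9 hℓ0.le
      _ = _ := by field_simp; ring
  have h11 : (Y'.card : ℝ) ≤ (YS l m (C3 * L)).card + Z.card := by
    exact_mod_cast (card_le_card hsub).trans (card_union_le _ _)
  have h12 : Real.log n * (Y'.card : ℝ) ≤ Real.log n * ((YS l m (C3 * L)).card + Z.card) :=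
    mul_le_mul_of_nonneg_left h11 hℓ0.le
  have e2 : (L : ℝ) * (Real.log m - Real.log L - C - 410 - 800 * (2 + Real.log C3)) =
      (L : ℝ) * (Real.log m - Real.log L - C - 410) - 800 * L * (2 + Real.log C3) := by ring
  rw [e2]
  linarith

/-- elements divisible by `d` -/
theorem YS_div (Cu : ℝ) (hCu0 : 0 ≤ Cu) (hCu : ∀ y h T : ℕ, 1 ≤ h → h ≤ T →
    ((YS y (y + h) T).card : ℝ) * Real.log T ≤ h * (Real.log ((y + h : ℕ) : ℝ) - Real.log h + Cu))
    {n l m L M0 d : ℕ} (hn1 : 1 < n) (hlm : l + L = m) (hd2 : 2 ≤ d) (hdL : 2 * d ≤ L)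
    (hLM : L ≤ M0) (hL100 : 100 ≤ L) (hLm : L ≤ l)
    (hL : (n : ℝ) ^ (0.985 : ℝ) ≤ (L : ℝ)) (T : Finset ℕ)
    (hT : ∀ y ∈ T, (l < y ∧ y ≤ m) ∧ ∃ r w, r.Prime ∧ M0 < r ∧ y = r * w ∧ d ∣ w) :
    Real.log n * (T.card : ℝ) ≤ 0.52 * L * (Real.log m - Real.log L + 1 + Cu) := by
  classical
  have hnr : (0 : ℝ) < n := by exact_mod_cast (by omega : 0 < n)
  have hℓ0 : 0 < Real.log n := Real.log_pos (by exact_mod_cast hn1)
  have hLr : (0 : ℝ) < L := by exact_mod_cast (by omega : 0 < L)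
  have hmr : (0 : ℝ) < m := by exact_mod_cast (by omega : 0 < m)
  have hdr : (0 : ℝ) < d := by exact_mod_cast (by omega : 0 < d)
  have hL100r : (100 : ℝ) ≤ L := by exact_mod_cast hL100
  have hlogmL : Real.log L ≤ Real.log m := Real.log_le_log hLr (by exact_mod_cast (by omega : L ≤ m))
  have hnn : 0 ≤ 0.52 * (L : ℝ) * (Real.log m - Real.log L + 1 + Cu) := by
    apply mul_nonneg (by positivity)
    linarith
  -- map y ↦ y / d
  have h1 : T.card ≤ (YS (l / d) (m / d) M0).card := by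
    apply Finset.card_le_card_of_injOn (fun y => y / d)
    · intro y hy
      obtain ⟨⟨hy1, hy2⟩, r, w, hrp, hr, rfl, k, rfl⟩ := hT y hy
      have e1 : r * (d * k) / d = r * k := by
        rw [show r * (d * k) = r * k * d by ring]
        exact Nat.mul_div_cancel _ (by omega)
      simp only
      rw [mem_coe, mem_YS, e1]
      refine ⟨⟨?_, ?_⟩, r, hrp, hr, Dvd.intro _ rfl⟩
      · rw [Nat.div_lt_iff_lt_mul (by omega)]
        calc l < r * (d * k) := hy1
          _ = r * k * d := by ring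
      · rw [Nat.le_div_iff_mul_le (by omega)]
        calc r * k * d = r * (d * k) := by ring
          _ ≤ m := hy2
    · intro y hy y' hy' h
      obtain ⟨_, r, w, _, _, hyy, k, hk⟩ := hT y hy
      obtain ⟨_, r', w', _, _, hyy', k', hk'⟩ := hT y' hy'
      simp only at h
      have hdy : d ∣ y := ⟨r * k, by rw [hyy, hk]; ring⟩
      have hdy' : d ∣ y' := ⟨r' * k', by rw [hyy', hk']; ring⟩
      rw [← Nat.div_mul_cancel hdy, ← Nat.div_mul_cancel hdy', h]
  set h := m / d - l / d with hh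
  have hmd : l / d + h = m / d := by
    have : l / d ≤ m / d := Nat.div_le_div_right (by omega)
    omega
  rcases Nat.eq_zero_or_pos h with h0 | hpos
  · have : YS (l / d) (m / d) M0 = ∅ := by
      rw [Finset.eq_empty_iff_forall_notMem]
      intro z hz
      have := (mem_YS.1 hz).1
      omega
    rw [this, card_empty] at h1
    have : T.card = 0 := by omega
    rw [this]
    simpa using hnn
  · have hub : h ≤ L / d + 1 := by
      have := add_div_le' l L d (by omega)
      rw [hlm] at this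
      omega
    have hlb : L / d ≤ h := by
      have := Nat.div_add_div_le_add_div (x := l) (y := L) (z := d)
      rw [hlm] at this
      omega
    have hLd2 : L / d ≤ L / 2 := Nat.div_le_div_left hd2 (by norm_num)
    have hhM : h ≤ M0 := by omega
    have h2 := hCu (l / d) h M0 hpos hhM
    rw [hmd] at h2
    have hhr : (0 : ℝ) < h := by exact_mod_cast hpos
    have hh1 : (h : ℝ) ≤ L / 2 + 1 := by
      have e1 : h ≤ L / 2 + 1 := by omega
      have e2 : ((L / 2 : ℕ) : ℝ) ≤ (L : ℝ) / 2 := by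
        have := @Nat.cast_div_le ℝ _ _ _ L 2
        simpa using this
      have e3 : (h : ℝ) ≤ ((L / 2 : ℕ) : ℝ) + 1 := by exact_mod_cast e1
      linarith
    -- L ≤ 2 d h
    have hh2 : (L : ℝ) ≤ 2 * (d * h) := by
      have e1 : L < L / d * d + d := Nat.lt_div_mul_add (by omega)
      have e2 : L / d * d ≤ h * d := Nat.mul_le_mul_right _ hlb
      have e3 : L ≤ 2 * (d * h) := by nlinarith
      exact_mod_cast e3
    have hmdr : (((m / d : ℕ) : ℝ)) ≤ m / d := Nat.cast_div_le
    have hmd0 : (0 : ℝ) < ((m / d : ℕ) : ℝ) := by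
      have : 0 < m / d := Nat.div_pos (by omega) (by omega)
      exact_mod_cast this
    have hlog2 : Real.log 2 ≤ 1 := by
      have := Real.log_le_sub_one_of_pos (show (0 : ℝ) < 2 by norm_num)
      linarith
    have h3 : Real.log ((m / d : ℕ) : ℝ) - Real.log h ≤ Real.log m - Real.log L + 1 := by
      have e1 : Real.log ((m / d : ℕ) : ℝ) ≤ Real.log m - Real.log d := by
        rw [← Real.log_div hmr.ne' hdr.ne']
        exact Real.log_le_log hmd0 hmdr
      have e2 : Real.log L ≤ Real.log 2 + (Real.log d + Real.log h) := by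
        rw [← Real.log_mul hdr.ne' hhr.ne', ← Real.log_mul (by norm_num) (by positivity)]
        exact Real.log_le_log hLr hh2
      linarith
    have hlogM : 0.985 * Real.log n ≤ Real.log M0 := by
      rw [← Real.log_rpow hnr]
      apply Real.log_le_log (by positivity)
      have : (L : ℝ) ≤ M0 := by exact_mod_cast hLM
      linarith
    have h4 : ((YS (l / d) (m / d) M0).card : ℝ) * (0.985 * Real.log n) ≤
        (L / 2 + 1) * (Real.log m - Real.log L + 1 + Cu) := by
      calc ((YS (l / d) (m / d) M0).card : ℝ) * (0.985 * Real.log n)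
          ≤ ((YS (l / d) (m / d) M0).card : ℝ) * Real.log M0 :=
            mul_le_mul_of_nonneg_left hlogM (by positivity)
        _ ≤ h * (Real.log ((m / d : ℕ) : ℝ) - Real.log h + Cu) := h2
        _ ≤ h * (Real.log m - Real.log L + 1 + Cu) := by
            apply mul_le_mul_of_nonneg_left _ hhr.le
            linarith
        _ ≤ _ := by
            apply mul_le_mul_of_nonneg_right hh1
            linarith
    have h5 : (T.card : ℝ) ≤ ((YS (l / d) (m / d) M0).card : ℝ) := by exact_mod_cast h1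
    have h6 : (T.card : ℝ) * (0.985 * Real.log n) ≤ 0.51 * L * (Real.log m - Real.log L + 1 + Cu) := by
      calc (T.card : ℝ) * (0.985 * Real.log n) ≤
          ((YS (l / d) (m / d) M0).card : ℝ) * (0.985 * Real.log n) :=
            mul_le_mul_of_nonneg_right h5 (by positivity)
        _ ≤ _ := h4
        _ ≤ _ := by
            apply mul_le_mul_of_nonneg_right _ (by linarith)
            linarith
    have h7 : 0 ≤ (L : ℝ) * (Real.log m - Real.log L + 1 + Cu) :=
      mul_nonneg hLr.le (by linarith)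
    nlinarith

end Pool.Agent.Helper1.D6
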