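import Mathlib
import Pool.Agent.Helper1.D6.R7b
import Pool.Agent.Helper1.D6.R7c
import Pool.Agent.Helper1.D6.AP

set_option autoImplicit false

namespace Pool.Agent.Helper1.D6

open Finset Nat Filter

set_option maxHeartbeats 4000000 in
/-- **Regime 7**: the two intervals cannot both have total length above `n ^ 0.99`. -/
theorem R7core (hPL : PL) : ∃ n0 : ℕ, ∀ n : ℕ, n0 ≤ n →
    ∀ m l x b a : ℕ, WCfg m l x b a → m ≤ n → n < 2 * m →
    ((x - b : ℕ) : ℝ) + ((m - l : ℕ) : ℝ) ≤ (n : ℝ) ^ (0.99 : ℝ) := by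
  classical
  obtain ⟨C1, hC1, C2, hC2, n1, hpre⟩ := R7_prelim hPL
  obtain ⟨C, hC0, hC⟩ := exists_mertens
  obtain ⟨Cu, hCu0, hCu'⟩ := cheb_upper
  have hCu : ∀ y h T : ℕ, 1 ≤ h → h ≤ T →
    ((YS y (y + h) T).card : ℝ) * Real.log T ≤ h * (Real.log ((y + h : ℕ) : ℝ) - Real.log h + Cu) := by
    intro y h T h1 h2
    have := hCu' y h T h1 h2
    unfold YS
    convert this using 3
  set C3 : ℕ := ⌈64000 * (C1 + 1) + C2⌉₊ with hC3
  have hC3le : 64000 * (C1 + 1) + C2 ≤ C3 := Nat.le_ceil _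
  have hC3r : (1 : ℝ) ≤ C3 := by linarith
  have hC3n : 1 ≤ C3 := by exact_mod_cast hC3r
  have hlogC3 : 0 ≤ Real.log C3 := Real.log_nonneg hC3r
  set Λ := 3 * (C + Cu + 2100 + 800 * Real.log C3) with hΛ
  have hΛ0 : 0 < Λ := by rw [hΛ]; linarith
  set ρ := Real.exp (-Λ) / (2 * C3) with hρ
  have hexpΛ : Real.exp (-Λ) ≤ 1 := by
    rw [← Real.exp_zero]
    exact Real.exp_le_exp.2 (by linarith)
  have hρ0 : 0 < ρ := by positivity
  have hρ2 : ρ ≤ 1 / 2 := by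
    rw [hρ, div_le_div_iff₀ (by positivity) (by norm_num)]
    linarith
  have hρC3 : C3 * ρ ≤ 1 / 2 := by
    have : (C3 : ℝ) * ρ = Real.exp (-Λ) / 2 := by rw [hρ]; field_simp
    rw [this]
    linarith
  obtain ⟨X1, hX1⟩ := top_short hPL ρ hρ0 hρ2
  have hev : ∀ᶠ n : ℕ in atTop, 16 ≤ n ∧ n1 ≤ n ∧ 2 * X1 + 1 ≤ n ∧ 2 ≤ Real.log n ∧
      (2 : ℝ) ≤ (n : ℝ) ^ (0.5 : ℝ) ∧ (100 : ℝ) ≤ (n : ℝ) ^ (0.985 : ℝ) ∧
      (2 : ℝ) ≤ (n : ℝ) ^ (0.97 : ℝ) ∧ (1 : ℝ) ≤ (n : ℝ) ^ (0.47 : ℝ) := by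
    filter_upwards [eventually_ge_atTop 16, eventually_ge_atTop n1,
      eventually_ge_atTop (2 * X1 + 1), ev_log 2,
      ev_const 2 0.5 (by norm_num), ev_const 100 0.985 (by norm_num), ev_const 2 0.97 (by norm_num),
      ev_const 1 0.47 (by norm_num)]
      with n h1 h2 h3 h4 h5 h6 h7 h8
    exact ⟨h1, h2, h3, h4, h5, h6, h7, h8⟩
  obtain ⟨n0, hn0⟩ := eventually_atTop.1 hev
  refine ⟨n0, ?_⟩
  intro n hn m l x b a hc hmn hnm
  by_contra hcon
  push Not at hcon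
  obtain ⟨hn16, hn1, hnX1, hℓ2, h5n, h985n, h97, h47⟩ := hn0 n hn
  obtain ⟨hLbig, hm2l, hKL, haL⟩ := hpre n hn1 m l x b a hc hmn hnm hcon
  obtain ⟨hab, hbx0, hxl, hlm, _⟩ := id hc
  have hshort := hX1 m l x b a (by omega) hc
  set K := x - b with hKdef
  set L := m - l with hLdef
  set ℓ := Real.log n with hℓ
  have hnr : (0 : ℝ) < n := by exact_mod_cast (by omega : 0 < n)
  have hn1r : (1 : ℝ) ≤ n := by exact_mod_cast (by omega : 1 ≤ n)
  have hℓ0 : 0 < ℓ := by linarith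
  have hpow_split : ∀ s t : ℝ, (n : ℝ) ^ (s + t) = (n : ℝ) ^ s * (n : ℝ) ^ t := fun s t => Real.rpow_add hnr s t
  have hLr : (0 : ℝ) < L := by linarith
  have hL100r : (100 : ℝ) ≤ L := by linarith
  have hL100 : 100 ≤ L := by exact_mod_cast hL100r
  have hK0 : (0 : ℝ) ≤ K := by positivity
  have hlL : l + L = m := by omega
  have hbK : b + K = x := by omega
  have hmr : (0 : ℝ) < m := by exact_mod_cast (by omega : 0 < m)
  have hm2lr : (m : ℝ) ≤ 2 * l := by exact_mod_cast hm2l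
  -- M0
  set M0 := C3 * L with hM0
  have hM0r : (M0 : ℝ) = C3 * L := by rw [hM0]; push_cast; ring
  have hM0l : M0 ≤ l := by
    have h1 : (M0 : ℝ) ≤ l := by
      rw [hM0r]
      have : (C3 : ℝ) * L ≤ C3 * (ρ * m) := mul_le_mul_of_nonneg_left hshort.le (by linarith)
      have h2 : C3 * ρ * m ≤ 1 / 2 * m := mul_le_mul_of_nonneg_right hρC3 hmr.le
      linarith
    exact_mod_cast h1
  have hLM0 : L ≤ M0 := by rw [hM0]; exact Nat.le_mul_of_pos_left L (by omega)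
  have hKM0 : K ≤ M0 := by
    have : (K : ℝ) ≤ M0 := by
      rw [hM0r]
      have : C1 * (L : ℝ) ≤ C3 * L := mul_le_mul_of_nonneg_right (by linarith) hLr.le
      linarith
    exact_mod_cast this
  have haM0 : a ≤ M0 := by
    have : (a : ℝ) ≤ M0 := by
      rw [hM0r]
      have : C2 * (L : ℝ) ≤ C3 * L := mul_le_mul_of_nonneg_right (by linarith) hLr.le
      linarith
    exact_mod_cast this
  -- lambda
  set lam := Real.log m - Real.log L with hlam
  have hlamΛ : Λ ≤ lam := by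
    have h1 : Real.log L ≤ Real.log ρ + Real.log m := by
      rw [← Real.log_mul hρ0.ne' hmr.ne']
      exact Real.log_le_log hLr hshort.le
    have h2 : Real.log ρ ≤ -Λ := by
      rw [← Real.log_exp (-Λ)]
      apply Real.log_le_log hρ0
      rw [hρ]
      apply div_le_self (Real.exp_pos _).le
      linarith
    linarith
  have hlow := YS_lower C hC hmn hlL hm2l hC3n hM0l (by omega) (by omega) hLbig h5n
  rw [← hℓ, ← hM0, ← hlam] at hlow
  set Y := YS l m M0 with hY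
  have hYne : Y.Nonempty := by
    rw [← Finset.card_pos]
    have h1 : 0 < (L : ℝ) * (lam - C - 410 - 800 * (2 + Real.log C3)) := by
      apply mul_pos hLr
      linarith
    have h2 : 0 < ℓ * (Y.card : ℝ) := lt_of_lt_of_le h1 hlow
    have h3 : (0 : ℝ) < Y.card := by
      by_contra h
      push Not at h
      have : (Y.card : ℝ) = 0 := le_antisymm h (by positivity)
      rw [this] at h2
      simp at h2
    exact_mod_cast h3
  -- structure of the elements of Y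
  have hM0pos : 0 < M0 := by omega
  set D := m / M0 with hD
  have hsqM0 : n < M0 ^ 2 := by
    have h1 : (n : ℝ) ^ (0.985 : ℝ) ≤ M0 := by
      have : (L : ℝ) ≤ M0 := by exact_mod_cast hLM0
      linarith
    have h2 : ((n : ℝ) ^ (0.985 : ℝ)) ^ 2 ≤ (M0 : ℝ) ^ 2 := pow_le_pow_left₀ (by positivity) h1 2
    have h3 : ((n : ℝ) ^ (0.985 : ℝ)) ^ 2 = (n : ℝ) ^ (0.97 : ℝ) * n := by
      rw [← Real.rpow_natCast, ← Real.rpow_mul hnr.le]
      nth_rewrite 3 [← Real.rpow_one (n : ℝ)]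
      rw [← Real.rpow_add hnr]
      norm_num
    have h4 : (n : ℝ) < (M0 : ℝ) ^ 2 := by
      have : 2 * (n : ℝ) ≤ (n : ℝ) ^ (0.97 : ℝ) * n := mul_le_mul_of_nonneg_right h97 hnr.le
      linarith
    exact_mod_cast h4
  have hstr : ∀ y ∈ Y, ∃ r w v : ℕ, r.Prime ∧ M0 < r ∧ y = r * w ∧ 1 ≤ w ∧ w ≤ D ∧
      (b < r * v ∧ r * v ≤ x) ∧ 1 ≤ v ∧ v < w := by
    intro y hy
    obtain ⟨⟨hy1, hy2⟩, r, hrp, hrM, hd⟩ := mem_YS.1 hy
    have hodd : Odd (y.factorization r) := by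
      rw [factorization_eq_one hrp (by omega) hd (by nlinarith)]
      exact odd_one
    obtain ⟨z, hz, hdz⟩ := matched hc r (by omega) (by omega) y (by rw [mem_Ioc]; exact ⟨hy1, hy2⟩) hodd
    obtain ⟨w, rfl⟩ := hd
    obtain ⟨v, rfl⟩ := hdz
    rw [mem_Ioc] at hz
    refine ⟨r, w, v, hrp, hrM, rfl, ?_, ?_, hz, ?_, ?_⟩
    · rcases Nat.eq_zero_or_pos w with h | h
      · subst h; omega
      · exact h
    · rw [hD, Nat.le_div_iff_mul_le hM0pos]
      nlinarith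
    · rcases Nat.eq_zero_or_pos v with h | h
      · subst h; omega
      · exact h
    · by_contra h
      push Not at h
      have : r * w ≤ r * v := Nat.mul_le_mul_left _ h
      omega
  choose! r w v hrp hrM hyrw hw1 hwD hzrv hv1 hvw using hstr
  obtain ⟨y0, hy0⟩ := hYne
  obtain ⟨d, v1, hcop, hdw0, hv1v0⟩ := Nat.exists_coprime (w y0) (v y0)
  set g := Nat.gcd (w y0) (v y0) with hg
  have hw0pos := hw1 y0 hy0
  have hv0pos := hv1 y0 hy0
  have hv0w0 := hvw y0 hy0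
  have hg0 : 0 < g := Nat.gcd_pos_of_pos_left _ hw0pos
  have hd2 : 2 ≤ d := by
    have hv1pos : 0 < v1 := by
      rcases Nat.eq_zero_or_pos v1 with h | h
      · rw [h] at hv1v0; omega
      · exact h
    have : v1 < d := by
      by_contra h
      push Not at h
      have := Nat.mul_le_mul_right g h
      omega
    omega
  have hdD : d ≤ D := by
    have h1 : d ≤ w y0 := by
      rw [hdw0]; exact Nat.le_mul_of_pos_right d hg0
    exact h1.trans (hwD y0 hy0)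
  -- D is small
  have hDr : (D : ℝ) ≤ m / M0 := by rw [hD]; exact Nat.cast_div_le
  have hM0rpos : (0 : ℝ) < M0 := by exact_mod_cast hM0pos
  have hDn : (D : ℝ) ≤ (n : ℝ) ^ (0.015 : ℝ) := by
    refine hDr.trans ?_
    rw [div_le_iff₀ hM0rpos]
    calc (m : ℝ) ≤ n := by exact_mod_cast hmn
      _ = (n : ℝ) ^ (0.015 : ℝ) * (n : ℝ) ^ (0.985 : ℝ) := by
          rw [← Real.rpow_add hnr]; norm_num
      _ ≤ (n : ℝ) ^ (0.015 : ℝ) * M0 := by
          apply mul_le_mul_of_nonneg_left _ (by positivity)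
          have : (L : ℝ) ≤ M0 := by exact_mod_cast hLM0
          linarith
  have hDL : (D : ℝ) * (n : ℝ) ^ (0.5 : ℝ) ≤ L := by
    calc (D : ℝ) * (n : ℝ) ^ (0.5 : ℝ) ≤ (n : ℝ) ^ (0.015 : ℝ) * (n : ℝ) ^ (0.5 : ℝ) := by gcongr
      _ = (n : ℝ) ^ (0.515 : ℝ) := by rw [← Real.rpow_add hnr]; norm_num
      _ ≤ (n : ℝ) ^ (0.985 : ℝ) := Real.rpow_le_rpow_of_exponent_le hn1r (by norm_num)
      _ ≤ _ := hLbig
  have h2dL : 2 * d ≤ L := by
    have h1 : (d : ℝ) ≤ D := by exact_mod_cast hdD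
    have h2 : (D : ℝ) * 2 ≤ L := by
      have : (D : ℝ) * 2 ≤ (D : ℝ) * (n : ℝ) ^ (0.5 : ℝ) := mul_le_mul_of_nonneg_left h5n (by positivity)
      linarith
    have h3 : 2 * (d : ℝ) ≤ L := by linarith
    exact_mod_cast h3
  -- kappa
  set κ : ℝ := 2 * ((K : ℝ) + L) / m with hκ
  have hκ0 : 0 ≤ κ := by rw [hκ]; positivity
  have hκD' : κ * D ≤ 2 * (C1 + 1) / C3 := by
    calc κ * D ≤ κ * (m / M0) := mul_le_mul_of_nonneg_left hDr hκ0
      _ = 2 * ((K : ℝ) + L) / M0 := by rw [hκ]; field_simp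
      _ ≤ 2 * (C1 * L + L) / M0 := by gcongr
      _ = 2 * (C1 + 1) / C3 := by rw [hM0r]; field_simp
  have hfrac : 2 * (C1 + 1) / (C3 : ℝ) ≤ 1 / 32000 := by
    rw [div_le_div_iff₀ (by linarith) (by norm_num)]
    linarith
  have hκD1 : κ * D ≤ 1 := by linarith
  have happ : ∀ y ∈ Y, |(((v y : ℤ) * d - (v1 : ℤ) * (w y) : ℤ) : ℝ)| ≤ κ * d * (w y) := by
    intro y hy
    have hy' := (mem_YS.1 hy).1
    have hy0' := (mem_YS.1 hy0).1
    rw [hyrw y hy] at hy'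
    rw [hyrw y0 hy0] at hy0'
    exact ratio_close (g := g) (d := d) (v1 := v1) hlL hbK hxl hy' (hzrv y hy) hy0' (hzrv y0 hy0)
      (by rw [hdw0, Nat.mul_comm]) (by rw [hv1v0, Nat.mul_comm]) hm2l
  -- the two parts
  have hYd : Real.log n * ((Y.filter (fun y => d ∣ w y)).card : ℝ) ≤
      0.52 * L * (Real.log m - Real.log L + 1 + Cu) := by
    apply YS_div Cu hCu0 hCu (by omega) hlL hd2 h2dL hLM0 hL100 (by omega) hLbig
    intro y hy
    obtain ⟨hy1, hy2⟩ := mem_filter.1 hy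
    exact ⟨(mem_YS.1 hy1).1, r y, w y, hrp y hy1, hrM y hy1, hyrw y hy1, hy2⟩
  set B1 := (Icc 1 D).filter (fun w' : ℕ => ¬ d ∣ w' ∧
    ∃ v' : ℤ, |((v' * d - (v1 : ℤ) * w' : ℤ) : ℝ)| ≤ κ * d * w') with hB1
  have hB1sum := ap_sum d D (by omega) hdD (v1 : ℤ)
    (Nat.isCoprime_iff_coprime.2 hcop.symm) κ hκ0 hκD1 B1 (by
      intro w' hw'
      obtain ⟨h1, h2, h3⟩ := mem_filter.1 hw'
      rw [mem_Icc] at h1
      exact ⟨h1.1, h1.2, h2, h3⟩)
  have hBT := bt_set l L B1 ((n : ℝ) ^ (0.5 : ℝ)) h5n (by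
    intro w' hw'
    obtain ⟨h1, _⟩ := mem_filter.1 hw'
    rw [mem_Icc] at h1
    refine ⟨h1.1, ?_⟩
    have h2 : (w' : ℝ) ≤ D := by exact_mod_cast h1.2
    have h3 : (w' : ℝ) * (n : ℝ) ^ (0.5 : ℝ) ≤ D * (n : ℝ) ^ (0.5 : ℝ) :=
      mul_le_mul_of_nonneg_right h2 (by positivity)
    linarith)
  rw [hlL, Real.log_rpow hnr, ← hℓ] at hBT
  have hYn : ((Y.filter (fun y => ¬ d ∣ w y)).card : ℝ) ≤
      400 * L / (0.5 * ℓ) * ∑ w' ∈ B1, 1 / (w' : ℝ) := by
    refine le_trans ?_ hBT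
    have : Y.filter (fun y => ¬ d ∣ w y) ⊆
        (Ioc l m).filter (fun z => ∃ w ∈ B1, ∃ r, r.Prime ∧ z = r * w) := by
      intro y hy
      obtain ⟨hy1, hy2⟩ := mem_filter.1 hy
      rw [mem_filter]
      refine ⟨mem_Ioc.2 (mem_YS.1 hy1).1, w y, ?_, r y, hrp y hy1, hyrw y hy1⟩
      rw [hB1, mem_filter, mem_Icc]
      exact ⟨⟨hw1 y hy1, hwD y hy1⟩, hy2, (v y : ℤ), happ y hy1⟩
    have h1 := card_le_card this
    have h2 : ((Y.filter (fun y => ¬ d ∣ w y)).card : ℝ) ≤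
        (((Ioc l m).filter (fun z => ∃ w ∈ B1, ∃ r, r.Prime ∧ z = r * w)).card : ℝ) := by
      exact_mod_cast h1
    convert h2 using 3
  have hD1 : 1 ≤ D := by omega
  have hlogD : Real.log D ≤ lam := by
    have hDpos : (0 : ℝ) < D := by exact_mod_cast hD1
    have h1 : Real.log D ≤ Real.log (m / L) := by
      apply Real.log_le_log hDpos
      refine hDr.trans ?_
      have : (L : ℝ) ≤ M0 := by exact_mod_cast hLM0
      gcongr
    rw [Real.log_div hmr.ne' hLr.ne'] at h1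
    exact h1
  have hsum : ∑ w' ∈ B1, 1 / (w' : ℝ) ≤ 1 / 8000 * (1 + lam) := by
    calc ∑ w' ∈ B1, 1 / (w' : ℝ) ≤ 4 * κ * D * (1 + Real.log D) := hB1sum
      _ = 4 * (κ * D) * (1 + Real.log D) := by ring
      _ ≤ 4 * (1 / 32000) * (1 + lam) := by
          have h1 : κ * D ≤ 1 / 32000 := hκD'.trans hfrac
          have h2 : 0 ≤ Real.log D := Real.log_nonneg (by exact_mod_cast hD1)
          gcongr
      _ = _ := by ring
  have hYn2 : ℓ * ((Y.filter (fun y => ¬ d ∣ w y)).card : ℝ) ≤ 0.1 * L * (1 + lam) := by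
    calc ℓ * ((Y.filter (fun y => ¬ d ∣ w y)).card : ℝ)
        ≤ ℓ * (400 * L / (0.5 * ℓ) * ∑ w' ∈ B1, 1 / (w' : ℝ)) := mul_le_mul_of_nonneg_left hYn hℓ0.le
      _ ≤ ℓ * (400 * L / (0.5 * ℓ) * (1 / 8000 * (1 + lam))) := by
          apply mul_le_mul_of_nonneg_left _ hℓ0.le
          apply mul_le_mul_of_nonneg_left hsum
          positivity
      _ = _ := by field_simp; ring
  have hsplit : (Y.card : ℝ) = ((Y.filter (fun y => d ∣ w y)).card : ℝ) +
      ((Y.filter (fun y => ¬ d ∣ w y)).card : ℝ) := by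
    have := Finset.card_filter_add_card_filter_not (s := Y) (fun y => d ∣ w y)
    exact_mod_cast this.symm
  rw [hsplit, mul_add] at hlow
  rw [← hℓ, ← hlam] at hYd
  have hfinal : (L : ℝ) * (lam - C - 410 - 800 * (2 + Real.log C3)) ≤
      L * (0.52 * (lam + 1 + Cu) + 0.1 * (1 + lam)) := by
    have e : (L : ℝ) * (0.52 * (lam + 1 + Cu) + 0.1 * (1 + lam)) =
      0.52 * L * (lam + 1 + Cu) + 0.1 * L * (1 + lam) := by ring
    rw [e]
    linarith
  have hfinal2 := le_of_mul_le_mul_left hfinal hLr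
  rw [hΛ] at hlamΛ
  linarith

end Pool.Agent.Helper1.D6
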