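import Mathlib
import Pool.Agent.Helper27.D6Det
import Pool.Agent.Helper1.D6.R7d

set_option autoImplicit false

namespace Pool.Agent.Helper1.D6

open Finset Nat Filter

theorem PL_holds : PL := by
  classical
  intro η hη0 hη2
  have h := Helper96.PNT.eventually_primes_short hη0 (by linarith : η < 1)
  have h2 := tendsto_natCast_atTop_atTop.eventually h
  obtain ⟨X, hX⟩ := eventually_atTop.1 h2
  refine ⟨X, ?_⟩
  intro x hx
  have h3 := hX x hx
  refine h3.trans ?_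
  have : ((Icc 1 ⌊((x : ℕ) : ℝ)⌋₊).filter (fun p : ℕ => p.Prime ∧ (1 - η) * ((x : ℕ) : ℝ) < p)).card ≤
      ((pr x).filter (fun r : ℕ => (1 - η) * x < (r : ℝ))).card := by
    apply card_le_card
    intro p hp
    rw [mem_filter, mem_Icc, Nat.floor_natCast] at hp
    rw [mem_filter, mem_pr]
    exact ⟨⟨hp.2.1, hp.1.2⟩, hp.2.2⟩
  exact_mod_cast this

theorem wcfg_of_rep {m w x y z : ℕ} (h : Pool.Agent.Helper27.D6.Rep m w x y z) : WCfg m w x y z := by
  refine ⟨h.hzy, h.hyx, h.hxw, h.hwm, ?_⟩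
  intro r hr
  have h1 := h.par r hr
  have h2 := factorization_factorial_eq r 0 z (Nat.zero_le z)
  rw [Nat.factorial_zero, Nat.factorization_one] at h2
  have h3 : (z !).factorization r = Pool.Agent.Helper27.D6.V r 0 z := by
    rw [h2]; simp [V, Pool.Agent.Helper27.D6.V]
  rw [h3]
  exact h1

theorem R7 : ∃ n0, ∀ n ≥ n0, ∀ m w x y z : ℕ, Pool.Agent.Helper27.D6.Rep m w x y z → m ≤ n → n < 2 * m →
    (((m : ℝ) - w) + ((x : ℝ) - y)) ≤ (n : ℝ) ^ (0.99 : ℝ) := by
  obtain ⟨n0, h0⟩ := R7core PL_holds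
  refine ⟨n0, ?_⟩
  intro n hn m w x y z hR hmn hnm
  have h1 := h0 n hn m w x y z (wcfg_of_rep hR) hmn hnm
  rw [Nat.cast_sub hR.hyx, Nat.cast_sub hR.hwm.le] at h1
  linarith

end Pool.Agent.Helper1.D6
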